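import Mathlib

/-!
# Isolation number of Cartesian products: rounding up over blocks of an independent set

Let `K_i` be disjoint blocks of an independent set of `G` such that every vertex of `G` has
neighbours in at most one block, and at most `k_i` neighbours in `K_i`.  Then
`ι(G □ H) ≥ (∑ i, ⌈|K_i| / k_i⌉) * ι(H)` for every finite graph `H`.
-/

set_option autoImplicit false

namespace Pool.Agent.Results.MP_33f02b_co.BlockBound

open Finset

/-- `v` lies in the closed neighbourhood `N[A]`: it is in `A` or has a neighbour in `A`. -/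
def InNbhd {V : Type*} (G : SimpleGraph V) (A : Finset V) (v : V) : Prop :=
  v ∈ A ∨ ∃ a ∈ A, G.Adj a v

/-- `A` is isolating: no edge of `G` has both ends outside `N[A]`. -/
def IsIsolating {V : Type*} (G : SimpleGraph V) (A : Finset V) : Prop :=
  ∀ u v, G.Adj u v → InNbhd G A u ∨ InNbhd G A v

/-- The isolation number `ι(G)`: the least cardinality of an isolating set. -/
noncomputable def isolationNumber {V : Type*} (G : SimpleGraph V) : ℕ :=
  sInf {k | ∃ A : Finset V, IsIsolating G A ∧ A.card = k}

section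
variable {α β : Type*}

lemma InNbhd.mono {V : Type*} {G : SimpleGraph V} {A B : Finset V} (h : A ⊆ B) {v : V}
    (hv : InNbhd G A v) : InNbhd G B v := by
  rcases hv with hv | ⟨a, ha, hav⟩
  · exact Or.inl (h hv)
  · exact Or.inr ⟨a, h ha, hav⟩

/-- Isolating a vertex subset `S`. -/
def IsolatesOn (H : SimpleGraph β) (S A : Finset β) : Prop :=
  ∀ h ∈ S, ∀ h' ∈ S, H.Adj h h' → InNbhd H A h ∨ InNbhd H A h'

open Classical in
lemma block [Fintype β] (G : SimpleGraph α) (H : SimpleGraph β) (J : Finset α) (k : ℕ)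
    (hk : 1 ≤ k) (W : α → Finset β) (E : β → Finset α)
    (hE : ∀ h, ∀ d ∈ E h, (J.filter (fun g => G.Adj d g)).card ≤ k) :
    ∀ S : Finset β,
      (∀ h ∈ S, ∀ h' ∈ S, H.Adj h h' → ∀ g ∈ J,
        InNbhd H (W g) h ∨ InNbhd H (W g) h' ∨ (∃ d ∈ E h, G.Adj d g) ∨ (∃ d ∈ E h', G.Adj d g)) →
      ∃ A : Finset β, IsolatesOn H S A ∧
        ((J.card + k - 1) / k) * A.card ≤ ∑ g ∈ J, (W g).card + ∑ h ∈ S, (E h).card := by
  set m := (J.card + k - 1) / k with hm
  intro S
  induction S using Finset.strongInduction with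
  | _ S ih =>
  intro hS
  rcases Nat.eq_zero_or_pos m with hm0 | hm0
  · refine ⟨S, fun h hh h' _ _ => Or.inl (Or.inl hh), ?_⟩
    rw [hm0]; simp
  by_cases hx : ∃ x : β, m ≤ ∑ t ∈ S.filter (fun t => t = x ∨ H.Adj x t), (E t).card
  · obtain ⟨x, hx⟩ := hx
    set T := S.filter (fun t => t = x ∨ H.Adj x t) with hT
    have hTne : T.Nonempty := by
      rw [Finset.nonempty_iff_ne_empty]
      intro h
      rw [h] at hx
      simp at hx
      omega
    have hss : S \ T ⊂ S := Finset.sdiff_ssubset (Finset.filter_subset _ _) hTne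
    obtain ⟨A, hA, hc⟩ := ih (S \ T) hss (fun h hh h' hh' =>
      hS h (Finset.sdiff_subset hh) h' (Finset.sdiff_subset hh'))
    refine ⟨insert x A, ?_, ?_⟩
    · intro h hh h' hh' hadj
      by_cases h1 : h ∈ T
      · left
        rcases (Finset.mem_filter.mp h1).2 with e | e
        · exact Or.inl (by rw [e]; exact Finset.mem_insert_self _ _)
        · exact Or.inr ⟨x, Finset.mem_insert_self _ _, e⟩
      · by_cases h2 : h' ∈ T
        · right
          rcases (Finset.mem_filter.mp h2).2 with e | e
          · exact Or.inl (by rw [e]; exact Finset.mem_insert_self _ _)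
          · exact Or.inr ⟨x, Finset.mem_insert_self _ _, e⟩
        · rcases hA h (Finset.mem_sdiff.mpr ⟨hh, h1⟩) h' (Finset.mem_sdiff.mpr ⟨hh', h2⟩) hadj with
            h | h
          · exact Or.inl (h.mono (Finset.subset_insert _ _))
          · exact Or.inr (h.mono (Finset.subset_insert _ _))
    · have h1 : (insert x A).card ≤ A.card + 1 := Finset.card_insert_le _ _
      have h2 : ∑ t ∈ S \ T, (E t).card + ∑ t ∈ T, (E t).card = ∑ t ∈ S, (E t).card :=
        Finset.sum_sdiff (Finset.filter_subset _ _)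
      calc m * (insert x A).card ≤ m * (A.card + 1) := Nat.mul_le_mul_left _ h1
        _ = m * A.card + m := by ring
        _ ≤ _ := by omega
  · push Not at hx
    -- a smallest isolating set of `S`
    obtain ⟨A0, hA0, hmin⟩ := Finset.exists_min_image
      (univ.filter (fun A : Finset β => IsolatesOn H S A)) (fun A => A.card)
      ⟨S, Finset.mem_filter.mpr ⟨Finset.mem_univ _, fun h hh h' _ _ => Or.inl (Or.inl hh)⟩⟩
    have hA0' : IsolatesOn H S A0 := (Finset.mem_filter.mp hA0).2
    have hmin' : ∀ A, IsolatesOn H S A → A0.card ≤ A.card := fun A hA =>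
      hmin A (Finset.mem_filter.mpr ⟨Finset.mem_univ _, hA⟩)
    let C : β → Finset α := fun h => J.filter (fun g => ∃ d ∈ E h, G.Adj d g)
    have hC : ∀ h, (C h).card ≤ k * (E h).card := by
      intro h
      have hsub : C h ⊆ (E h).biUnion (fun d => J.filter (fun g => G.Adj d g)) := by
        intro g hg
        obtain ⟨hgJ, d, hd, hadj⟩ := Finset.mem_filter.mp hg
        exact Finset.mem_biUnion.mpr ⟨d, hd, Finset.mem_filter.mpr ⟨hgJ, hadj⟩⟩
      calc (C h).card ≤ _ := Finset.card_le_card hsub
        _ ≤ ∑ d ∈ E h, (J.filter (fun g => G.Adj d g)).card := Finset.card_biUnion_le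
        _ ≤ ∑ _d ∈ E h, k := Finset.sum_le_sum (fun d hd => hE h d hd)
        _ = k * (E h).card := by rw [Finset.sum_const, smul_eq_mul, mul_comm]
    -- the set of all `W`-vertices isolates `S`
    have hWiso : IsolatesOn H S (J.biUnion W) := by
      intro h hh h' hh' hadj
      by_contra hcon
      push Not at hcon
      have hcov : J ⊆ C h ∪ C h' := by
        intro g hg
        have hsub : W g ⊆ J.biUnion W := Finset.subset_biUnion_of_mem W hg
        rcases hS h hh h' hh' hadj g hg with h1 | h1 | h1 | h1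
        · exact absurd (h1.mono hsub) hcon.1
        · exact absurd (h1.mono hsub) hcon.2
        · exact Finset.mem_union_left _ (Finset.mem_filter.mpr ⟨hg, h1⟩)
        · exact Finset.mem_union_right _ (Finset.mem_filter.mpr ⟨hg, h1⟩)
      have h1 : J.card ≤ k * ((E h).card + (E h').card) := by
        calc J.card ≤ (C h ∪ C h').card := Finset.card_le_card hcov
          _ ≤ (C h).card + (C h').card := Finset.card_union_le _ _
          _ ≤ k * (E h).card + k * (E h').card := Nat.add_le_add (hC h) (hC h')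
          _ = _ := by ring
      have h2 : (E h).card + (E h').card < m := by
        refine lt_of_le_of_lt ?_ (hx h)
        have hsub : ({h, h'} : Finset β) ⊆ S.filter (fun s => s = h ∨ H.Adj h s) := by
          intro s hs
          simp only [Finset.mem_insert, Finset.mem_singleton] at hs
          rcases hs with e | e
          · subst e; exact Finset.mem_filter.mpr ⟨hh, Or.inl rfl⟩
          · subst e; exact Finset.mem_filter.mpr ⟨hh', Or.inr hadj⟩
        have := Finset.sum_le_sum_of_subset (f := fun s => (E s).card) hsub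
        rwa [Finset.sum_pair hadj.ne] at this
      have h3 : k * m ≤ J.card + k - 1 := Nat.mul_div_le _ _
      have h4 : k * ((E h).card + (E h').card + 1) ≤ k * m := Nat.mul_le_mul_left _ h2
      have h5 : k * ((E h).card + (E h').card + 1) = k * ((E h).card + (E h').card) + k := by ring
      omega
    have hXiso : ∀ g ∈ J, IsolatesOn H S (W g ∪ S.filter (fun h => g ∈ C h)) := by
      intro g hg h hh h' hh' hadj
      rcases hS h hh h' hh' hadj g hg with h1 | h1 | h1 | h1
      · exact Or.inl (h1.mono Finset.subset_union_left)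
      · exact Or.inr (h1.mono Finset.subset_union_left)
      · exact Or.inl (Or.inl (Finset.mem_union_right _
          (Finset.mem_filter.mpr ⟨hh, Finset.mem_filter.mpr ⟨hg, h1⟩⟩)))
      · exact Or.inr (Or.inl (Finset.mem_union_right _
          (Finset.mem_filter.mpr ⟨hh', Finset.mem_filter.mpr ⟨hg, h1⟩⟩)))
    refine ⟨A0, hA0', ?_⟩
    have hw : A0.card ≤ ∑ g ∈ J, (W g).card :=
      (hmin' _ hWiso).trans Finset.card_biUnion_le
    have hs : J.card * A0.card ≤ ∑ g ∈ J, (W g).card + k * ∑ h ∈ S, (E h).card := by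
      calc J.card * A0.card = ∑ _g ∈ J, A0.card := by simp
        _ ≤ ∑ g ∈ J, (W g ∪ S.filter (fun h => g ∈ C h)).card :=
            Finset.sum_le_sum (fun g hg => hmin' _ (hXiso g hg))
        _ ≤ ∑ g ∈ J, ((W g).card + (S.filter (fun h => g ∈ C h)).card) :=
            Finset.sum_le_sum (fun g _ => Finset.card_union_le _ _)
        _ = ∑ g ∈ J, (W g).card + ∑ g ∈ J, (S.filter (fun h => g ∈ C h)).card :=
            Finset.sum_add_distrib
        _ = ∑ g ∈ J, (W g).card + ∑ h ∈ S, (J.filter (fun g => g ∈ C h)).card := by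
            congr 1
            simp only [Finset.card_filter]
            exact Finset.sum_comm
        _ ≤ ∑ g ∈ J, (W g).card + ∑ h ∈ S, (C h).card := by
            refine Nat.add_le_add_left (Finset.sum_le_sum (fun h _ => ?_)) _
            exact Finset.card_le_card (fun g hg => (Finset.mem_filter.mp hg).2)
        _ ≤ ∑ g ∈ J, (W g).card + ∑ h ∈ S, k * (E h).card :=
            Nat.add_le_add_left (Finset.sum_le_sum (fun h _ => hC h)) _
        _ = _ := by rw [Finset.mul_sum]
    have h3 : k * m ≤ J.card + k - 1 := Nat.mul_div_le _ _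
    obtain ⟨k', rfl⟩ : ∃ k', k = k' + 1 := ⟨k - 1, by omega⟩
    have h4 : (k' + 1) * m ≤ J.card + k' := by simpa using h3
    have h5 : (k' + 1) * (m * A0.card) ≤
        (k' + 1) * (∑ g ∈ J, (W g).card + ∑ h ∈ S, (E h).card) := by
      calc (k' + 1) * (m * A0.card) = ((k' + 1) * m) * A0.card := by ring
        _ ≤ (J.card + k') * A0.card := Nat.mul_le_mul_right _ h4
        _ = J.card * A0.card + k' * A0.card := by ring
        _ ≤ (∑ g ∈ J, (W g).card + (k' + 1) * ∑ h ∈ S, (E h).card) +
              k' * ∑ g ∈ J, (W g).card := Nat.add_le_add hs (Nat.mul_le_mul_left _ hw)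
        _ = _ := by ring
    exact Nat.le_of_mul_le_mul_left h5 (Nat.succ_pos k')

end

open Classical in
/-- **Partial answer.**  Let `K i` be pairwise disjoint blocks whose union is independent in `G`,
such that every vertex `d` of `G` has neighbours in at most one block and at most `k i` neighbours
in `K i`.  Then `ι(G □ H) ≥ (∑ i, ⌈|K i| / k i⌉) * ι(H)`. -/
theorem result {α β κ : Type*} [Finite α] [Finite β] [Fintype κ] (G : SimpleGraph α)
    (H : SimpleGraph β) (K : κ → Finset α) (k : κ → ℕ) (hk : ∀ i, 1 ≤ k i)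
    (hdisj : ∀ i j, i ≠ j → Disjoint (K i) (K j))
    (hind : ∀ i j, ∀ u ∈ K i, ∀ v ∈ K j, ¬ G.Adj u v)
    (hblock : ∀ d : α, ∀ i j, ∀ u ∈ K i, ∀ v ∈ K j, G.Adj d u → G.Adj d v → i = j)
    (hdeg : ∀ d : α, ∀ i, {g : α | g ∈ K i ∧ G.Adj d g}.ncard ≤ k i) :
    (∑ i, ⌈((K i).card : ℚ) / k i⌉₊) * isolationNumber H ≤ isolationNumber (G.boxProd H) := by
  have := Fintype.ofFinite α
  have := Fintype.ofFinite β
  have hceil : ∀ i, ⌈((K i).card : ℚ) / k i⌉₊ ≤ ((K i).card + k i - 1) / k i := by
    intro i
    rw [Nat.ceil_le, div_le_iff₀ (by exact_mod_cast hk i)]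
    have h1 : (K i).card ≤ (((K i).card + k i - 1) / k i) * k i := by
      have h2 := Nat.div_add_mod ((K i).card + k i - 1) (k i)
      have h3 := Nat.mod_lt ((K i).card + k i - 1) (hk i)
      have h4 := hk i
      rw [mul_comm] at h2
      omega
    exact_mod_cast h1
  have hmem : isolationNumber (G.boxProd H) ∈
      {k | ∃ A : Finset (α × β), IsIsolating (G.boxProd H) A ∧ A.card = k} :=
    Nat.sInf_mem ⟨_, univ, fun u _ _ => Or.inl (Or.inl (Finset.mem_univ u)), rfl⟩
  obtain ⟨D, hD, hDc⟩ := hmem
  rw [← hDc]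
  let W : α → Finset β := fun g => univ.filter (fun h => (g, h) ∈ D)
  let E : κ → β → Finset α := fun i h =>
    univ.filter (fun d => (d, h) ∈ D ∧ ∃ g ∈ K i, G.Adj d g)
  have hone : ∀ i, ((K i).card + k i - 1) / k i * isolationNumber H ≤
      ∑ g ∈ K i, (W g).card + ∑ h : β, (E i h).card := by
    intro i
    have hloc : ∀ g ∈ K i, ∀ h : β, InNbhd (G.boxProd H) D (g, h) →
        InNbhd H (W g) h ∨ ∃ d ∈ E i h, G.Adj d g := by
      intro g hg h hin
      rcases hin with h1 | ⟨⟨a, b⟩, hab, hadj⟩
      · exact Or.inl (Or.inl (Finset.mem_filter.mpr ⟨Finset.mem_univ _, h1⟩))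
      · rw [SimpleGraph.boxProd_adj] at hadj
        rcases hadj with ⟨h1, h2⟩ | ⟨h1, h2⟩
        · simp only at h1 h2
          subst h2
          exact Or.inr ⟨a, Finset.mem_filter.mpr ⟨Finset.mem_univ _, hab, g, hg, h1⟩, h1⟩
        · simp only at h1 h2
          subst h2
          exact Or.inl (Or.inr ⟨b, Finset.mem_filter.mpr ⟨Finset.mem_univ _, hab⟩, h1⟩)
    obtain ⟨A, hA, hc⟩ := block G H (K i) (k i) (hk i) W (E i) (by
      intro h d _
      have := hdeg d i
      rw [Set.ncard_eq_toFinset_card'] at this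
      refine le_trans (Finset.card_le_card ?_) this
      intro g hg
      simpa using hg) univ (by
      intro h _ h' _ hadj g hg
      have hadj' : (G.boxProd H).Adj (g, h) (g, h') := by
        rw [SimpleGraph.boxProd_adj]
        exact Or.inr ⟨hadj, rfl⟩
      rcases hD _ _ hadj' with h1 | h1
      · rcases hloc g hg h h1 with h2 | h2
        · exact Or.inl h2
        · exact Or.inr (Or.inr (Or.inl h2))
      · rcases hloc g hg h' h1 with h2 | h2
        · exact Or.inr (Or.inl h2)
        · exact Or.inr (Or.inr (Or.inr h2)))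
    refine le_trans (Nat.mul_le_mul_left _ ?_) hc
    exact Nat.sInf_le ⟨A, fun u v huv => hA u (Finset.mem_univ _) v (Finset.mem_univ _) huv, rfl⟩
  set I : Finset α := univ.biUnion K with hIdef
  have e1 : ∑ i, ∑ g ∈ K i, (W g).card = (D.filter (fun x => x.1 ∈ I)).card := by
    rw [← Finset.sum_biUnion (fun i _ j _ hij => hdisj i j hij)]
    have hmaps : Set.MapsTo Prod.fst (↑(D.filter (fun x : α × β => x.1 ∈ I)) : Set (α × β))
        (↑I : Set α) := fun x hx => (Finset.mem_filter.mp (Finset.mem_coe.mp hx)).2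
    rw [Finset.card_eq_sum_card_fiberwise hmaps]
    refine Finset.sum_congr rfl (fun g hg => ?_)
    refine Finset.card_bij (fun h _ => (g, h)) ?_ ?_ ?_
    · intro h hh
      exact Finset.mem_filter.mpr ⟨Finset.mem_filter.mpr ⟨(Finset.mem_filter.mp hh).2, hg⟩, rfl⟩
    · intro a _ b _ e
      exact (Prod.mk.inj e).2
    · rintro ⟨a, b⟩ hb
      obtain ⟨h1, h2⟩ := Finset.mem_filter.mp hb
      simp only at h2
      subst h2
      exact ⟨b, Finset.mem_filter.mpr ⟨Finset.mem_univ _, (Finset.mem_filter.mp h1).1⟩, rfl⟩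
  have e2 : ∑ i, ∑ h : β, (E i h).card ≤ (D.filter (fun x => x.1 ∉ I)).card := by
    have hmaps : Set.MapsTo Prod.snd (↑(D.filter (fun x : α × β => x.1 ∉ I)) : Set (α × β))
        (↑(univ : Finset β) : Set β) := fun x _ => Finset.mem_coe.mpr (Finset.mem_univ _)
    rw [Finset.card_eq_sum_card_fiberwise hmaps, Finset.sum_comm]
    refine Finset.sum_le_sum (fun h _ => ?_)
    rw [← Finset.card_biUnion]
    · refine Finset.card_le_card_of_injOn (fun d => (d, h)) ?_ ?_
      · intro d hd
        obtain ⟨i, -, hd'⟩ := Finset.mem_biUnion.mp hd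
        obtain ⟨-, h1, g, hg, hadj⟩ := Finset.mem_filter.mp hd'
        refine Finset.mem_coe.mpr (Finset.mem_filter.mpr
          ⟨Finset.mem_filter.mpr ⟨h1, ?_⟩, rfl⟩)
        intro hdI
        obtain ⟨j, -, hj⟩ := Finset.mem_biUnion.mp hdI
        exact hind j i d hj g hg hadj
      · intro a _ b _ e
        exact (Prod.mk.inj e).1
    · intro i _ j _ hij
      rw [Function.onFun, Finset.disjoint_left]
      intro d hd hd'
      obtain ⟨-, -, g, hg, hadj⟩ := Finset.mem_filter.mp hd
      obtain ⟨-, -, g', hg', hadj'⟩ := Finset.mem_filter.mp hd'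
      exact hij (hblock d i j g hg g' hg' hadj hadj')
  calc (∑ i, ⌈((K i).card : ℚ) / k i⌉₊) * isolationNumber H
      ≤ (∑ i, ((K i).card + k i - 1) / k i) * isolationNumber H :=
        Nat.mul_le_mul_right _ (Finset.sum_le_sum (fun i _ => hceil i))
    _ = ∑ i, ((K i).card + k i - 1) / k i * isolationNumber H := Finset.sum_mul _ _ _
    _ ≤ ∑ i, (∑ g ∈ K i, (W g).card + ∑ h : β, (E i h).card) :=
        Finset.sum_le_sum (fun i _ => hone i)
    _ = ∑ i, ∑ g ∈ K i, (W g).card + ∑ i, ∑ h : β, (E i h).card := Finset.sum_add_distrib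
    _ ≤ (D.filter (fun x => x.1 ∈ I)).card + (D.filter (fun x => x.1 ∉ I)).card :=
        Nat.add_le_add e1.le e2
    _ = D.card := Finset.card_filter_add_card_filter_not (fun x : α × β => x.1 ∈ I)

end Pool.Agent.Results.MP_33f02b_co.BlockBound
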