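import Mathlib

/-!
# Isolation number of Cartesian products: claw-free first factor

For claw-free `G` and every `H`: `ι(G □ H) ≥ γ^i(G) * ι(H)`.
-/

set_option autoImplicit false

namespace Pool.Agent.Results.MP_33f02b_co.ClawFree

open Finset

/-- `v` lies in the closed neighbourhood `N[A]`: it is in `A` or has a neighbour in `A`. -/
def InNbhd {V : Type*} (G : SimpleGraph V) (A : Finset V) (v : V) : Prop :=
  v ∈ A ∨ ∃ a ∈ A, G.Adj a v

/-- `A` is isolating: no edge of `G` has both ends outside `N[A]`. -/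
def IsIsolating {V : Type*} (G : SimpleGraph V) (A : Finset V) : Prop :=
  ∀ u v, G.Adj u v → InNbhd G A u ∨ InNbhd G A v

/-- The isolation number `ι(G)`: the least cardinality of an isolating set. -/
noncomputable def isolationNumber {V : Type*} (G : SimpleGraph V) : ℕ :=
  sInf {k | ∃ A : Finset V, IsIsolating G A ∧ A.card = k}

/-- The least number of vertices of `G` dominating all of `I`. -/
noncomputable def domNumberOf {V : Type*} (G : SimpleGraph V) (I : Finset V) : ℕ :=
  sInf {k | ∃ D : Finset V, (∀ v ∈ I, InNbhd G D v) ∧ D.card = k}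

/-- The independence-domination number `γ^i(G)`: the largest value of `domNumberOf G I` over the
independent sets `I` of `G`. -/
noncomputable def indepDomNumber {V : Type*} (G : SimpleGraph V) : ℕ :=
  sSup {k | ∃ I : Finset V, (∀ u ∈ I, ∀ v ∈ I, ¬ G.Adj u v) ∧ domNumberOf G I = k}

/-- `G` has no induced `K_{1,3}`. -/
def IsClawFree {V : Type*} (G : SimpleGraph V) : Prop :=
  ∀ d a b c, G.Adj d a → G.Adj d b → G.Adj d c → a ≠ b → a ≠ c → b ≠ c →
    G.Adj a b ∨ G.Adj a c ∨ G.Adj b c

section Gallai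
variable {α : Type*}

lemma InNbhd.mono {V : Type*} {G : SimpleGraph V} {A B : Finset V} (h : A ⊆ B) {v : V}
    (hv : InNbhd G A v) : InNbhd G B v := by
  rcases hv with hv | ⟨a, ha, hav⟩
  · exact Or.inl (h hv)
  · exact Or.inr ⟨a, h ha, hav⟩

lemma dn_le {V : Type*} (G : SimpleGraph V) (I D : Finset V)
    (h : ∀ v ∈ I, InNbhd G D v) : domNumberOf G I ≤ D.card :=
  Nat.sInf_le ⟨D, h, rfl⟩

lemma dn_le_card {V : Type*} (G : SimpleGraph V) (I : Finset V) :
    domNumberOf G I ≤ I.card :=
  dn_le G I I (fun _ hv => Or.inl hv)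

lemma dn_attained {V : Type*} (G : SimpleGraph V) (I : Finset V) :
    ∃ D : Finset V, (∀ v ∈ I, InNbhd G D v) ∧ D.card = domNumberOf G I :=
  Nat.sInf_mem (s := {k | ∃ D : Finset V, (∀ v ∈ I, InNbhd G D v) ∧ D.card = k})
    ⟨_, I, fun _ hv => Or.inl hv, rfl⟩

open Classical in
lemma dn_union_le {V : Type*} (G : SimpleGraph V) (I J : Finset V) :
    domNumberOf G (I ∪ J) ≤ domNumberOf G I + domNumberOf G J := by
  obtain ⟨D, hD, hDc⟩ := dn_attained G I
  obtain ⟨D', hD', hDc'⟩ := dn_attained G J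
  rw [← hDc, ← hDc']
  refine (dn_le G _ (D ∪ D') ?_).trans (Finset.card_union_le _ _)
  intro v hv
  rcases Finset.mem_union.mp hv with h | h
  · exact (hD v h).mono Finset.subset_union_left
  · exact (hD' v h).mono Finset.subset_union_right

/-- A pairing of `I`: an involution of `I` such that two paired vertices have a common
neighbour. -/
def IsPairing (G : SimpleGraph α) (I : Finset α) (σ : α → α) : Prop :=
  ∀ v ∈ I, σ v ∈ I ∧ σ (σ v) = v ∧ (σ v ≠ v → ∃ d, G.Adj d v ∧ G.Adj d (σ v))

open Classical in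
/-- A pairing gives a dominating set. -/
lemma pairing_bound [Fintype α] (G : SimpleGraph α) (I : Finset α) (σ : α → α)
    (hσ : IsPairing G I σ) :
    2 * domNumberOf G I ≤ I.card + (I.filter (fun v => σ v = v)).card := by
  let φ : α ≃ Fin (Fintype.card α) := Fintype.equivFin α
  set F := I.filter (fun v => σ v = v) with hF
  set L := I.filter (fun v => φ v < φ (σ v)) with hL
  set M := I.filter (fun v => φ (σ v) < φ v) with hM
  have hLM : L.card = M.card := by
    refine Finset.card_bij (fun v _ => σ v) ?_ ?_ ?_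
    · intro v hv
      obtain ⟨h1, h2⟩ := Finset.mem_filter.mp hv
      refine Finset.mem_filter.mpr ⟨(hσ v h1).1, ?_⟩
      rw [(hσ v h1).2.1]; exact h2
    · intro v hv w hw e
      have h1 := (hσ v (Finset.mem_filter.mp hv).1).2.1
      have h2 := (hσ w (Finset.mem_filter.mp hw).1).2.1
      rw [← h1, ← h2, e]
    · intro w hw
      obtain ⟨h1, h2⟩ := Finset.mem_filter.mp hw
      refine ⟨σ w, Finset.mem_filter.mpr ⟨(hσ w h1).1, ?_⟩, (hσ w h1).2.1⟩
      rw [(hσ w h1).2.1]; exact h2
  have hcard : I.card = F.card + L.card + M.card := by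
    have h1 : I = (F ∪ L) ∪ M := by
      ext v
      simp only [hF, hL, hM, Finset.mem_union, Finset.mem_filter]
      constructor
      · intro hv
        rcases lt_trichotomy (φ v) (φ (σ v)) with h | h | h
        · exact Or.inl (Or.inr ⟨hv, h⟩)
        · exact Or.inl (Or.inl ⟨hv, (φ.injective h).symm⟩)
        · exact Or.inr ⟨hv, h⟩
      · rintro ((h | h) | h) <;> exact h.1
    have h2 : Disjoint F L := by
      rw [Finset.disjoint_left]
      intro v h3 h4
      have h5 := (Finset.mem_filter.mp h3).2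
      have h6 := (Finset.mem_filter.mp h4).2
      rw [h5] at h6
      exact lt_irrefl _ h6
    have h3 : Disjoint (F ∪ L) M := by
      rw [Finset.disjoint_left]
      intro v h3 h4
      have h6 := (Finset.mem_filter.mp h4).2
      rcases Finset.mem_union.mp h3 with h5 | h5
      · rw [(Finset.mem_filter.mp h5).2] at h6
        exact lt_irrefl _ h6
      · exact lt_asymm (Finset.mem_filter.mp h5).2 h6
    conv_lhs => rw [h1]
    rw [Finset.card_union_of_disjoint h3, Finset.card_union_of_disjoint h2]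
  have hex : ∀ v : α, ∃ d : α, (v ∈ F → d = v) ∧ (v ∈ L → G.Adj d v ∧ G.Adj d (σ v)) := by
    intro v
    by_cases h1 : v ∈ F
    · refine ⟨v, fun _ => rfl, fun h2 => ?_⟩
      have h5 := (Finset.mem_filter.mp h1).2
      have h6 := (Finset.mem_filter.mp h2).2
      rw [h5] at h6
      exact absurd h6 (lt_irrefl _)
    · by_cases h2 : v ∈ L
      · obtain ⟨h3, h4⟩ := Finset.mem_filter.mp h2
        obtain ⟨d, hd⟩ := (hσ v h3).2.2 (fun e => by rw [e] at h4; exact lt_irrefl _ h4)
        exact ⟨d, fun h => absurd h h1, fun _ => hd⟩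
      · exact ⟨v, fun h => absurd h h1, fun h => absurd h h2⟩
  choose c hc1 hc2 using hex
  have hdom : ∀ v ∈ I, InNbhd G ((F ∪ L).image c) v := by
    intro v hv
    rcases lt_trichotomy (φ v) (φ (σ v)) with h | h | h
    · have h1 : v ∈ L := Finset.mem_filter.mpr ⟨hv, h⟩
      exact Or.inr ⟨c v, Finset.mem_image_of_mem _ (Finset.mem_union_right _ h1), (hc2 v h1).1⟩
    · have h1 : v ∈ F := Finset.mem_filter.mpr ⟨hv, (φ.injective h).symm⟩
      refine Or.inl ?_
      have h2 := Finset.mem_image_of_mem c (Finset.mem_union_left L h1)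
      rwa [hc1 v h1] at h2
    · have h1 : σ v ∈ L := Finset.mem_filter.mpr ⟨(hσ v hv).1, by rw [(hσ v hv).2.1]; exact h⟩
      have h2 := (hc2 (σ v) h1).2
      rw [(hσ v hv).2.1] at h2
      exact Or.inr ⟨c (σ v), Finset.mem_image_of_mem _ (Finset.mem_union_right _ h1), h2⟩
  have h1 := dn_le G I _ hdom
  have h2 : ((F ∪ L).image c).card ≤ F.card + L.card :=
    Finset.card_image_le.trans (Finset.card_union_le _ _)
  omega

open Classical in
/-- If `I - t` can be dominated by fewer vertices, there is an optimal pairing fixing `t`. -/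
lemma exists_pairing [Fintype α] (G : SimpleGraph α) (I : Finset α)
    (hind : ∀ u ∈ I, ∀ v ∈ I, ¬ G.Adj u v)
    (hdeg : ∀ d, (I.filter (fun g => G.Adj d g)).card ≤ 2) (t : α) (ht : t ∈ I)
    (hcrit : domNumberOf G (I.erase t) < domNumberOf G I) :
    ∃ σ : α → α, IsPairing G I σ ∧ σ t = t ∧
      I.card + (I.filter (fun v => σ v = v)).card ≤ 2 * domNumberOf G I := by
  obtain ⟨D, hD, hDc⟩ := dn_attained G (I.erase t)
  have hch : ∀ v : α, ∃ d : α, v ∈ I.erase t → d ∈ D ∧ (v = d ∨ G.Adj d v) := by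
    intro v
    by_cases hv : v ∈ I.erase t
    · rcases hD v hv with h1 | ⟨a, ha, hav⟩
      · exact ⟨v, fun _ => ⟨h1, Or.inl rfl⟩⟩
      · exact ⟨a, fun _ => ⟨ha, Or.inr hav⟩⟩
    · exact ⟨v, fun h => absurd h hv⟩
  choose f hf using hch
  set J := I.erase t with hJ
  have hJI : ∀ {v}, v ∈ J → v ∈ I := fun h => Finset.mem_of_mem_erase h
  -- two elements of a common fibre are neighbours of the centre
  have hadj : ∀ v ∈ J, ∀ w ∈ J, v ≠ w → f v = f w → G.Adj (f v) v ∧ G.Adj (f v) w := by
    intro v hv w hw hne e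
    rcases (hf v hv).2 with h1 | h1
    · rcases (hf w hw).2 with h2 | h2
      · exact absurd (by rw [h1, h2, e]) hne
      · rw [← e, ← h1] at h2
        exact absurd h2 (hind v (hJI hv) w (hJI hw))
    · rcases (hf w hw).2 with h2 | h2
      · rw [e, ← h2] at h1
        exact absurd h1 (hind w (hJI hw) v (hJI hv))
      · exact ⟨h1, by rw [e]; exact h2⟩
  have hfib : ∀ v ∈ J, ∀ w ∈ J, ∀ x ∈ J, v ≠ w → v ≠ x → f v = f w → f v = f x → w = x := by
    intro v hv w hw x hx h1 h2 e1 e2
    by_contra h3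
    have hsub : ({v, w, x} : Finset α) ⊆ I.filter (fun g => G.Adj (f v) g) := by
      intro s hs
      simp only [Finset.mem_insert, Finset.mem_singleton] at hs
      rcases hs with e | e | e
      · subst e; exact Finset.mem_filter.mpr ⟨hJI hv, (hadj s hv w hw h1 e1).1⟩
      · subst e; exact Finset.mem_filter.mpr ⟨hJI hw, (hadj v hv s hw h1 e1).2⟩
      · subst e; exact Finset.mem_filter.mpr ⟨hJI hx, (hadj v hv s hx h2 e2).2⟩
    have h4 := (Finset.card_le_card hsub).trans (hdeg (f v))
    rw [Finset.card_insert_of_notMem (by simp [h1, h2]), Finset.card_pair h3] at h4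
    omega
  have hch2 : ∀ v : α, ∃ w : α, ((∃ x ∈ J, v ∈ J ∧ x ≠ v ∧ f x = f v) →
      w ∈ J ∧ v ∈ J ∧ w ≠ v ∧ f w = f v) ∧ ((¬ ∃ x ∈ J, v ∈ J ∧ x ≠ v ∧ f x = f v) → w = v) := by
    intro v
    by_cases h : ∃ x ∈ J, v ∈ J ∧ x ≠ v ∧ f x = f v
    · obtain ⟨x, hx⟩ := h
      exact ⟨x, fun _ => hx, fun h' => absurd ⟨x, hx⟩ h'⟩
    · exact ⟨v, fun h' => absurd h' h, fun _ => rfl⟩
  choose σ hσ1 hσ2 using hch2
  have hσJ : ∀ v ∈ J, σ v ∈ J ∧ σ (σ v) = v ∧ f (σ v) = f v := by
    intro v hv
    by_cases h : ∃ x ∈ J, v ∈ J ∧ x ≠ v ∧ f x = f v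
    · obtain ⟨h1, -, h2, h3⟩ := hσ1 v h
      obtain ⟨h4, -, h5, h6⟩ := hσ1 (σ v) ⟨v, hv, h1, h2.symm, h3.symm⟩
      refine ⟨h1, ?_, h3⟩
      exact hfib (σ v) h1 (σ (σ v)) h4 v hv h5.symm h2 h6.symm h3
    · have h1 := hσ2 v h
      rw [h1]
      exact ⟨hv, h1, rfl⟩
  have hσt : σ t = t := by
    refine hσ2 t ?_
    rintro ⟨x, -, h1, -⟩
    exact absurd rfl (Finset.ne_of_mem_erase h1)
  refine ⟨σ, ?_, hσt, ?_⟩
  · intro v hv
    by_cases hvt : v = t
    · subst hvt
      rw [hσt]
      exact ⟨hv, hσt, fun h => absurd rfl h⟩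
    · have hvJ : v ∈ J := Finset.mem_erase.mpr ⟨hvt, hv⟩
      obtain ⟨h1, h2, h3⟩ := hσJ v hvJ
      refine ⟨hJI h1, h2, fun h4 => ?_⟩
      exact ⟨f v, hadj v hvJ (σ v) h1 h4.symm h3.symm⟩
  · -- counting over fibres
    have hcount : (J.filter (fun v => σ v = v)).card + J.card ≤ 2 * D.card := by
      have hm1 : Set.MapsTo f (↑J : Set α) (↑D : Set α) := fun v hv =>
        Finset.mem_coe.mpr (hf v (Finset.mem_coe.mp hv)).1
      have hm2 : Set.MapsTo f (↑(J.filter (fun v => σ v = v)) : Set α) (↑D : Set α) :=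
        fun v hv => Finset.mem_coe.mpr (hf v (Finset.mem_filter.mp (Finset.mem_coe.mp hv)).1).1
      rw [Finset.card_eq_sum_card_fiberwise hm1, Finset.card_eq_sum_card_fiberwise hm2,
        ← Finset.sum_add_distrib]
      calc _ ≤ ∑ _d ∈ D, 2 := Finset.sum_le_sum (fun d _ => ?_)
        _ = 2 * D.card := by rw [Finset.sum_const, smul_eq_mul, mul_comm]
      by_cases h1 : (J.filter (fun v => f v = d)).card ≤ 1
      · have h2 : ((J.filter (fun v => σ v = v)).filter (fun v => f v = d)).card ≤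
            (J.filter (fun v => f v = d)).card := by
          refine Finset.card_le_card ?_
          exact Finset.filter_subset_filter _ (Finset.filter_subset _ _)
        omega
      · have h2 : (J.filter (fun v => σ v = v)).filter (fun v => f v = d) = ∅ := by
          rw [Finset.eq_empty_iff_forall_notMem]
          intro v hv
          obtain ⟨hv1, hv2⟩ := Finset.mem_filter.mp hv
          obtain ⟨hv3, hv4⟩ := Finset.mem_filter.mp hv1
          push Not at h1
          obtain ⟨x, hx, hxv⟩ := Finset.exists_mem_ne h1 v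
          obtain ⟨hx1, hx2⟩ := Finset.mem_filter.mp hx
          have := hσ1 v ⟨x, hx1, hv3, hxv, by rw [hx2, hv2]⟩
          exact this.2.2.1 hv4
        have h3 : (J.filter (fun v => f v = d)).card ≤ 2 := by
          by_contra h4
          push Not at h4
          obtain ⟨a, ha, b, hb, c, hc, hab, hac, hbc⟩ := Finset.two_lt_card.mp h4
          obtain ⟨ha1, ha2⟩ := Finset.mem_filter.mp ha
          obtain ⟨hb1, hb2⟩ := Finset.mem_filter.mp hb
          obtain ⟨hc1, hc2⟩ := Finset.mem_filter.mp hc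
          exact hbc (hfib a ha1 b hb1 c hc1 hab hac (by rw [ha2, hb2]) (by rw [ha2, hc2]))
        rw [h2, Finset.card_empty]
        omega
    have h1 : I.card = J.card + 1 := by
      rw [hJ, Finset.card_erase_of_mem ht]
      have := Finset.card_pos.mpr ⟨t, ht⟩
      omega
    have h2 : (I.filter (fun v => σ v = v)).card ≤ (J.filter (fun v => σ v = v)).card + 1 := by
      have hsub : I.filter (fun v => σ v = v) ⊆ insert t (J.filter (fun v => σ v = v)) := by
        intro v hv
        obtain ⟨h3, h4⟩ := Finset.mem_filter.mp hv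
        by_cases e : v = t
        · rw [e]; exact Finset.mem_insert_self _ _
        · exact Finset.mem_insert_of_mem (Finset.mem_filter.mpr ⟨Finset.mem_erase.mpr ⟨e, h3⟩, h4⟩)
      exact (Finset.card_le_card hsub).trans (Finset.card_insert_le _ _)
    omega

open Classical in
/-- Re-pairing: pair the fixed vertex `x` with `y`, and unpair the old partner of `y`. -/
lemma repair (G : SimpleGraph α) (I : Finset α) (σ : α → α) (hσ : IsPairing G I σ)
    (x y : α) (hx : x ∈ I) (hy : y ∈ I) (hxy : x ≠ y) (hfx : σ x = x)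
    (hcom : ∃ d, G.Adj d x ∧ G.Adj d y) :
    ∃ τ : α → α, IsPairing G I τ ∧ τ x = y ∧ τ y = x ∧ τ (σ y) = (if σ y = y then x else σ y) ∧
      (∀ v, v ≠ x → v ≠ y → v ≠ σ y → τ v = σ v) := by
  obtain ⟨hy1, hy2, hy3⟩ := hσ y hy
  have hzx : σ y ≠ x := by
    intro e
    rw [e, hfx] at hy2
    exact hxy hy2
  let τ : α → α := fun v => if v = x then y else if v = y then x else if v = σ y then σ y else σ v
  have t1 : τ x = y := by simp [τ]
  have t2 : τ y = x := by simp [τ, hxy.symm]
  have t4 : ∀ v, v ≠ x → v ≠ y → v ≠ σ y → τ v = σ v := by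
    intro v h1 h2 h3
    simp [τ, h1, h2, h3]
  have t3 : τ (σ y) = (if σ y = y then x else σ y) := by
    by_cases h : σ y = y
    · rw [if_pos h, h, t2]
    · simp [τ, hzx, h]
  refine ⟨τ, ?_, t1, t2, t3, t4⟩
  intro v hv
  by_cases h1 : v = x
  · subst h1
    rw [t1, t2]
    exact ⟨hy, rfl, fun _ => hcom⟩
  by_cases h2 : v = y
  · subst h2
    rw [t2, t1]
    obtain ⟨d, hd1, hd2⟩ := hcom
    exact ⟨hx, rfl, fun _ => ⟨d, hd2, hd1⟩⟩
  by_cases h3 : v = σ y
  · have h4 : σ y ≠ y := fun e => h2 (by rw [h3, e])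
    have h5 : τ v = v := by rw [h3, t3, if_neg h4]
    rw [h5]
    exact ⟨hv, h5, fun h => absurd rfl h⟩
  · have h5 := t4 v h1 h2 h3
    obtain ⟨h6, h7, h8⟩ := hσ v hv
    have h9 : σ v ≠ x := by
      intro e
      rw [e, hfx] at h7
      exact h1 h7.symm
    have h10 : σ v ≠ y := by
      intro e
      rw [e] at h7
      exact h3 h7.symm
    have h11 : σ v ≠ σ y := by
      intro e
      have := congrArg σ e
      rw [h7, hy2] at this
      exact h2 this
    rw [h5, t4 (σ v) h9 h10 h11]
    exact ⟨h6, h7, h8⟩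

open Classical in
/-- Gallai's lemma in the form needed here. -/
lemma gallai [Fintype α] (G : SimpleGraph α) (I : Finset α)
    (hind : ∀ u ∈ I, ∀ v ∈ I, ¬ G.Adj u v)
    (hdeg : ∀ d, (I.filter (fun g => G.Adj d g)).card ≤ 2)
    (hcrit : ∀ t ∈ I, domNumberOf G (I.erase t) < domNumberOf G I)
    (hconn : ∀ I1 I2 : Finset α, I1.Nonempty → I2.Nonempty → I1 ∪ I2 = I → Disjoint I1 I2 →
      ∃ d, (∃ u ∈ I1, G.Adj d u) ∧ ∃ v ∈ I2, G.Adj d v) :
    2 * domNumberOf G I ≤ I.card + 1 := by
  rcases I.eq_empty_or_nonempty with h0 | ⟨u0, hu0⟩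
  · have := dn_le_card G I
    rw [h0] at this ⊢
    simp at this
    omega
  let fx : (α → α) → Finset α := fun σ => I.filter (fun v => σ v = v)
  let Opt : (α → α) → Prop := fun σ => IsPairing G I σ ∧ I.card + (fx σ).card ≤ 2 * domNumberOf G I
  -- two fixed vertices of an optimal pairing have no common neighbour
  have hone : ∀ σ, Opt σ → ∀ x ∈ I, ∀ y ∈ I, x ≠ y → σ x = x → σ y = y →
      ¬ ∃ d, G.Adj d x ∧ G.Adj d y := by
    intro σ hσ x hx y hy hxy hfx hfy hcom
    obtain ⟨τ, hτ, t1, t2, -, t4⟩ := repair G I σ hσ.1 x y hx hy hxy hfx hcom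
    have h1 := pairing_bound G I τ hτ
    have h2 : fx τ ⊆ ((fx σ).erase x).erase y := by
      intro v hv
      obtain ⟨hvI, hvf⟩ := Finset.mem_filter.mp hv
      have h3 : v ≠ x := by rintro rfl; exact hxy (by rw [← t1, hvf])
      have h4 : v ≠ y := by rintro rfl; exact hxy (by rw [← t2, hvf])
      refine Finset.mem_erase.mpr ⟨h4, Finset.mem_erase.mpr ⟨h3, Finset.mem_filter.mpr ⟨hvI, ?_⟩⟩⟩
      rw [← t4 v h3 h4 (by rw [hfy]; exact h4), hvf]
    have h3 := Finset.card_le_card h2
    have hxm : x ∈ fx σ := Finset.mem_filter.mpr ⟨hx, hfx⟩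
    have hym : y ∈ (fx σ).erase x := Finset.mem_erase.mpr ⟨hxy.symm, Finset.mem_filter.mpr ⟨hy, hfy⟩⟩
    rw [Finset.card_erase_of_mem hym, Finset.card_erase_of_mem hxm] at h3
    have h4 := Finset.card_pos.mpr ⟨x, hxm⟩
    have h5 := Finset.card_pos.mpr ⟨y, hym⟩
    rw [Finset.card_erase_of_mem hxm] at h5
    have h6 := hσ.2
    have h7 : (I.filter (fun v => τ v = v)).card = (fx τ).card := rfl
    omega
  let R : α → α → Prop := fun u v => ∀ σ, Opt σ → σ u = u → σ v = v → u = v
  have hRsymm : ∀ u v, R u v → R v u := fun u v h σ hσ h1 h2 => (h σ hσ h2 h1).symm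
  have hRtrans : ∀ u ∈ I, ∀ t ∈ I, ∀ v ∈ I, R u t → R t v → R u v := by
    intro u hu t ht v hv hut htv σ hσ hfu hfv
    by_contra huv
    have htu : t ≠ u := by
      rintro rfl
      exact huv (htv σ hσ hfu hfv)
    have htv' : t ≠ v := by
      rintro rfl
      exact huv (hut σ hσ hfu hfv)
    let agr : (α → α) → Finset α := fun τ => I.filter (fun x => σ x = τ x ∧ σ x ≠ x)
    obtain ⟨σ0, hσ0, hσ0t, hσ0c⟩ := exists_pairing G I hind hdeg t ht (hcrit t ht)
    obtain ⟨ρ, hρm, hρmax⟩ := Finset.exists_max_image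
      (univ.filter (fun τ : α → α => Opt τ ∧ τ t = t)) (fun τ => (agr τ).card)
      ⟨σ0, Finset.mem_filter.mpr ⟨Finset.mem_univ _, ⟨hσ0, hσ0c⟩, hσ0t⟩⟩
    obtain ⟨-, hρ, hρt⟩ := Finset.mem_filter.mp hρm
    have hρu : ρ u ≠ u := fun e => htu ((hut ρ hρ e hρt).symm)
    have hρv : ρ v ≠ v := fun e => htv' (htv ρ hρ hρt e)
    -- a vertex fixed by `ρ` but not by `σ`, different from `t`
    have hex : ∃ x ∈ I, ρ x = x ∧ σ x ≠ x ∧ x ≠ t := by
      by_contra hcon
      push Not at hcon
      have h1 : fx ρ ⊆ insert t (((fx σ).erase u).erase v) := by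
        intro x hx
        obtain ⟨hxI, hxf⟩ := Finset.mem_filter.mp hx
        by_cases e : x = t
        · rw [e]; exact Finset.mem_insert_self _ _
        · refine Finset.mem_insert_of_mem ?_
          have h2 : σ x = x := by
            by_contra h3
            exact e (hcon x hxI hxf h3)
          have h3 : x ≠ u := by rintro rfl; exact hρu hxf
          have h4 : x ≠ v := by rintro rfl; exact hρv hxf
          exact Finset.mem_erase.mpr ⟨h4, Finset.mem_erase.mpr ⟨h3,
            Finset.mem_filter.mpr ⟨hxI, h2⟩⟩⟩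
      have h2 := (Finset.card_le_card h1).trans (Finset.card_insert_le _ _)
      have hum : u ∈ fx σ := Finset.mem_filter.mpr ⟨hu, hfu⟩
      have hvm : v ∈ (fx σ).erase u :=
        Finset.mem_erase.mpr ⟨fun e => huv e.symm, Finset.mem_filter.mpr ⟨hv, hfv⟩⟩
      rw [Finset.card_erase_of_mem hvm, Finset.card_erase_of_mem hum] at h2
      have h4 := Finset.card_pos.mpr ⟨u, hum⟩
      have h5 := Finset.card_pos.mpr ⟨v, hvm⟩
      rw [Finset.card_erase_of_mem hum] at h5
      have h6 := hσ.2
      have h7 := pairing_bound G I ρ hρ.1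
      have h8 : (I.filter (fun v => ρ v = v)).card = (fx ρ).card := rfl
      omega
    obtain ⟨x, hx, hρx, hσx, hxt⟩ := hex
    obtain ⟨hyI, hσy, hcom⟩ := hσ.1 x hx
    obtain ⟨d, hd1, hd2⟩ := hcom hσx
    set y := σ x with hy
    have hρy : ρ y ≠ y := by
      intro e
      exact hone ρ hρ x hx y hyI hσx.symm hρx e ⟨d, hd1, hd2⟩
    have hyt : y ≠ t := by
      rintro e
      rw [e] at hρy
      exact hρy hρt
    obtain ⟨τ, hτ, t1, t2, t3, t4⟩ := repair G I ρ hρ.1 x y hx hyI hσx.symm hρx ⟨d, hd1, hd2⟩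
    rw [if_neg hρy] at t3
    have hzx : ρ y ≠ x := by
      intro e
      have := (hρ.1 y hyI).2.1
      rw [e, hρx] at this
      exact hσx this.symm
    have htτ : τ t = t := by
      by_cases e : t = ρ y
      · rw [e, t3]
      · rw [t4 t hxt.symm hyt.symm e, hρt]
    have hfix : (fx τ).card ≤ (fx ρ).card := by
      have h1 : fx τ ⊆ insert (ρ y) ((fx ρ).erase x) := by
        intro w hw
        obtain ⟨hwI, hwf⟩ := Finset.mem_filter.mp hw
        by_cases e : w = ρ y
        · rw [e]; exact Finset.mem_insert_self _ _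
        · have h3 : w ≠ x := by rintro rfl; exact hσx (by rw [← t1, hwf])
          have h4 : w ≠ y := by rintro rfl; exact hσx (hwf.symm.trans t2)
          refine Finset.mem_insert_of_mem (Finset.mem_erase.mpr ⟨h3,
            Finset.mem_filter.mpr ⟨hwI, ?_⟩⟩)
          rw [← t4 w h3 h4 e, hwf]
      have h2 := (Finset.card_le_card h1).trans (Finset.card_insert_le _ _)
      have hxm : x ∈ fx ρ := Finset.mem_filter.mpr ⟨hx, hρx⟩
      rw [Finset.card_erase_of_mem hxm] at h2
      have := Finset.card_pos.mpr ⟨x, hxm⟩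
      omega
    have hτopt : Opt τ := ⟨hτ, by have := hρ.2; omega⟩
    have hagr : (agr ρ).card < (agr τ).card := by
      refine Finset.card_lt_card ?_
      rw [Finset.ssubset_iff_of_subset]
      · refine ⟨x, Finset.mem_filter.mpr ⟨hx, by rw [t1], hσx⟩, ?_⟩
        intro h
        have := (Finset.mem_filter.mp h).2.1
        rw [hρx] at this
        exact hσx this
      · intro w hw
        obtain ⟨hwI, hw1, hw2⟩ := Finset.mem_filter.mp hw
        have h3 : w ≠ x := by
          rintro rfl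
          rw [hρx] at hw1
          exact hw2 hw1
        have h4 : w ≠ y := by
          intro e
          rw [e] at hw1
          rw [hσy] at hw1
          exact hzx hw1.symm
        have h5 : w ≠ ρ y := by
          intro e
          have h6 := (hρ.1 y hyI).2.1
          rw [e, h6] at hw1
          -- `σ (ρ y) = y` gives `ρ y = σ y = x`
          have h7 : σ (σ (ρ y)) = ρ y := (hσ.1 (ρ y) (hρ.1 y hyI).1).2.1
          rw [hw1, hσy] at h7
          exact hzx h7.symm
        refine Finset.mem_filter.mpr ⟨hwI, ?_, hw2⟩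
        rw [t4 w h3 h4 h5, hw1]
    have := hρmax τ (Finset.mem_filter.mpr ⟨Finset.mem_univ _, hτopt, htτ⟩)
    omega
  -- all elements of `I` are related to `u0`
  have hall : ∀ v ∈ I, R u0 v := by
    by_contra hcon
    push Not at hcon
    obtain ⟨v0, hv0, hnot⟩ := hcon
    have h1 : (I.filter (fun v => R u0 v)).Nonempty :=
      ⟨u0, Finset.mem_filter.mpr ⟨hu0, fun _ _ _ _ => rfl⟩⟩
    have h2 : (I.filter (fun v => ¬ R u0 v)).Nonempty :=
      ⟨v0, Finset.mem_filter.mpr ⟨hv0, hnot⟩⟩
    obtain ⟨d, ⟨a, ha, hda⟩, b, hb, hdb⟩ := hconn _ _ h1 h2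
      (Finset.filter_union_filter_not_eq _ _) (Finset.disjoint_filter_filter_not _ _ _)
    obtain ⟨haI, ha'⟩ := Finset.mem_filter.mp ha
    obtain ⟨hbI, hb'⟩ := Finset.mem_filter.mp hb
    refine hb' (hRtrans u0 hu0 a haI b hbI ha' ?_)
    intro σ hσ h3 h4
    by_contra hab
    exact hone σ hσ a haI b hbI hab h3 h4 ⟨d, hda, hdb⟩
  obtain ⟨σ, hσ, hσu, hσc⟩ := exists_pairing G I hind hdeg u0 hu0 (hcrit u0 hu0)
  have hfx : I.filter (fun v => σ v = v) ⊆ {u0} := by
    intro v hv
    obtain ⟨hvI, hvf⟩ := Finset.mem_filter.mp hv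
    rw [Finset.mem_singleton]
    exact (hall v hvI σ ⟨hσ, hσc⟩ hσu hvf).symm
  have h1 := Finset.card_le_card hfx
  have h2 := pairing_bound G I σ hσ
  rw [Finset.card_singleton] at h1
  omega

end Gallai

section Product
variable {α β : Type*}

/-- Isolating a vertex subset `S`. -/
def IsolatesOn (H : SimpleGraph β) (S A : Finset β) : Prop :=
  ∀ h ∈ S, ∀ h' ∈ S, H.Adj h h' → InNbhd H A h ∨ InNbhd H A h'

open Classical in
lemma block [Fintype β] (G : SimpleGraph α) (H : SimpleGraph β) (J : Finset α) (k : ℕ)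
    (hk : 1 ≤ k) (W : α → Finset β) (E : β → Finset α)
    (hE : ∀ h, ∀ d ∈ E h, (J.filter (fun g => G.Adj d g)).card ≤ k) :
    ∀ S : Finset β,
      (∀ h ∈ S, ∀ h' ∈ S, H.Adj h h' → ∀ g ∈ J,
        InNbhd H (W g) h ∨ InNbhd H (W g) h' ∨ (∃ d ∈ E h, G.Adj d g) ∨ (∃ d ∈ E h', G.Adj d g)) →
      ∃ A : Finset β, IsolatesOn H S A ∧
        ((J.card + k - 1) / k) * A.card ≤ ∑ g ∈ J, (W g).card + ∑ h ∈ S, (E h).card := by
  set m := (J.card + k - 1) / k with hm
  intro S
  induction S using Finset.strongInduction with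
  | _ S ih =>
  intro hS
  rcases Nat.eq_zero_or_pos m with hm0 | hm0
  · refine ⟨S, fun h hh h' _ _ => Or.inl (Or.inl hh), ?_⟩
    rw [hm0]; simp
  by_cases hx : ∃ x : β, m ≤ ∑ t ∈ S.filter (fun t => t = x ∨ H.Adj x t), (E t).card
  · obtain ⟨x, hx⟩ := hx
    set T := S.filter (fun t => t = x ∨ H.Adj x t) with hT
    have hTne : T.Nonempty := by
      rw [Finset.nonempty_iff_ne_empty]
      intro h
      rw [h] at hx
      simp at hx
      omega
    have hss : S \ T ⊂ S := Finset.sdiff_ssubset (Finset.filter_subset _ _) hTne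
    obtain ⟨A, hA, hc⟩ := ih (S \ T) hss (fun h hh h' hh' =>
      hS h (Finset.sdiff_subset hh) h' (Finset.sdiff_subset hh'))
    refine ⟨insert x A, ?_, ?_⟩
    · intro h hh h' hh' hadj
      by_cases h1 : h ∈ T
      · left
        rcases (Finset.mem_filter.mp h1).2 with e | e
        · exact Or.inl (by rw [e]; exact Finset.mem_insert_self _ _)
        · exact Or.inr ⟨x, Finset.mem_insert_self _ _, e⟩
      · by_cases h2 : h' ∈ T
        · right
          rcases (Finset.mem_filter.mp h2).2 with e | e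
          · exact Or.inl (by rw [e]; exact Finset.mem_insert_self _ _)
          · exact Or.inr ⟨x, Finset.mem_insert_self _ _, e⟩
        · rcases hA h (Finset.mem_sdiff.mpr ⟨hh, h1⟩) h' (Finset.mem_sdiff.mpr ⟨hh', h2⟩) hadj with
            h | h
          · exact Or.inl (h.mono (Finset.subset_insert _ _))
          · exact Or.inr (h.mono (Finset.subset_insert _ _))
    · have h1 : (insert x A).card ≤ A.card + 1 := Finset.card_insert_le _ _
      have h2 : ∑ t ∈ S \ T, (E t).card + ∑ t ∈ T, (E t).card = ∑ t ∈ S, (E t).card :=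
        Finset.sum_sdiff (Finset.filter_subset _ _)
      calc m * (insert x A).card ≤ m * (A.card + 1) := Nat.mul_le_mul_left _ h1
        _ = m * A.card + m := by ring
        _ ≤ _ := by omega
  · push Not at hx
    -- a smallest isolating set of `S`
    obtain ⟨A0, hA0, hmin⟩ := Finset.exists_min_image
      (univ.filter (fun A : Finset β => IsolatesOn H S A)) (fun A => A.card)
      ⟨S, Finset.mem_filter.mpr ⟨Finset.mem_univ _, fun h hh h' _ _ => Or.inl (Or.inl hh)⟩⟩
    have hA0' : IsolatesOn H S A0 := (Finset.mem_filter.mp hA0).2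
    have hmin' : ∀ A, IsolatesOn H S A → A0.card ≤ A.card := fun A hA =>
      hmin A (Finset.mem_filter.mpr ⟨Finset.mem_univ _, hA⟩)
    let C : β → Finset α := fun h => J.filter (fun g => ∃ d ∈ E h, G.Adj d g)
    have hC : ∀ h, (C h).card ≤ k * (E h).card := by
      intro h
      have hsub : C h ⊆ (E h).biUnion (fun d => J.filter (fun g => G.Adj d g)) := by
        intro g hg
        obtain ⟨hgJ, d, hd, hadj⟩ := Finset.mem_filter.mp hg
        exact Finset.mem_biUnion.mpr ⟨d, hd, Finset.mem_filter.mpr ⟨hgJ, hadj⟩⟩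
      calc (C h).card ≤ _ := Finset.card_le_card hsub
        _ ≤ ∑ d ∈ E h, (J.filter (fun g => G.Adj d g)).card := Finset.card_biUnion_le
        _ ≤ ∑ _d ∈ E h, k := Finset.sum_le_sum (fun d hd => hE h d hd)
        _ = k * (E h).card := by rw [Finset.sum_const, smul_eq_mul, mul_comm]
    -- the set of all `W`-vertices isolates `S`
    have hWiso : IsolatesOn H S (J.biUnion W) := by
      intro h hh h' hh' hadj
      by_contra hcon
      push Not at hcon
      have hcov : J ⊆ C h ∪ C h' := by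
        intro g hg
        have hsub : W g ⊆ J.biUnion W := Finset.subset_biUnion_of_mem W hg
        rcases hS h hh h' hh' hadj g hg with h1 | h1 | h1 | h1
        · exact absurd (h1.mono hsub) hcon.1
        · exact absurd (h1.mono hsub) hcon.2
        · exact Finset.mem_union_left _ (Finset.mem_filter.mpr ⟨hg, h1⟩)
        · exact Finset.mem_union_right _ (Finset.mem_filter.mpr ⟨hg, h1⟩)
      have h1 : J.card ≤ k * ((E h).card + (E h').card) := by
        calc J.card ≤ (C h ∪ C h').card := Finset.card_le_card hcov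
          _ ≤ (C h).card + (C h').card := Finset.card_union_le _ _
          _ ≤ k * (E h).card + k * (E h').card := Nat.add_le_add (hC h) (hC h')
          _ = _ := by ring
      have h2 : (E h).card + (E h').card < m := by
        refine lt_of_le_of_lt ?_ (hx h)
        have hsub : ({h, h'} : Finset β) ⊆ S.filter (fun s => s = h ∨ H.Adj h s) := by
          intro s hs
          simp only [Finset.mem_insert, Finset.mem_singleton] at hs
          rcases hs with e | e
          · subst e; exact Finset.mem_filter.mpr ⟨hh, Or.inl rfl⟩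
          · subst e; exact Finset.mem_filter.mpr ⟨hh', Or.inr hadj⟩
        have := Finset.sum_le_sum_of_subset (f := fun s => (E s).card) hsub
        rwa [Finset.sum_pair hadj.ne] at this
      have h3 : k * m ≤ J.card + k - 1 := Nat.mul_div_le _ _
      have h4 : k * ((E h).card + (E h').card + 1) ≤ k * m := Nat.mul_le_mul_left _ h2
      have h5 : k * ((E h).card + (E h').card + 1) = k * ((E h).card + (E h').card) + k := by ring
      omega
    have hXiso : ∀ g ∈ J, IsolatesOn H S (W g ∪ S.filter (fun h => g ∈ C h)) := by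
      intro g hg h hh h' hh' hadj
      rcases hS h hh h' hh' hadj g hg with h1 | h1 | h1 | h1
      · exact Or.inl (h1.mono Finset.subset_union_left)
      · exact Or.inr (h1.mono Finset.subset_union_left)
      · exact Or.inl (Or.inl (Finset.mem_union_right _
          (Finset.mem_filter.mpr ⟨hh, Finset.mem_filter.mpr ⟨hg, h1⟩⟩)))
      · exact Or.inr (Or.inl (Finset.mem_union_right _
          (Finset.mem_filter.mpr ⟨hh', Finset.mem_filter.mpr ⟨hg, h1⟩⟩)))
    refine ⟨A0, hA0', ?_⟩
    have hw : A0.card ≤ ∑ g ∈ J, (W g).card :=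
      (hmin' _ hWiso).trans Finset.card_biUnion_le
    have hs : J.card * A0.card ≤ ∑ g ∈ J, (W g).card + k * ∑ h ∈ S, (E h).card := by
      calc J.card * A0.card = ∑ _g ∈ J, A0.card := by simp
        _ ≤ ∑ g ∈ J, (W g ∪ S.filter (fun h => g ∈ C h)).card :=
            Finset.sum_le_sum (fun g hg => hmin' _ (hXiso g hg))
        _ ≤ ∑ g ∈ J, ((W g).card + (S.filter (fun h => g ∈ C h)).card) :=
            Finset.sum_le_sum (fun g _ => Finset.card_union_le _ _)
        _ = ∑ g ∈ J, (W g).card + ∑ g ∈ J, (S.filter (fun h => g ∈ C h)).card :=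
            Finset.sum_add_distrib
        _ = ∑ g ∈ J, (W g).card + ∑ h ∈ S, (J.filter (fun g => g ∈ C h)).card := by
            congr 1
            simp only [Finset.card_filter]
            exact Finset.sum_comm
        _ ≤ ∑ g ∈ J, (W g).card + ∑ h ∈ S, (C h).card := by
            refine Nat.add_le_add_left (Finset.sum_le_sum (fun h _ => ?_)) _
            exact Finset.card_le_card (fun g hg => (Finset.mem_filter.mp hg).2)
        _ ≤ ∑ g ∈ J, (W g).card + ∑ h ∈ S, k * (E h).card :=
            Nat.add_le_add_left (Finset.sum_le_sum (fun h _ => hC h)) _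
        _ = _ := by rw [Finset.mul_sum]
    have h3 : k * m ≤ J.card + k - 1 := Nat.mul_div_le _ _
    obtain ⟨k', rfl⟩ : ∃ k', k = k' + 1 := ⟨k - 1, by omega⟩
    have h4 : (k' + 1) * m ≤ J.card + k' := by simpa using h3
    have h5 : (k' + 1) * (m * A0.card) ≤
        (k' + 1) * (∑ g ∈ J, (W g).card + ∑ h ∈ S, (E h).card) := by
      calc (k' + 1) * (m * A0.card) = ((k' + 1) * m) * A0.card := by ring
        _ ≤ (J.card + k') * A0.card := Nat.mul_le_mul_right _ h4
        _ = J.card * A0.card + k' * A0.card := by ring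
        _ ≤ (∑ g ∈ J, (W g).card + (k' + 1) * ∑ h ∈ S, (E h).card) +
              k' * ∑ g ∈ J, (W g).card := Nat.add_le_add hs (Nat.mul_le_mul_left _ hw)
        _ = _ := by ring
    exact Nat.le_of_mul_le_mul_left h5 (Nat.succ_pos k')


/-- No two vertices of `I` are adjacent. -/
def Indep (G : SimpleGraph α) (I : Finset α) : Prop := ∀ u ∈ I, ∀ v ∈ I, ¬ G.Adj u v

open Classical in
lemma rel [Fintype α] [Fintype β] (G : SimpleGraph α) (H : SimpleGraph β) :
    ∀ I : Finset α, Indep G I → (∀ d, (I.filter (fun g => G.Adj d g)).card ≤ 2) →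
      ∀ (W : α → Finset β) (E : β → Finset α),
      (∀ h h', H.Adj h h' → ∀ g ∈ I,
        InNbhd H (W g) h ∨ InNbhd H (W g) h' ∨ (∃ d ∈ E h, G.Adj d g) ∨ (∃ d ∈ E h', G.Adj d g)) →
      ∃ A : Finset β, IsIsolating H A ∧
        domNumberOf G I * A.card ≤ ∑ g ∈ I, (W g).card + ∑ h : β, (E h).card := by
  intro I
  induction I using Finset.strongInduction with
  | _ I ih =>
  intro hind hdeg W E hS
  have hsubdeg : ∀ J : Finset α, J ⊆ I → ∀ d, (J.filter (fun g => G.Adj d g)).card ≤ 2 :=
    fun J hJ d => (Finset.card_le_card (Finset.filter_subset_filter _ hJ)).trans (hdeg d)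
  have hsubind : ∀ J : Finset α, J ⊆ I → Indep G J :=
    fun J hJ u hu v hv => hind u (hJ hu) v (hJ hv)
  by_cases hcrit : ∀ t ∈ I, domNumberOf G (I.erase t) < domNumberOf G I
  · by_cases hconn : ∀ I1 I2 : Finset α, I1.Nonempty → I2.Nonempty → I1 ∪ I2 = I →
        Disjoint I1 I2 → ∃ d, (∃ u ∈ I1, G.Adj d u) ∧ ∃ v ∈ I2, G.Adj d v
    · have hg := gallai G I hind hdeg hcrit hconn
      obtain ⟨A, hA, hc⟩ := block G H I 2 (by norm_num) W E (fun h d _ => hdeg d) univ
        (fun h _ h' _ hadj g hg => hS h h' hadj g hg)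
      refine ⟨A, fun u v huv => hA u (Finset.mem_univ _) v (Finset.mem_univ _) huv,
        le_trans (Nat.mul_le_mul_right _ ?_) hc⟩
      omega
    · push Not at hconn
      obtain ⟨I1, I2, hn1, hn2, hun, hdis, hsep⟩ := hconn
      have h1I : I1 ⊆ I := by rw [← hun]; exact Finset.subset_union_left
      have h2I : I2 ⊆ I := by rw [← hun]; exact Finset.subset_union_right
      have hs1 : I1 ⊂ I := by
        refine (Finset.ssubset_iff_of_subset h1I).mpr ?_
        obtain ⟨x, hx⟩ := hn2
        exact ⟨x, h2I hx, fun h => Finset.disjoint_left.mp hdis h hx⟩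
      have hs2 : I2 ⊂ I := by
        refine (Finset.ssubset_iff_of_subset h2I).mpr ?_
        obtain ⟨x, hx⟩ := hn1
        exact ⟨x, h1I hx, fun h => Finset.disjoint_left.mp hdis hx h⟩
      let E1 : β → Finset α := fun h => (E h).filter (fun d => ∃ u ∈ I1, G.Adj d u)
      let E2 : β → Finset α := fun h => (E h).filter (fun d => ∃ u ∈ I2, G.Adj d u)
      have hE : ∀ h, (E1 h).card + (E2 h).card ≤ (E h).card := by
        intro h
        rw [← Finset.card_union_of_disjoint]
        · refine Finset.card_le_card ?_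
          exact Finset.union_subset (Finset.filter_subset _ _) (Finset.filter_subset _ _)
        · rw [Finset.disjoint_left]
          intro d hd hd'
          obtain ⟨v, hv, hdv⟩ := (Finset.mem_filter.mp hd').2
          exact hsep d (Finset.mem_filter.mp hd).2 v hv hdv
      obtain ⟨A1, hA1, hc1⟩ := ih I1 hs1 (hsubind I1 h1I) (hsubdeg I1 h1I) W E1 (by
        intro h h' hadj g hg
        rcases hS h h' hadj g (h1I hg) with h1 | h1 | ⟨d, hd, h1⟩ | ⟨d, hd, h1⟩
        · exact Or.inl h1
        · exact Or.inr (Or.inl h1)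
        · exact Or.inr (Or.inr (Or.inl ⟨d, Finset.mem_filter.mpr ⟨hd, g, hg, h1⟩, h1⟩))
        · exact Or.inr (Or.inr (Or.inr ⟨d, Finset.mem_filter.mpr ⟨hd, g, hg, h1⟩, h1⟩)))
      obtain ⟨A2, hA2, hc2⟩ := ih I2 hs2 (hsubind I2 h2I) (hsubdeg I2 h2I) W E2 (by
        intro h h' hadj g hg
        rcases hS h h' hadj g (h2I hg) with h1 | h1 | ⟨d, hd, h1⟩ | ⟨d, hd, h1⟩
        · exact Or.inl h1
        · exact Or.inr (Or.inl h1)
        · exact Or.inr (Or.inr (Or.inl ⟨d, Finset.mem_filter.mpr ⟨hd, g, hg, h1⟩, h1⟩))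
        · exact Or.inr (Or.inr (Or.inr ⟨d, Finset.mem_filter.mpr ⟨hd, g, hg, h1⟩, h1⟩)))
      have hdn : domNumberOf G I ≤ domNumberOf G I1 + domNumberOf G I2 := by
        rw [← hun]; exact dn_union_le G I1 I2
      have hWs : ∑ g ∈ I1, (W g).card + ∑ g ∈ I2, (W g).card = ∑ g ∈ I, (W g).card := by
        rw [← Finset.sum_union hdis, hun]
      have hEs : ∑ h : β, (E1 h).card + ∑ h : β, (E2 h).card ≤ ∑ h : β, (E h).card := by
        rw [← Finset.sum_add_distrib]
        exact Finset.sum_le_sum (fun h _ => hE h)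
      rcases le_total A1.card A2.card with hle | hle
      · refine ⟨A1, hA1, ?_⟩
        calc domNumberOf G I * A1.card
            ≤ (domNumberOf G I1 + domNumberOf G I2) * A1.card := Nat.mul_le_mul_right _ hdn
          _ = domNumberOf G I1 * A1.card + domNumberOf G I2 * A1.card := by ring
          _ ≤ domNumberOf G I1 * A1.card + domNumberOf G I2 * A2.card :=
              Nat.add_le_add_left (Nat.mul_le_mul_left _ hle) _
          _ ≤ _ := by omega
      · refine ⟨A2, hA2, ?_⟩
        calc domNumberOf G I * A2.card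
            ≤ (domNumberOf G I1 + domNumberOf G I2) * A2.card := Nat.mul_le_mul_right _ hdn
          _ = domNumberOf G I1 * A2.card + domNumberOf G I2 * A2.card := by ring
          _ ≤ domNumberOf G I1 * A1.card + domNumberOf G I2 * A2.card :=
              Nat.add_le_add_right (Nat.mul_le_mul_left _ hle) _
          _ ≤ _ := by omega
  · push Not at hcrit
    obtain ⟨t, ht, hle⟩ := hcrit
    obtain ⟨A, hA, hc⟩ := ih (I.erase t) (Finset.erase_ssubset ht)
      (hsubind _ (Finset.erase_subset _ _)) (hsubdeg _ (Finset.erase_subset _ _)) W E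
      (fun h h' hadj g hg => hS h h' hadj g (Finset.mem_of_mem_erase hg))
    refine ⟨A, hA, (Nat.mul_le_mul_right _ hle).trans (hc.trans ?_)⟩
    exact Nat.add_le_add_right (Finset.sum_le_sum_of_subset (Finset.erase_subset _ _)) _

open Classical in
lemma product_bound [Fintype α] [Fintype β] (G : SimpleGraph α) (H : SimpleGraph β)
    (I : Finset α) (hind : Indep G I)
    (hdeg : ∀ d, (I.filter (fun g => G.Adj d g)).card ≤ 2)
    (D : Finset (α × β)) (hD : IsIsolating (G.boxProd H) D) :
    ∃ A : Finset β, IsIsolating H A ∧ domNumberOf G I * A.card ≤ D.card := by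
  let W : α → Finset β := fun g => univ.filter (fun h => (g, h) ∈ D)
  let E : β → Finset α := fun h => univ.filter (fun d => (d, h) ∈ D ∧ d ∉ I)
  have hloc : ∀ g ∈ I, ∀ h : β, InNbhd (G.boxProd H) D (g, h) →
      InNbhd H (W g) h ∨ ∃ d ∈ E h, G.Adj d g := by
    intro g hg h hin
    rcases hin with h1 | ⟨⟨a, b⟩, hab, hadj⟩
    · exact Or.inl (Or.inl (Finset.mem_filter.mpr ⟨Finset.mem_univ _, h1⟩))
    · rw [SimpleGraph.boxProd_adj] at hadj
      rcases hadj with ⟨h1, h2⟩ | ⟨h1, h2⟩
      · simp only at h1 h2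
        subst h2
        refine Or.inr ⟨a, Finset.mem_filter.mpr ⟨Finset.mem_univ _, hab, ?_⟩, h1⟩
        intro ha
        exact hind a ha g hg h1
      · simp only at h1 h2
        subst h2
        exact Or.inl (Or.inr ⟨b, Finset.mem_filter.mpr ⟨Finset.mem_univ _, hab⟩, h1⟩)
  obtain ⟨A, hA, hc⟩ := rel G H I hind hdeg W E (by
    intro h h' hadj g hg
    have hadj' : (G.boxProd H).Adj (g, h) (g, h') := by
      rw [SimpleGraph.boxProd_adj]
      exact Or.inr ⟨hadj, rfl⟩
    rcases hD _ _ hadj' with h1 | h1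
    · rcases hloc g hg h h1 with h2 | h2
      · exact Or.inl h2
      · exact Or.inr (Or.inr (Or.inl h2))
    · rcases hloc g hg h' h1 with h2 | h2
      · exact Or.inr (Or.inl h2)
      · exact Or.inr (Or.inr (Or.inr h2)))
  refine ⟨A, hA, hc.trans ?_⟩
  have e1 : ∑ g ∈ I, (W g).card = (D.filter (fun x => x.1 ∈ I)).card := by
    have hmaps : Set.MapsTo Prod.fst (↑(D.filter (fun x : α × β => x.1 ∈ I)) : Set (α × β))
        (↑I : Set α) := fun x hx => (Finset.mem_filter.mp (Finset.mem_coe.mp hx)).2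
    rw [Finset.card_eq_sum_card_fiberwise hmaps]
    refine Finset.sum_congr rfl (fun g hg => ?_)
    refine Finset.card_bij (fun h _ => (g, h)) ?_ ?_ ?_
    · intro h hh
      exact Finset.mem_filter.mpr ⟨Finset.mem_filter.mpr ⟨(Finset.mem_filter.mp hh).2, hg⟩, rfl⟩
    · intro a _ b _ e
      exact (Prod.mk.inj e).2
    · rintro ⟨a, b⟩ hb
      obtain ⟨h1, h2⟩ := Finset.mem_filter.mp hb
      simp only at h2
      subst h2
      exact ⟨b, Finset.mem_filter.mpr ⟨Finset.mem_univ _, (Finset.mem_filter.mp h1).1⟩, rfl⟩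
  have e2 : ∑ h : β, (E h).card = (D.filter (fun x => x.1 ∉ I)).card := by
    have hmaps : Set.MapsTo Prod.snd (↑(D.filter (fun x : α × β => x.1 ∉ I)) : Set (α × β))
        (↑(univ : Finset β) : Set β) := fun x _ => Finset.mem_coe.mpr (Finset.mem_univ _)
    rw [Finset.card_eq_sum_card_fiberwise hmaps]
    refine Finset.sum_congr rfl (fun h _ => ?_)
    refine Finset.card_bij (fun d _ => (d, h)) ?_ ?_ ?_
    · intro d hd
      obtain ⟨-, h1, h2⟩ := Finset.mem_filter.mp hd
      exact Finset.mem_filter.mpr ⟨Finset.mem_filter.mpr ⟨h1, h2⟩, rfl⟩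
    · intro a _ b _ e
      exact (Prod.mk.inj e).1
    · rintro ⟨a, b⟩ hb
      obtain ⟨h1, h2⟩ := Finset.mem_filter.mp hb
      simp only at h2
      subst h2
      exact ⟨a, Finset.mem_filter.mpr ⟨Finset.mem_univ _, (Finset.mem_filter.mp h1).1,
        (Finset.mem_filter.mp h1).2⟩, rfl⟩
  rw [e1, e2]
  exact (Finset.card_filter_add_card_filter_not (fun x : α × β => x.1 ∈ I)).le

end Product

open Classical in
/-- An independent set attaining `γ^i`. -/
lemma exists_indep {α : Type*} [Fintype α] (G : SimpleGraph α) :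
    ∃ I : Finset α, (∀ u ∈ I, ∀ v ∈ I, ¬ G.Adj u v) ∧ domNumberOf G I = indepDomNumber G := by
  have hne : {k | ∃ I : Finset α, (∀ u ∈ I, ∀ v ∈ I, ¬ G.Adj u v) ∧ domNumberOf G I = k}.Nonempty :=
    ⟨_, ∅, by simp, rfl⟩
  have hb : BddAbove {k | ∃ I : Finset α, (∀ u ∈ I, ∀ v ∈ I, ¬ G.Adj u v) ∧
      domNumberOf G I = k} := by
    refine ⟨Fintype.card α, ?_⟩
    rintro k ⟨I, -, rfl⟩
    exact (dn_le_card G I).trans (Finset.card_le_univ I)
  exact Nat.sSup_mem hne hb

/-- **Partial answer.**  For every finite claw-free graph `G` and every finite graph `H`: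
`ι(G □ H) ≥ γ^i(G) * ι(H)`. -/
theorem result {α β : Type*} [Finite α] [Finite β] (G : SimpleGraph α) (H : SimpleGraph β)
    (hG : IsClawFree G) :
    indepDomNumber G * isolationNumber H ≤ isolationNumber (G.boxProd H) := by
  classical
  have := Fintype.ofFinite α
  have := Fintype.ofFinite β
  obtain ⟨I, hind, hI⟩ := exists_indep G
  have hdeg : ∀ d, (I.filter (fun g => G.Adj d g)).card ≤ 2 := by
    intro d
    by_contra h4
    push Not at h4
    obtain ⟨a, ha, b, hb, c, hc, hab, hac, hbc⟩ := Finset.two_lt_card.mp h4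
    obtain ⟨ha1, ha2⟩ := Finset.mem_filter.mp ha
    obtain ⟨hb1, hb2⟩ := Finset.mem_filter.mp hb
    obtain ⟨hc1, hc2⟩ := Finset.mem_filter.mp hc
    rcases hG d a b c ha2 hb2 hc2 hab hac hbc with h | h | h
    · exact hind a ha1 b hb1 h
    · exact hind a ha1 c hc1 h
    · exact hind b hb1 c hc1 h
  have hmem : isolationNumber (G.boxProd H) ∈
      {k | ∃ A : Finset (α × β), IsIsolating (G.boxProd H) A ∧ A.card = k} :=
    Nat.sInf_mem ⟨_, univ, fun u _ _ => Or.inl (Or.inl (Finset.mem_univ u)), rfl⟩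
  obtain ⟨D, hD, hDc⟩ := hmem
  obtain ⟨A, hA, hAc⟩ := product_bound G H I hind hdeg D hD
  rw [← hDc, ← hI]
  refine le_trans (Nat.mul_le_mul_left _ ?_) hAc
  exact Nat.sInf_le ⟨A, hA, rfl⟩

end Pool.Agent.Results.MP_33f02b_co.ClawFree
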