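import Mathlib

/-!
# Isolation number of Cartesian products: the inequality up to an absolute constant

For all finite graphs `G`, `H`: `γ^i(G) * ι(H) ≤ γ(G) * ι(H) ≤ 59 * ι(G □ H)`.
-/

set_option autoImplicit false

namespace Pool.Agent.Results.MP_33f02b_co.ConstantFactor

open Finset

/-- `v` lies in the closed neighbourhood `N[A]`: it is in `A` or has a neighbour in `A`. -/
def InNbhd {V : Type*} (G : SimpleGraph V) (A : Finset V) (v : V) : Prop :=
  v ∈ A ∨ ∃ a ∈ A, G.Adj a v

/-- `A` is isolating: no edge of `G` has both ends outside `N[A]`. -/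
def IsIsolating {V : Type*} (G : SimpleGraph V) (A : Finset V) : Prop :=
  ∀ u v, G.Adj u v → InNbhd G A u ∨ InNbhd G A v

/-- The isolation number `ι(G)`: the least cardinality of an isolating set. -/
noncomputable def isolationNumber {V : Type*} (G : SimpleGraph V) : ℕ :=
  sInf {k | ∃ A : Finset V, IsIsolating G A ∧ A.card = k}

/-- The least number of vertices of `G` dominating all of `I`. -/
noncomputable def domNumberOf {V : Type*} (G : SimpleGraph V) (I : Finset V) : ℕ :=
  sInf {k | ∃ D : Finset V, (∀ v ∈ I, InNbhd G D v) ∧ D.card = k}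

/-- The independence-domination number `γ^i(G)`: the largest value of `domNumberOf G I` over the
independent sets `I` of `G`. -/
noncomputable def indepDomNumber {V : Type*} (G : SimpleGraph V) : ℕ :=
  sSup {k | ∃ I : Finset V, (∀ u ∈ I, ∀ v ∈ I, ¬ G.Adj u v) ∧ domNumberOf G I = k}

/-- The domination number `γ(G)`: the least size of a set `D` with `N[D] = V(G)`. -/
noncomputable def dominationNumber {V : Type*} (G : SimpleGraph V) : ℕ :=
  sInf {k | ∃ D : Finset V, (∀ v, InNbhd G D v) ∧ D.card = k}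

lemma InNbhd.mono {V : Type*} {G : SimpleGraph V} {A B : Finset V} (h : A ⊆ B) {v : V}
    (hv : InNbhd G A v) : InNbhd G B v := by
  rcases hv with hv | ⟨a, ha, hav⟩
  · exact Or.inl (h hv)
  · exact Or.inr ⟨a, h ha, hav⟩

section Rounding
variable {β : Type*} [DecidableEq β]

/-- Method of conditional expectations. -/
lemma random_set (p : β → ℝ) (hp0 : ∀ v, 0 ≤ p v) (hp1 : ∀ v, p v ≤ 1) (B : Finset β)
    (Nb : β → Finset β) : ∀ U : Finset β, ∃ R : Finset β,
      (R.card : ℝ) + ∑ h ∈ B.filter (fun h => Disjoint (Nb h) R), ∏ v ∈ Nb h \ U, (1 - p v) ≤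
        ∑ v ∈ U, p v + ∑ h ∈ B, ∏ v ∈ Nb h, (1 - p v) := by
  intro U
  induction U using Finset.induction_on with
  | empty =>
    refine ⟨∅, ?_⟩
    simp
  | insert v U hv ih =>
    obtain ⟨R, hR⟩ := ih
    set F := B.filter (fun h => Disjoint (Nb h) R) with hF
    set a : ℝ := ∑ h ∈ F.filter (fun h => v ∉ Nb h), ∏ u ∈ Nb h \ insert v U, (1 - p u) with ha
    set b : ℝ := ∑ h ∈ F.filter (fun h => ¬ v ∉ Nb h), ∏ u ∈ Nb h \ insert v U, (1 - p u) with hb
    have e1 : ∑ h ∈ F, ∏ u ∈ Nb h \ insert v U, (1 - p u) = a + b :=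
      (Finset.sum_filter_add_sum_filter_not F (fun h => v ∉ Nb h) _).symm
    have e2 : ∑ h ∈ F, ∏ u ∈ Nb h \ U, (1 - p u) = a + (1 - p v) * b := by
      rw [← Finset.sum_filter_add_sum_filter_not F (fun h => v ∉ Nb h), ha, hb, Finset.mul_sum]
      congr 1
      · refine Finset.sum_congr rfl (fun h hh => ?_)
        have hvn := (Finset.mem_filter.mp hh).2
        have : Nb h \ insert v U = Nb h \ U := by
          ext u
          simp only [Finset.mem_sdiff, Finset.mem_insert, not_or]
          constructor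
          · rintro ⟨h1, -, h3⟩; exact ⟨h1, h3⟩
          · rintro ⟨h1, h3⟩; exact ⟨h1, fun e => hvn (e ▸ h1), h3⟩
        rw [this]
      · refine Finset.sum_congr rfl (fun h hh => ?_)
        have hvn : v ∈ Nb h := not_not.mp (Finset.mem_filter.mp hh).2
        have h1 : Nb h \ U = insert v (Nb h \ insert v U) := by
          ext u
          simp only [Finset.mem_sdiff, Finset.mem_insert, not_or]
          constructor
          · rintro ⟨h1, h3⟩
            by_cases e : u = v
            · exact Or.inl e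
            · exact Or.inr ⟨h1, e, h3⟩
          · rintro (e | ⟨h1, -, h3⟩)
            · rw [e]; exact ⟨hvn, hv⟩
            · exact ⟨h1, h3⟩
        rw [h1, Finset.prod_insert (by simp)]
    rw [e2] at hR
    rw [Finset.sum_insert hv]
    have hpv0 := hp0 v
    have hpv1 := hp1 v
    by_cases hb1 : b ≤ 1
    · refine ⟨R, ?_⟩
      rw [← hF, e1]
      nlinarith
    · rw [not_le] at hb1
      refine ⟨insert v R, ?_⟩
      have hsub : B.filter (fun h => Disjoint (Nb h) (insert v R)) ⊆
          F.filter (fun h => v ∉ Nb h) := by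
        intro h hh
        obtain ⟨h1, h2⟩ := Finset.mem_filter.mp hh
        rw [Finset.disjoint_insert_right] at h2
        exact Finset.mem_filter.mpr ⟨Finset.mem_filter.mpr ⟨h1, h2.2⟩, h2.1⟩
      have h3 : ∑ h ∈ B.filter (fun h => Disjoint (Nb h) (insert v R)),
          ∏ u ∈ Nb h \ insert v U, (1 - p u) ≤ a :=
        Finset.sum_le_sum_of_subset_of_nonneg hsub
          (fun h _ _ => Finset.prod_nonneg (fun u _ => by linarith [hp1 u]))
      have h4 : ((insert v R).card : ℝ) ≤ R.card + 1 := by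
        exact_mod_cast Finset.card_insert_le v R
      nlinarith

/-- A chunk of intermediate weight. -/
lemma chunk (x : β → ℕ) (w : ℕ) : ∀ A : Finset β, (∀ v ∈ A, x v ≤ w) → 2 * w < ∑ v ∈ A, x v →
    ∃ A' ⊆ A, w ≤ ∑ v ∈ A', x v ∧ ∑ v ∈ A', x v ≤ 2 * w := by
  intro A
  induction A using Finset.induction_on with
  | empty => intro _ h; simp at h
  | insert a A ha ih =>
    intro h1 h2
    rw [Finset.sum_insert ha] at h2
    have h3 := h1 a (Finset.mem_insert_self _ _)
    by_cases h4 : 2 * w < ∑ v ∈ A, x v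
    · obtain ⟨A', hA', h5⟩ := ih (fun v hv => h1 v (Finset.mem_insert_of_mem hv)) h4
      exact ⟨A', hA'.trans (Finset.subset_insert _ _), h5⟩
    · exact ⟨A, Finset.subset_insert _ _, by omega, by omega⟩

/-- Counting triples. -/
lemma triples {γ : Type*} [DecidableEq γ] (x : β → ℕ) (w : ℕ) (hw : 0 < w) (Jc : β → Finset γ) :
    ∀ A : Finset β, (∀ v ∈ A, x v ≤ w) → (∀ A' ⊆ A, (A'.biUnion Jc).card ≤ w + ∑ v ∈ A', x v) →
    (A.biUnion (fun v => Jc v ×ˢ Jc v ×ˢ Jc v)).card ≤ 27 * w ^ 2 * (w + ∑ v ∈ A, x v) := by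
  have base : ∀ A : Finset β, (A.biUnion Jc).card ≤ w + ∑ v ∈ A, x v → ∑ v ∈ A, x v ≤ 2 * w →
      (A.biUnion (fun v => Jc v ×ˢ Jc v ×ˢ Jc v)).card ≤ 27 * w ^ 3 := by
    intro A h1 h2
    have hsub : A.biUnion (fun v => Jc v ×ˢ Jc v ×ˢ Jc v) ⊆
        (A.biUnion Jc) ×ˢ (A.biUnion Jc) ×ˢ (A.biUnion Jc) := by
      intro t ht
      obtain ⟨v, hv, ht'⟩ := Finset.mem_biUnion.mp ht
      simp only [Finset.mem_product] at ht' ⊢
      exact ⟨Finset.mem_biUnion.mpr ⟨v, hv, ht'.1⟩, Finset.mem_biUnion.mpr ⟨v, hv, ht'.2.1⟩,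
        Finset.mem_biUnion.mpr ⟨v, hv, ht'.2.2⟩⟩
    refine (Finset.card_le_card hsub).trans ?_
    rw [Finset.card_product, Finset.card_product]
    have h3 : (A.biUnion Jc).card ≤ 3 * w := by omega
    calc _ ≤ (3 * w) * ((3 * w) * (3 * w)) := Nat.mul_le_mul h3 (Nat.mul_le_mul h3 h3)
      _ = 27 * w ^ 3 := by ring
  intro A
  induction A using Finset.strongInduction with
  | _ A ih =>
  intro h1 h2
  by_cases h3 : 2 * w < ∑ v ∈ A, x v
  · obtain ⟨A', hA', h4, h5⟩ := chunk x w A h1 h3
    have hne : A'.Nonempty := by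
      rcases A'.eq_empty_or_nonempty with e | e
      · rw [e] at h4; simp at h4; omega
      · exact e
    have hss : A \ A' ⊂ A := Finset.sdiff_ssubset hA' hne
    have h6 := ih _ hss (fun v hv => h1 v (Finset.sdiff_subset hv))
      (fun A'' hA'' => h2 A'' (hA''.trans Finset.sdiff_subset))
    have h7 := base A' (h2 A' hA') h5
    have h8 : ∑ v ∈ A \ A', x v + ∑ v ∈ A', x v = ∑ v ∈ A, x v := Finset.sum_sdiff hA'
    have h9 : A.biUnion (fun v => Jc v ×ˢ Jc v ×ˢ Jc v) =
        A'.biUnion (fun v => Jc v ×ˢ Jc v ×ˢ Jc v) ∪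
          (A \ A').biUnion (fun v => Jc v ×ˢ Jc v ×ˢ Jc v) := by
      rw [← Finset.union_biUnion, Finset.union_sdiff_of_subset hA']
    rw [h9]
    refine (Finset.card_union_le _ _).trans ?_
    calc _ ≤ 27 * w ^ 3 + 27 * w ^ 2 * (w + ∑ v ∈ A \ A', x v) := Nat.add_le_add h7 h6
      _ = 27 * w ^ 2 * (w + (w + ∑ v ∈ A \ A', x v)) := by ring
      _ ≤ _ := Nat.mul_le_mul_left _ (by omega)
  · refine (base A (h2 A (Finset.Subset.refl _)) (by omega)).trans ?_
    calc 27 * w ^ 3 = 27 * w ^ 2 * w := by ring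
      _ ≤ _ := Nat.mul_le_mul_left _ (by omega)

end Rounding

open Classical in
/-- The rounding lemma. -/
lemma rounding {α β : Type*} [Fintype β] (H : SimpleGraph β) (J : Finset α) (P : α → Finset β)
    (x : β → ℕ)
    (hkey : ∀ A : Finset β, (J.filter (fun j => ∃ h ∈ A, ∃ h' ∈ A, H.Adj h h' ∧
      ¬ InNbhd H (P j) h ∧ ¬ InNbhd H (P j) h')).card ≤ ∑ h ∈ A, x h) :
    J.card * isolationNumber H ≤ 3 * ∑ j ∈ J, (P j).card + 56 * ∑ h, x h := by
  rcases Nat.eq_zero_or_pos J.card with hk | hk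
  · rw [hk]; simp
  set k := J.card with hkdef
  have hkR : (0 : ℝ) < k := by exact_mod_cast hk
  let p : β → ℝ := fun v => if x v < k then (x v : ℝ) / k else 0
  have hp0 : ∀ v, 0 ≤ p v := by
    intro v
    simp only [p]
    split_ifs
    · positivity
    · exact le_rfl
  have hp1 : ∀ v, p v ≤ 1 := by
    intro v
    simp only [p]
    split_ifs with h
    · rw [div_le_one hkR]; exact_mod_cast h.le
    · exact zero_le_one
  let Nb : β → Finset β := fun h => univ.filter (fun v => H.Adj h v ∧ x v ≤ x h)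
  set B : Finset β := univ.filter (fun h => x h < k ∧ 0 < x h ∧ k ^ 2 ≤ x h * ∑ v ∈ Nb h, x v)
    with hB
  obtain ⟨R, hR⟩ := random_set p hp0 hp1 B Nb univ
  set B' := B.filter (fun h => Disjoint (Nb h) R) with hB'
  have hR1 : (R.card : ℝ) + B'.card ≤ ∑ v, p v + ∑ h ∈ B, ∏ v ∈ Nb h, (1 - p v) := by
    refine le_trans (le_of_eq ?_) hR
    congr 1
    rw [Finset.sum_congr rfl (fun h _ => by
      rw [Finset.sdiff_eq_empty_iff_subset.mpr (Finset.subset_univ _), Finset.prod_empty])]
    simp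
  have hprod : ∀ h ∈ B, ∏ v ∈ Nb h, (1 - p v) ≤ (x h : ℝ) / k := by
    intro h hh
    obtain ⟨-, h1, h2, h3⟩ := Finset.mem_filter.mp hh
    have h2R : (0 : ℝ) < x h := by exact_mod_cast h2
    have h4 : ∏ v ∈ Nb h, (1 - p v) ≤ ∏ v ∈ Nb h, Real.exp (-(p v)) :=
      Finset.prod_le_prod (fun v _ => by linarith [hp1 v])
        (fun v _ => by linarith [Real.add_one_le_exp (-(p v))])
    rw [← Real.exp_sum] at h4
    have h5 : ∑ v ∈ Nb h, p v = ((∑ v ∈ Nb h, x v : ℕ) : ℝ) / k := by
      rw [Nat.cast_sum, Finset.sum_div]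
      refine Finset.sum_congr rfl (fun v hv => ?_)
      have hv' := (Finset.mem_filter.mp hv).2.2
      simp only [p]
      rw [if_pos (lt_of_le_of_lt hv' h1)]
    set s : ℝ := ((∑ v ∈ Nb h, x v : ℕ) : ℝ) with hs
    have h6 : (k : ℝ) ^ 2 ≤ x h * s := by
      rw [hs]; exact_mod_cast h3
    have hspos : 0 < s := by
      by_contra hcon
      have : (0 : ℝ) < (k : ℝ) ^ 2 := by positivity
      nlinarith
    have h7 : ∑ v ∈ Nb h, -(p v) = -(s / k) := by
      rw [Finset.sum_neg_distrib, h5]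
    rw [h7] at h4
    refine h4.trans ?_
    have h8 : s / k ≤ Real.exp (s / k) := by linarith [Real.add_one_le_exp (s / k)]
    rw [Real.exp_neg, inv_eq_one_div, div_le_div_iff₀ (Real.exp_pos _) hkR]
    have h9 : (k : ℝ) ≤ x h * (s / k) := by
      rw [← mul_div_assoc, le_div_iff₀ hkR]
      nlinarith
    have h10 : (x h : ℝ) * (s / k) ≤ x h * Real.exp (s / k) :=
      mul_le_mul_of_nonneg_left h8 h2R.le
    linarith
  set L : Finset β := univ.filter (fun h => ¬ x h < k) with hL
  have hRB : (k : ℝ) * (R.card + B'.card) ≤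
      ((∑ v ∈ univ.filter (fun h => x h < k), x v : ℕ) : ℝ) + ((∑ h ∈ B, x h : ℕ) : ℝ) := by
    have h1 : ∑ v, p v = ((∑ v ∈ univ.filter (fun h => x h < k), x v : ℕ) : ℝ) / k := by
      rw [Nat.cast_sum, Finset.sum_div, Finset.sum_filter]
    have h2 : ∑ h ∈ B, ∏ v ∈ Nb h, (1 - p v) ≤ ((∑ h ∈ B, x h : ℕ) : ℝ) / k := by
      rw [Nat.cast_sum, Finset.sum_div]
      exact Finset.sum_le_sum hprod
    have h3 := hR1.trans (add_le_add (le_of_eq h1) h2)
    rw [← add_div, le_div_iff₀ hkR] at h3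
    linarith
  have hRB' : k * (R.card + B'.card) ≤
      ∑ v ∈ univ.filter (fun h => x h < k), x v + ∑ h ∈ B, x h := by
    exact_mod_cast hRB
  have hLc : k * L.card ≤ ∑ h ∈ L, x h := by
    rw [Nat.mul_comm, ← smul_eq_mul]
    exact Finset.card_nsmul_le_sum L x k (fun h hh => not_lt.mp (Finset.mem_filter.mp hh).2)
  have hsplit : ∑ v ∈ univ.filter (fun h => x h < k), x v + ∑ h ∈ L, x h = ∑ h, x h :=
    Finset.sum_filter_add_sum_filter_not univ (fun h => x h < k) x
  have hBX : ∑ h ∈ B, x h ≤ ∑ h, x h := Finset.sum_le_sum_of_subset (Finset.subset_univ _)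
  -- the exceptional sets
  let Jc : β → β → Finset α := fun h h' =>
    J.filter (fun j => ¬ InNbhd H (P j) h ∧ ¬ InNbhd H (P j) h')
  let T : Finset (α × α × α) := J ×ˢ J ×ˢ J
  let r : (α × α × α) → β → Prop := fun t h => x h < k ∧ 0 < x h ∧
    ¬ (k ^ 2 ≤ x h * ∑ v ∈ Nb h, x v) ∧ ∃ v ∈ Nb h, t ∈ Jc h v ×ˢ Jc h v ×ˢ Jc h v
  have hiso : ∀ t ∈ T, IsIsolating H
      (P t.1 ∪ P t.2.1 ∪ P t.2.2 ∪ (R ∪ B' ∪ L) ∪ univ.filter (r t)) := by
    intro t ht
    obtain ⟨ht1, ht2⟩ := Finset.mem_product.mp ht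
    obtain ⟨ht2, ht3⟩ := Finset.mem_product.mp ht2
    set S := P t.1 ∪ P t.2.1 ∪ P t.2.2 ∪ (R ∪ B' ∪ L) ∪ univ.filter (r t) with hS
    have hS1 : P t.1 ⊆ S := by intro y hy; simp [hS, hy]
    have hS2 : P t.2.1 ⊆ S := by intro y hy; simp [hS, hy]
    have hS3 : P t.2.2 ⊆ S := by intro y hy; simp [hS, hy]
    have hS4 : R ⊆ S := by intro y hy; simp [hS, hy]
    have hS5 : B' ⊆ S := by intro y hy; simp [hS, hy]
    have hS6 : L ⊆ S := by intro y hy; simp [hS, hy]
    have hS7 : univ.filter (r t) ⊆ S := Finset.subset_union_right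
    have main : ∀ u v, H.Adj u v → x v ≤ x u → InNbhd H S u ∨ InNbhd H S v := by
      intro u v huv hx
      by_contra hcon
      rw [not_or] at hcon
      obtain ⟨hu, hv⟩ := hcon
      have hvNb : v ∈ Nb u := Finset.mem_filter.mpr ⟨Finset.mem_univ _, huv, hx⟩
      have hlt : x u < k := by
        by_contra hge
        exact hu (Or.inl (hS6 (Finset.mem_filter.mpr ⟨Finset.mem_univ _, hge⟩)))
      have hpos : 0 < x u := by
        rcases Nat.eq_zero_or_pos (x u) with h0 | h0
        · exfalso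
          have h1 := hkey {u, v}
          have h2 : ∑ h ∈ ({u, v} : Finset β), x h = 0 := by
            rw [Finset.sum_pair huv.ne]; omega
          rw [h2] at h1
          have h3 := Finset.card_eq_zero.mp (Nat.le_zero.mp h1)
          have h4 : t.1 ∈ (∅ : Finset α) := by
            rw [← h3]
            refine Finset.mem_filter.mpr ⟨ht1, u, by simp, v, by simp, huv, ?_, ?_⟩
            · exact fun h => hu (h.mono hS1)
            · exact fun h => hv (h.mono hS1)
          simp at h4
        · exact h0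
      by_cases hb : k ^ 2 ≤ x u * ∑ v ∈ Nb u, x v
      · have huB : u ∈ B := Finset.mem_filter.mpr ⟨Finset.mem_univ _, hlt, hpos, hb⟩
        by_cases hd : Disjoint (Nb u) R
        · exact hu (Or.inl (hS5 (Finset.mem_filter.mpr ⟨huB, hd⟩)))
        · obtain ⟨y, hy1, hy2⟩ := Finset.not_disjoint_iff.mp hd
          exact hu (Or.inr ⟨y, hS4 hy2, (Finset.mem_filter.mp hy1).2.1.symm⟩)
      · refine hu (Or.inl (hS7 (Finset.mem_filter.mpr ⟨Finset.mem_univ _, hlt, hpos, hb, v, hvNb,
          ?_⟩)))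
        refine Finset.mem_product.mpr ⟨?_, Finset.mem_product.mpr ⟨?_, ?_⟩⟩
        · exact Finset.mem_filter.mpr ⟨ht1, fun h => hu (h.mono hS1), fun h => hv (h.mono hS1)⟩
        · exact Finset.mem_filter.mpr ⟨ht2, fun h => hu (h.mono hS2), fun h => hv (h.mono hS2)⟩
        · exact Finset.mem_filter.mpr ⟨ht3, fun h => hu (h.mono hS3), fun h => hv (h.mono hS3)⟩
    intro u v huv
    rcases le_total (x v) (x u) with h | h
    · exact main u v huv h
    · exact (main v u huv.symm h).symm
  have hcard : ∀ t ∈ T, isolationNumber H ≤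
      (P t.1).card + (P t.2.1).card + (P t.2.2).card + (R.card + B'.card + L.card) +
        (univ.filter (r t)).card := by
    intro t ht
    have h1 : isolationNumber H ≤
        (P t.1 ∪ P t.2.1 ∪ P t.2.2 ∪ (R ∪ B' ∪ L) ∪ univ.filter (r t)).card :=
      Nat.sInf_le ⟨_, hiso t ht, rfl⟩
    refine h1.trans ((Finset.card_union_le _ _).trans (Nat.add_le_add_right ?_ _))
    refine (Finset.card_union_le _ _).trans (Nat.add_le_add ?_ ?_)
    · exact (Finset.card_union_le _ _).trans (Nat.add_le_add_right (Finset.card_union_le _ _) _)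
    · exact (Finset.card_union_le _ _).trans (Nat.add_le_add_right (Finset.card_union_le _ _) _)
  have hsum := Finset.sum_le_sum hcard
  have hTc : T.card = k * (k * k) := by
    simp only [T]; rw [Finset.card_product, Finset.card_product]
  have hX : ∑ t ∈ T, (univ.filter (r t)).card ≤ ∑ h, 54 * x h * k ^ 2 := by
    have h1 := Finset.sum_card_bipartiteAbove_eq_sum_card_bipartiteBelow (s := T)
      (t := (univ : Finset β)) r
    simp only [Finset.bipartiteAbove, Finset.bipartiteBelow] at h1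
    rw [h1]
    refine Finset.sum_le_sum (fun h _ => ?_)
    by_cases hc : x h < k ∧ 0 < x h ∧ ¬ (k ^ 2 ≤ x h * ∑ v ∈ Nb h, x v)
    · obtain ⟨c1, c2, c3⟩ := hc
      have hsub : T.filter (fun t => r t h) ⊆
          (Nb h).biUnion (fun v => Jc h v ×ˢ Jc h v ×ˢ Jc h v) := by
        intro t ht
        obtain ⟨-, -, -, -, v, hv, htv⟩ := Finset.mem_filter.mp ht
        exact Finset.mem_biUnion.mpr ⟨v, hv, htv⟩
      refine (Finset.card_le_card hsub).trans ?_
      refine (triples x (x h) c2 (Jc h) (Nb h) (fun v hv => (Finset.mem_filter.mp hv).2.2)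
        ?_).trans ?_
      · intro A' hA'
        have hnot : h ∉ A' := fun hh => H.irrefl (Finset.mem_filter.mp (hA' hh)).2.1
        rw [← Finset.sum_insert hnot]
        refine le_trans (Finset.card_le_card ?_) (hkey (insert h A'))
        intro j hj
        obtain ⟨v, hv, hjv⟩ := Finset.mem_biUnion.mp hj
        obtain ⟨hj1, hj2, hj3⟩ := Finset.mem_filter.mp hjv
        exact Finset.mem_filter.mpr ⟨hj1, h, Finset.mem_insert_self _ _, v,
          Finset.mem_insert_of_mem hv, (Finset.mem_filter.mp (hA' hv)).2.1, hj2, hj3⟩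
      · rw [not_le] at c3
        have h2 : x h ^ 2 ≤ k ^ 2 := Nat.pow_le_pow_left c1.le 2
        calc 27 * x h ^ 2 * (x h + ∑ v ∈ Nb h, x v)
            = 27 * x h * (x h ^ 2 + x h * ∑ v ∈ Nb h, x v) := by ring
          _ ≤ 27 * x h * (k ^ 2 + k ^ 2) :=
              Nat.mul_le_mul_left _ (Nat.add_le_add h2 c3.le)
          _ = 54 * x h * k ^ 2 := by ring
    · have : T.filter (fun t => r t h) = ∅ := by
        refine Finset.filter_eq_empty_iff.mpr (fun t _ hr => hc ⟨hr.1, hr.2.1, hr.2.2.1⟩)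
      rw [this]; simp
  have hP1 : ∑ t ∈ T, (P t.1).card = k * k * ∑ j ∈ J, (P j).card := by
    simp only [T]
    rw [Finset.sum_product]
    simp only [Finset.sum_const, Finset.card_product, smul_eq_mul]
    rw [← Finset.mul_sum]
  have hP2 : ∑ t ∈ T, (P t.2.1).card = k * k * ∑ j ∈ J, (P j).card := by
    simp only [T]
    rw [Finset.sum_product]
    simp only [Finset.sum_product, Finset.sum_const, smul_eq_mul]
    rw [← Finset.mul_sum]; ring
  have hP3 : ∑ t ∈ T, (P t.2.2).card = k * k * ∑ j ∈ J, (P j).card := by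
    simp only [T]
    rw [Finset.sum_product]
    simp only [Finset.sum_product, Finset.sum_const, smul_eq_mul]
    ring
  rw [Finset.sum_const, smul_eq_mul, hTc, Finset.sum_add_distrib, Finset.sum_add_distrib,
    Finset.sum_add_distrib, Finset.sum_add_distrib, Finset.sum_const, smul_eq_mul, hTc,
    hP1, hP2, hP3] at hsum
  have hX' : ∑ h, 54 * x h * k ^ 2 = 54 * k ^ 2 * ∑ h, x h := by
    rw [Finset.mul_sum]
    exact Finset.sum_congr rfl (fun h _ => by ring)
  rw [hX'] at hX
  have hfin : k * (R.card + B'.card + L.card) ≤ 2 * ∑ h, x h := by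
    have : k * (R.card + B'.card + L.card) = k * (R.card + B'.card) + k * L.card := by ring
    omega
  have hk2 : 0 < k * k := Nat.mul_pos hk hk
  refine Nat.le_of_mul_le_mul_left ?_ hk2
  calc k * k * (k * isolationNumber H) = k * (k * k) * isolationNumber H := by ring
    _ ≤ _ := hsum
    _ ≤ k * k * ∑ j ∈ J, (P j).card + k * k * ∑ j ∈ J, (P j).card +
          k * k * ∑ j ∈ J, (P j).card + k * (k * k) * (R.card + B'.card + L.card) +
          54 * k ^ 2 * ∑ h, x h := Nat.add_le_add_left hX _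
    _ = k * k * (3 * ∑ j ∈ J, (P j).card + k * (R.card + B'.card + L.card) +
          54 * ∑ h, x h) := by ring
    _ ≤ k * k * (3 * ∑ j ∈ J, (P j).card + 56 * ∑ h, x h) :=
          Nat.mul_le_mul_left _ (by omega)

/-- **Partial answer.**  For all finite graphs `G` and `H`:
`γ^i(G) * ι(H) ≤ γ(G) * ι(H) ≤ 59 * ι(G □ H)`. -/
theorem result {α β : Type*} [Finite α] [Finite β] (G : SimpleGraph α) (H : SimpleGraph β) :
    indepDomNumber G * isolationNumber H ≤ dominationNumber G * isolationNumber H ∧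
    dominationNumber G * isolationNumber H ≤ 59 * isolationNumber (G.boxProd H) := by
  classical
  have := Fintype.ofFinite α
  have := Fintype.ofFinite β
  have hmem : dominationNumber G ∈ {k | ∃ D : Finset α, (∀ v, InNbhd G D v) ∧ D.card = k} :=
    Nat.sInf_mem ⟨_, univ, fun v => Or.inl (Finset.mem_univ v), rfl⟩
  obtain ⟨D0, hD0, hD0c⟩ := hmem
  constructor
  · refine Nat.mul_le_mul_right _ ?_
    refine csSup_le ⟨_, ∅, by simp, rfl⟩ ?_
    rintro k ⟨I, -, rfl⟩
    rw [← hD0c]
    exact Nat.sInf_le ⟨D0, fun v _ => hD0 v, rfl⟩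
  · have hmem' : isolationNumber (G.boxProd H) ∈
        {k | ∃ A : Finset (α × β), IsIsolating (G.boxProd H) A ∧ A.card = k} :=
      Nat.sInf_mem ⟨_, univ, fun u _ _ => Or.inl (Or.inl (Finset.mem_univ u)), rfl⟩
    obtain ⟨D, hD, hDc⟩ := hmem'
    have hcell : ∀ g : α, ∃ j ∈ D0, j = g ∨ G.Adj j g := by
      intro g
      rcases hD0 g with h | ⟨a, ha, hag⟩
      · exact ⟨g, h, Or.inl rfl⟩
      · exact ⟨a, ha, Or.inr hag⟩
    choose c hc1 hc2 using hcell
    let P : α → Finset β := fun j => (D.filter (fun y => c y.1 = j)).image Prod.snd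
    let x : β → ℕ := fun h => (D.filter (fun y => y.2 = h)).card
    have hround := rounding H D0 P x (by
      intro A
      set J' := D0.filter (fun j => ∃ h ∈ A, ∃ h' ∈ A, H.Adj h h' ∧
        ¬ InNbhd H (P j) h ∧ ¬ InNbhd H (P j) h') with hJ'
      set T := (D.filter (fun y => y.2 ∈ A)).image Prod.fst with hT
      have hloc : ∀ g : α, ∀ h ∈ A, ¬ InNbhd H (P (c g)) h →
          InNbhd (G.boxProd H) D (g, h) → InNbhd G T g := by
        intro g h hh hn hin
        rcases hin with h1 | ⟨⟨a, b⟩, hab, hadj⟩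
        · exact (hn (Or.inl (Finset.mem_image.mpr
            ⟨(g, h), Finset.mem_filter.mpr ⟨h1, rfl⟩, rfl⟩))).elim
        · rw [SimpleGraph.boxProd_adj] at hadj
          rcases hadj with ⟨h1, h2⟩ | ⟨h1, h2⟩
          · simp only at h1 h2
            subst h2
            exact Or.inr ⟨a, Finset.mem_image.mpr ⟨(a, b), Finset.mem_filter.mpr ⟨hab, hh⟩, rfl⟩,
              h1⟩
          · simp only at h1 h2
            subst h2
            exact (hn (Or.inr ⟨b, Finset.mem_image.mpr
              ⟨(a, b), Finset.mem_filter.mpr ⟨hab, rfl⟩, rfl⟩, h1⟩)).elim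
      have hdom : ∀ g, c g ∈ J' → InNbhd G T g := by
        intro g hg
        obtain ⟨-, h, hh, h', hh', hadj, hn, hn'⟩ := Finset.mem_filter.mp hg
        have hadj' : (G.boxProd H).Adj (g, h) (g, h') := by
          rw [SimpleGraph.boxProd_adj]
          exact Or.inr ⟨hadj, rfl⟩
        rcases hD _ _ hadj' with h1 | h1
        · exact hloc g h hh hn h1
        · exact hloc g h' hh' hn' h1
      have hall : ∀ g, InNbhd G (T ∪ (D0 \ J')) g := by
        intro g
        by_cases hg : c g ∈ J'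
        · exact (hdom g hg).mono Finset.subset_union_left
        · have hm : c g ∈ T ∪ (D0 \ J') :=
            Finset.mem_union_right _ (Finset.mem_sdiff.mpr ⟨hc1 g, hg⟩)
          rcases hc2 g with h1 | h1
          · rw [h1] at hm; exact Or.inl hm
          · exact Or.inr ⟨c g, hm, h1⟩
      have h1 : dominationNumber G ≤ (T ∪ (D0 \ J')).card := Nat.sInf_le ⟨_, hall, rfl⟩
      have h2 := Finset.card_union_le T (D0 \ J')
      have h3 : (D0 \ J').card + J'.card = D0.card :=
        Finset.card_sdiff_add_card_eq_card (Finset.filter_subset _ _)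
      have h4 : T.card ≤ ∑ h ∈ A, x h := by
        refine Finset.card_image_le.trans (le_of_eq ?_)
        have hmaps : Set.MapsTo Prod.snd (↑(D.filter (fun y : α × β => y.2 ∈ A)) : Set (α × β))
            (↑A : Set β) := fun y hy => (Finset.mem_filter.mp (Finset.mem_coe.mp hy)).2
        rw [Finset.card_eq_sum_card_fiberwise hmaps]
        refine Finset.sum_congr rfl (fun h hh => ?_)
        simp only [x]
        congr 1
        ext y
        simp only [Finset.mem_filter]
        constructor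
        · rintro ⟨⟨h5, -⟩, h6⟩; exact ⟨h5, h6⟩
        · rintro ⟨h5, h6⟩; exact ⟨⟨h5, by rw [h6]; exact hh⟩, h6⟩
      omega)
    have hPs : ∑ j ∈ D0, (P j).card ≤ D.card := by
      have hmaps : Set.MapsTo (fun y : α × β => c y.1) (↑D : Set (α × β)) (↑D0 : Set α) :=
        fun y _ => hc1 y.1
      rw [Finset.card_eq_sum_card_fiberwise hmaps]
      exact Finset.sum_le_sum (fun j _ => Finset.card_image_le)
    have hxs : ∑ h, x h = D.card :=
      (Finset.card_eq_sum_card_fiberwise (fun y _ => by simp)).symm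
    rw [hD0c] at hround
    rw [← hDc]
    omega

end Pool.Agent.Results.MP_33f02b_co.ConstantFactor
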