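import Mathlib

/-!
# Isolation number of Cartesian products: forest second factor

For every finite graph `G` and every finite forest `H`:
`ι(G □ H) ≥ γ(G) * ι(H) ≥ γ^i(G) * ι(H)`.
-/

set_option autoImplicit false

namespace Pool.Agent.Results.MP_33f02b_co.ForestFactor

open Finset

/-- `v` lies in the closed neighbourhood `N[A]`: it is in `A` or has a neighbour in `A`. -/
def InNbhd {V : Type*} (G : SimpleGraph V) (A : Finset V) (v : V) : Prop :=
  v ∈ A ∨ ∃ a ∈ A, G.Adj a v

/-- `A` is isolating: no edge of `G` has both ends outside `N[A]`. -/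
def IsIsolating {V : Type*} (G : SimpleGraph V) (A : Finset V) : Prop :=
  ∀ u v, G.Adj u v → InNbhd G A u ∨ InNbhd G A v

/-- The isolation number `ι(G)`: the least cardinality of an isolating set. -/
noncomputable def isolationNumber {V : Type*} (G : SimpleGraph V) : ℕ :=
  sInf {k | ∃ A : Finset V, IsIsolating G A ∧ A.card = k}

/-- The least number of vertices of `G` dominating all of `I`. -/
noncomputable def domNumberOf {V : Type*} (G : SimpleGraph V) (I : Finset V) : ℕ :=
  sInf {k | ∃ D : Finset V, (∀ v ∈ I, InNbhd G D v) ∧ D.card = k}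

/-- The independence-domination number `γ^i(G)`: the largest value of `domNumberOf G I` over the
independent sets `I` of `G`. -/
noncomputable def indepDomNumber {V : Type*} (G : SimpleGraph V) : ℕ :=
  sSup {k | ∃ I : Finset V, (∀ u ∈ I, ∀ v ∈ I, ¬ G.Adj u v) ∧ domNumberOf G I = k}

/-- The domination number `γ(G)`: the least size of a set `D` with `N[D] = V(G)`. -/
noncomputable def dominationNumber {V : Type*} (G : SimpleGraph V) : ℕ :=
  sInf {k | ∃ D : Finset V, (∀ v, InNbhd G D v) ∧ D.card = k}

section Forest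
variable {β : Type*}

lemma InNbhd.mono {V : Type*} {G : SimpleGraph V} {A B : Finset V} (h : A ⊆ B) {v : V}
    (hv : InNbhd G A v) : InNbhd G B v := by
  rcases hv with hv | ⟨a, ha, hav⟩
  · exact Or.inl (h hv)
  · exact Or.inr ⟨a, h ha, hav⟩


/-- A depth function on a forest. -/
lemma exists_depth (H : SimpleGraph β) (hH : H.IsAcyclic) :
    ∃ dep : β → ℕ, (∀ v w, H.Adj v w → dep v = dep w + 1 ∨ dep w = dep v + 1) ∧
      (∀ v w w', H.Adj v w → H.Adj v w' → dep v = dep w + 1 → dep v = dep w' + 1 → w = w') := by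
  classical
  have hroot : ∀ C : H.ConnectedComponent, ∃ r : β, r ∈ C := fun C => C.nonempty_supp
  choose rt hrt using hroot
  let u : β → β := fun v => rt (H.connectedComponentMk v)
  have hreach : ∀ v, H.Reachable (u v) v := fun v =>
    SimpleGraph.ConnectedComponent.exact (hrt (H.connectedComponentMk v))
  have hu : ∀ v w, H.Adj v w → u v = u w := by
    intro v w hvw
    have := SimpleGraph.ConnectedComponent.sound hvw.reachable
    simp only [u, this]
  refine ⟨fun v => H.dist (u v) v, ?_, ?_⟩
  · intro v w hvw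
    have h1 := hH.dist_eq_dist_add_one_of_adj_of_reachable (u v) hvw (hreach v)
    simp only
    rw [← hu v w hvw]
    exact h1
  · intro v w w' hvw hvw' h1 h2
    simp only at h1 h2
    rw [← hu v w hvw] at h1
    rw [← hu v w' hvw'] at h2
    obtain ⟨q, hq, hq'⟩ := (hreach v).exists_path_of_dist
    have key : ∀ x, H.Adj v x → H.dist (u v) v = H.dist (u v) x + 1 → x = q.penultimate := by
      intro x hvx hx
      obtain ⟨p, hp, hp'⟩ := ((hreach v).trans hvx.reachable).exists_path_of_dist
      have hxq : x ∈ q.support := by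
        by_contra hcon
        have hv : v ∈ p.support :=
          hH.mem_support_of_ne_mem_support_of_adj_of_isPath hp hq hvx.symm hcon
        have := hH.path_concat hq hp hvx hv
        have h3 := congrArg SimpleGraph.Walk.length this
        rw [SimpleGraph.Walk.length_concat, hp', hq'] at h3
        omega
      exact hH.eq_penultimate_of_adj_end hq hvx hxq
    rw [key w hvw h1, key w' hvw' h2]

open Classical in
/-- Packing: in a forest, a vertex subset `S` can be isolated by as many vertices as there are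
edges in `S` with disjoint closed neighbourhoods (in weighted form). -/
lemma packing [Fintype β] (H : SimpleGraph β) (hH : H.IsAcyclic) (w : β → ℕ) (m : ℕ)
    (hw : ∀ h h', H.Adj h h' → m ≤ ∑ t ∈ univ.filter (fun t => InNbhd H {h, h'} t), w t) :
    ∀ S : Finset β, ∃ A R : Finset β,
      (∀ h ∈ S, ∀ h' ∈ S, H.Adj h h' → InNbhd H A h ∨ InNbhd H A h') ∧
      (∀ t ∈ R, ∃ h ∈ S, ∃ h' ∈ S, H.Adj h h' ∧ InNbhd H {h, h'} t) ∧
      m * A.card ≤ ∑ t ∈ R, w t := by
  obtain ⟨dep, hd1, hd2⟩ := exists_depth H hH
  -- parents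
  have hpar : ∀ v : β, ∃ p : β, ((∃ x, H.Adj v x ∧ dep v = dep x + 1) →
      H.Adj v p ∧ dep v = dep p + 1) ∧ ((¬ ∃ x, H.Adj v x ∧ dep v = dep x + 1) → p = v) := by
    intro v
    by_cases h : ∃ x, H.Adj v x ∧ dep v = dep x + 1
    · obtain ⟨x, hx⟩ := h
      exact ⟨x, fun _ => hx, fun h' => absurd ⟨x, hx⟩ h'⟩
    · exact ⟨v, fun h' => absurd h' h, fun _ => rfl⟩
  choose par hp1 hp2 using hpar
  have hpu : ∀ v x, H.Adj v x → dep v = dep x + 1 → par v = x := by
    intro v x hvx hdx
    obtain ⟨h1, h2⟩ := hp1 v ⟨x, hvx, hdx⟩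
    exact hd2 v _ _ h1 hvx h2 hdx
  have hpc : ∀ v, par v = v ∨ (H.Adj v (par v) ∧ dep v = dep (par v) + 1) := by
    intro v
    by_cases h : ∃ x, H.Adj v x ∧ dep v = dep x + 1
    · exact Or.inr (hp1 v h)
    · exact Or.inl (hp2 v h)
  -- membership in the closed neighbourhood of the edge `h, par h`
  let NE : β → β → Prop := fun h x => InNbhd H {h, par h} x
  have hchain : ∀ h x, par h ≠ h → NE h x →
      ∃ k, par^[k] x = par (par h) ∧ ∀ i ≤ k, NE h (par^[i] x) := by
    intro h x hne hx
    have ha : NE h h := Or.inl (by simp)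
    have hb : NE h (par h) := Or.inl (by simp)
    have hc : NE h (par (par h)) := by
      rcases hpc (par h) with e | e
      · rw [e]; exact hb
      · exact Or.inr ⟨par h, by simp, e.1⟩
    have k1 : ∃ k, par^[k] (par h) = par (par h) ∧ ∀ i ≤ k, NE h (par^[i] (par h)) := by
      refine ⟨1, rfl, ?_⟩
      intro i hi
      interval_cases i
      · exact hb
      · exact hc
    have step : ∀ y z, par y = z → NE h y →
        (∃ k, par^[k] z = par (par h) ∧ ∀ i ≤ k, NE h (par^[i] z)) →
        ∃ k, par^[k] y = par (par h) ∧ ∀ i ≤ k, NE h (par^[i] y) := by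
      rintro y z hyz hy ⟨k, hk1, hk2⟩
      refine ⟨k + 1, ?_, ?_⟩
      · rw [Function.iterate_succ_apply, hyz]; exact hk1
      · intro i hi
        rcases Nat.eq_zero_or_pos i with e | e
        · rw [e]; exact hy
        · obtain ⟨j, rfl⟩ : ∃ j, i = j + 1 := ⟨i - 1, by omega⟩
          rw [Function.iterate_succ_apply, hyz]
          exact hk2 j (by omega)
    have k2 := step h (par h) rfl ha k1
    rcases hx with hx' | ⟨a, ha', hax⟩
    · rcases Finset.mem_insert.mp hx' with e | e
      · rw [e]; exact k2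
      · rw [Finset.mem_singleton.mp e]; exact k1
    · rcases Finset.mem_insert.mp ha' with e | e
      · subst e
        rcases hd1 a x hax with h1 | h1
        · rw [← hpu a x hax h1]; exact k1
        · exact step x a (hpu x a hax.symm h1) (Or.inr ⟨a, by simp, hax⟩) k2
      · have e' := Finset.mem_singleton.mp e
        subst e'
        rcases hd1 (par h) x hax with h1 | h1
        · rw [← hpu (par h) x hax h1]
          exact ⟨0, rfl, fun i hi => by rw [Nat.le_zero.mp hi]; exact hc⟩
        · exact step x (par h) (hpu x (par h) hax.symm h1) (Or.inr ⟨par h, by simp, hax⟩) k1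
  have hmono : ∀ x k, dep (par^[k + 1] x) ≤ dep (par^[k] x) ∧
      (dep (par^[k + 1] x) = dep (par^[k] x) → par^[k + 1] x = par^[k] x) := by
    intro x k
    rw [Function.iterate_succ_apply']
    rcases hpc (par^[k] x) with e | e
    · rw [e]; exact ⟨le_rfl, fun _ => rfl⟩
    · exact ⟨by omega, fun h => by omega⟩
  have hmono2 : ∀ x l j, dep (par^[l + j] x) ≤ dep (par^[l] x) ∧
      (dep (par^[l + j] x) = dep (par^[l] x) → par^[l + j] x = par^[l] x) := by
    intro x l j
    induction j with
    | zero => exact ⟨le_rfl, fun _ => rfl⟩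
    | succ j ihj =>
      obtain ⟨h1, h2⟩ := hmono x (l + j)
      rw [← Nat.add_assoc]
      refine ⟨h1.trans ihj.1, fun h => ?_⟩
      have h3 : dep (par^[l + j + 1] x) = dep (par^[l + j] x) := by omega
      rw [h2 h3]
      exact ihj.2 (by omega)
  intro S
  induction S using Finset.strongInduction with
  | _ S ih =>
  -- children of edges inside `S`
  set Ch := S.filter (fun h => par h ≠ h ∧ par h ∈ S) with hCh
  have hedge : ∀ h ∈ S, ∀ h' ∈ S, H.Adj h h' →
      (h ∈ Ch ∧ par h = h') ∨ (h' ∈ Ch ∧ par h' = h) := by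
    intro h hh h' hh' hadj
    rcases hd1 h h' hadj with h1 | h1
    · have e := hpu h h' hadj h1
      exact Or.inl ⟨Finset.mem_filter.mpr ⟨hh, by rw [e]; exact hadj.ne', by rw [e]; exact hh'⟩, e⟩
    · have e := hpu h' h hadj.symm h1
      exact Or.inr ⟨Finset.mem_filter.mpr ⟨hh', by rw [e]; exact hadj.ne, by rw [e]; exact hh⟩, e⟩
  rcases Ch.eq_empty_or_nonempty with h0 | h0
  · refine ⟨∅, ∅, ?_, by simp, by simp⟩
    intro h hh h' hh' hadj
    rcases hedge h hh h' hh' hadj with ⟨h1, -⟩ | ⟨h1, -⟩ <;> (rw [h0] at h1; simp at h1)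
  · obtain ⟨e, he, hmax⟩ := Finset.exists_max_image Ch (fun h => dep (par (par h))) h0
    obtain ⟨heS, hene, hepS⟩ := Finset.mem_filter.mp he
    set z := par (par e) with hz
    have hadje : H.Adj e (par e) := by
      rcases hpc e with h1 | h1
      · exact absurd h1 hene
      · exact h1.1
    have hzp : InNbhd H {z} (par e) := by
      rcases hpc (par e) with h1 | h1
      · exact Or.inl (by rw [hz, h1]; simp)
      · exact Or.inr ⟨z, by simp, h1.1.symm⟩
    set T := S.filter (fun t => InNbhd H {z} t) with hT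
    have hss : S \ T ⊂ S :=
      Finset.sdiff_ssubset (Finset.filter_subset _ _) ⟨par e, Finset.mem_filter.mpr ⟨hepS, hzp⟩⟩
    obtain ⟨A, R, hA, hR, hc⟩ := ih _ hss
    -- every edge in `S` whose neighbourhood meets that of `e` has an end in `N[z]`
    have hstar : ∀ f ∈ Ch, ∀ x, NE e x → NE f x → NE f z := by
      intro f hf x hxe hxf
      obtain ⟨-, hfne, -⟩ := Finset.mem_filter.mp hf
      obtain ⟨k, hk1, -⟩ := hchain e x hene hxe
      obtain ⟨l, hl1, hl2⟩ := hchain f x hfne hxf
      have hle := hmax f hf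
      rcases le_total k l with h1 | h1
      · have := hl2 k h1
        rwa [hk1] at this
      · obtain ⟨j, rfl⟩ := Nat.exists_eq_add_of_le h1
        obtain ⟨h2, h3⟩ := hmono2 x l j
        rw [hk1, hl1] at h2 h3
        have h4 := h3 (le_antisymm h2 hle)
        have := hl2 l le_rfl
        rw [hl1, ← h4] at this
        exact this
    have hNz : ∀ f, NE f z → InNbhd H {z} f ∨ InNbhd H {z} (par f) := by
      intro f hf
      rcases hf with h1 | ⟨a, ha, haz⟩
      · rcases Finset.mem_insert.mp h1 with h2 | h2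
        · exact Or.inl (Or.inl (by simp [h2]))
        · exact Or.inr (Or.inl (by simp [Finset.mem_singleton.mp h2]))
      · rcases Finset.mem_insert.mp ha with h2 | h2
        · exact Or.inl (Or.inr ⟨z, by simp, by rw [← h2]; exact haz.symm⟩)
        · exact Or.inr (Or.inr ⟨z, by simp, by rw [← Finset.mem_singleton.mp h2]; exact haz.symm⟩)
    have hdisj : Disjoint R (univ.filter (fun t => InNbhd H {e, par e} t)) := by
      rw [Finset.disjoint_left]
      intro t ht ht'
      have hte : NE e t := (Finset.mem_filter.mp ht').2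
      obtain ⟨h, hh, h', hh', hadj, hin⟩ := hR t ht
      obtain ⟨hhS, hhT⟩ := Finset.mem_sdiff.mp hh
      obtain ⟨hh'S, hh'T⟩ := Finset.mem_sdiff.mp hh'
      rcases hedge h hhS h' hh'S hadj with ⟨h1, h2⟩ | ⟨h1, h2⟩
      · have h3 : NE h t := by simp only [NE]; rw [h2]; exact hin
        rcases hNz h (hstar h h1 t hte h3) with h4 | h4
        · exact hhT (Finset.mem_filter.mpr ⟨hhS, h4⟩)
        · rw [h2] at h4; exact hh'T (Finset.mem_filter.mpr ⟨hh'S, h4⟩)
      · have h3 : NE h' t := by
          simp only [NE]; rw [h2, Finset.pair_comm]; exact hin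
        rcases hNz h' (hstar h' h1 t hte h3) with h4 | h4
        · exact hh'T (Finset.mem_filter.mpr ⟨hh'S, h4⟩)
        · rw [h2] at h4; exact hhT (Finset.mem_filter.mpr ⟨hhS, h4⟩)
    refine ⟨insert z A, R ∪ univ.filter (fun t => InNbhd H {e, par e} t), ?_, ?_, ?_⟩
    · intro h hh h' hh' hadj
      have hsub : ({z} : Finset β) ⊆ insert z A := by simp
      by_cases h1 : h ∈ T
      · exact Or.inl ((Finset.mem_filter.mp h1).2.mono hsub)
      · by_cases h2 : h' ∈ T
        · exact Or.inr ((Finset.mem_filter.mp h2).2.mono hsub)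
        · rcases hA h (Finset.mem_sdiff.mpr ⟨hh, h1⟩) h' (Finset.mem_sdiff.mpr ⟨hh', h2⟩) hadj with
            h3 | h3
          · exact Or.inl (h3.mono (Finset.subset_insert _ _))
          · exact Or.inr (h3.mono (Finset.subset_insert _ _))
    · intro t ht
      rcases Finset.mem_union.mp ht with h1 | h1
      · obtain ⟨h, hh, h', hh', h2, h3⟩ := hR t h1
        exact ⟨h, Finset.sdiff_subset hh, h', Finset.sdiff_subset hh', h2, h3⟩
      · exact ⟨e, heS, par e, hepS, hadje, (Finset.mem_filter.mp h1).2⟩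
    · rw [Finset.sum_union hdisj]
      have h1 : (insert z A).card ≤ A.card + 1 := Finset.card_insert_le _ _
      have h2 := hw e (par e) hadje
      calc m * (insert z A).card ≤ m * (A.card + 1) := Nat.mul_le_mul_left _ h1
        _ = m * A.card + m := by ring
        _ ≤ _ := Nat.add_le_add hc h2

end Forest

/-- **Partial answer.**  For every finite graph `G` and every finite forest `H`:
`γ^i(G) * ι(H) ≤ γ(G) * ι(H) ≤ ι(G □ H)`. -/
theorem result {α β : Type*} [Finite α] [Finite β] (G : SimpleGraph α) (H : SimpleGraph β)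
    (hH : H.IsAcyclic) :
    indepDomNumber G * isolationNumber H ≤ dominationNumber G * isolationNumber H ∧
    dominationNumber G * isolationNumber H ≤ isolationNumber (G.boxProd H) := by
  classical
  have := Fintype.ofFinite α
  have := Fintype.ofFinite β
  constructor
  · refine Nat.mul_le_mul_right _ ?_
    have hmem : dominationNumber G ∈ {k | ∃ D : Finset α, (∀ v, InNbhd G D v) ∧ D.card = k} :=
      Nat.sInf_mem ⟨_, univ, fun v => Or.inl (Finset.mem_univ v), rfl⟩
    obtain ⟨D, hD, hDc⟩ := hmem
    refine csSup_le ⟨_, ∅, by simp, rfl⟩ ?_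
    rintro k ⟨I, -, rfl⟩
    rw [← hDc]
    exact Nat.sInf_le ⟨D, fun v _ => hD v, rfl⟩
  · have hmem : isolationNumber (G.boxProd H) ∈
        {k | ∃ A : Finset (α × β), IsIsolating (G.boxProd H) A ∧ A.card = k} :=
      Nat.sInf_mem ⟨_, univ, fun u _ _ => Or.inl (Or.inl (Finset.mem_univ u)), rfl⟩
    obtain ⟨D, hD, hDc⟩ := hmem
    rw [← hDc]
    let w : β → ℕ := fun t => (D.filter (fun x => x.2 = t)).card
    obtain ⟨A, R, hA, -, hc⟩ := packing H hH w (dominationNumber G) (by
      intro h h' hadj
      set Q := univ.filter (fun t => InNbhd H {h, h'} t) with hQ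
      have hloc : ∀ g : α, ∀ x ∈ ({h, h'} : Finset β), InNbhd (G.boxProd H) D (g, x) →
          InNbhd G ((D.filter (fun y => y.2 ∈ Q)).image Prod.fst) g := by
        intro g x hx hin
        have hxQ : x ∈ Q := Finset.mem_filter.mpr ⟨Finset.mem_univ _, Or.inl hx⟩
        rcases hin with h1 | ⟨⟨a, b⟩, hab, hadj'⟩
        · exact Or.inl (Finset.mem_image.mpr ⟨(g, x), Finset.mem_filter.mpr ⟨h1, hxQ⟩, rfl⟩)
        · rw [SimpleGraph.boxProd_adj] at hadj'
          rcases hadj' with ⟨h1, h2⟩ | ⟨h1, h2⟩
          · simp only at h1 h2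
            subst h2
            exact Or.inr ⟨a, Finset.mem_image.mpr ⟨(a, b), Finset.mem_filter.mpr ⟨hab, hxQ⟩, rfl⟩, h1⟩
          · simp only at h1 h2
            subst h2
            refine Or.inl (Finset.mem_image.mpr ⟨(a, b), Finset.mem_filter.mpr ⟨hab, ?_⟩, rfl⟩)
            exact Finset.mem_filter.mpr ⟨Finset.mem_univ _, Or.inr ⟨x, hx, h1.symm⟩⟩
      have hdom : ∀ g, InNbhd G ((D.filter (fun y => y.2 ∈ Q)).image Prod.fst) g := by
        intro g
        have hadj' : (G.boxProd H).Adj (g, h) (g, h') := by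
          rw [SimpleGraph.boxProd_adj]
          exact Or.inr ⟨hadj, rfl⟩
        rcases hD _ _ hadj' with h1 | h1
        · exact hloc g h (by simp) h1
        · exact hloc g h' (by simp) h1
      have h1 : dominationNumber G ≤ ((D.filter (fun y => y.2 ∈ Q)).image Prod.fst).card :=
        Nat.sInf_le ⟨_, hdom, rfl⟩
      refine h1.trans (Finset.card_image_le.trans ?_)
      have hmaps : Set.MapsTo Prod.snd (↑(D.filter (fun y : α × β => y.2 ∈ Q)) : Set (α × β))
          (↑Q : Set β) := fun x hx => (Finset.mem_filter.mp (Finset.mem_coe.mp hx)).2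
      rw [Finset.card_eq_sum_card_fiberwise hmaps]
      refine Finset.sum_le_sum (fun t _ => Finset.card_le_card ?_)
      intro x hx
      obtain ⟨h2, h3⟩ := Finset.mem_filter.mp hx
      exact Finset.mem_filter.mpr ⟨(Finset.mem_filter.mp h2).1, h3⟩) univ
    have hAiso : isolationNumber H ≤ A.card :=
      Nat.sInf_le ⟨A, fun u v huv => hA u (Finset.mem_univ _) v (Finset.mem_univ _) huv, rfl⟩
    refine (Nat.mul_le_mul_left _ hAiso).trans (hc.trans ?_)
    calc ∑ t ∈ R, w t ≤ ∑ t : β, w t :=
          Finset.sum_le_sum_of_subset (Finset.subset_univ _)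
      _ = D.card := (Finset.card_eq_sum_card_fiberwise (fun x _ => by simp)).symm

end Pool.Agent.Results.MP_33f02b_co.ForestFactor
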