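import Mathlib

/-!
# Isolation number of Cartesian products: a bound linear in `γ^i(G)` up to a slowly growing factor

For all finite graphs `G`, `H` and every `s ≥ 1` with `γ^i(G) ≤ s ^ (s + 2)`:
`ι(G □ H) ≥ ⌊γ^i(G) / s⌋ * ι(H)`.
-/

set_option autoImplicit false

namespace Pool.Agent.Results.MP_33f02b_co.NearLinear

open Finset

/-- `v` lies in the closed neighbourhood `N[A]`: it is in `A` or has a neighbour in `A`. -/
def InNbhd {V : Type*} (G : SimpleGraph V) (A : Finset V) (v : V) : Prop :=
  v ∈ A ∨ ∃ a ∈ A, G.Adj a v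

/-- `A` is isolating: no edge of `G` has both ends outside `N[A]`. -/
def IsIsolating {V : Type*} (G : SimpleGraph V) (A : Finset V) : Prop :=
  ∀ u v, G.Adj u v → InNbhd G A u ∨ InNbhd G A v

/-- The isolation number `ι(G)`: the least cardinality of an isolating set. -/
noncomputable def isolationNumber {V : Type*} (G : SimpleGraph V) : ℕ :=
  sInf {k | ∃ A : Finset V, IsIsolating G A ∧ A.card = k}

/-- The least number of vertices of `G` dominating all of `I`. -/
noncomputable def domNumberOf {V : Type*} (G : SimpleGraph V) (I : Finset V) : ℕ :=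
  sInf {k | ∃ D : Finset V, (∀ v ∈ I, InNbhd G D v) ∧ D.card = k}

/-- The independence-domination number `γ^i(G)`: the largest value of `domNumberOf G I` over the
independent sets `I` of `G`. -/
noncomputable def indepDomNumber {V : Type*} (G : SimpleGraph V) : ℕ :=
  sSup {k | ∃ I : Finset V, (∀ u ∈ I, ∀ v ∈ I, ¬ G.Adj u v) ∧ domNumberOf G I = k}

section
variable {α β : Type*}

lemma InNbhd.mono {V : Type*} {G : SimpleGraph V} {A B : Finset V} (h : A ⊆ B) {v : V}
    (hv : InNbhd G A v) : InNbhd G B v := by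
  rcases hv with hv | ⟨a, ha, hav⟩
  · exact Or.inl (h hv)
  · exact Or.inr ⟨a, h ha, hav⟩

open Classical in
/-- A set `U` dominates at most `|U|` whole cells. -/
lemma cells_le (G : SimpleGraph α) (I D0 : Finset α) (f : α → α)
    (hI : ∀ D : Finset α, (∀ v ∈ I, InNbhd G D v) → D0.card ≤ D.card)
    (hf : ∀ v ∈ I, f v ∈ D0 ∧ InNbhd G {f v} v) (U : Finset α) :
    (D0.filter (fun d => ∀ g ∈ I, f g = d → InNbhd G U g)).card ≤ U.card := by
  set K := D0.filter (fun d => ∀ g ∈ I, f g = d → InNbhd G U g) with hK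
  have h1 : ∀ v ∈ I, InNbhd G (U ∪ (D0 \ K)) v := by
    intro v hv
    by_cases hk : f v ∈ K
    · have := (Finset.mem_filter.mp hk).2 v hv rfl
      exact this.mono Finset.subset_union_left
    · have h2 : ({f v} : Finset α) ⊆ U ∪ (D0 \ K) := by
        intro x hx
        rw [Finset.mem_singleton] at hx
        subst hx
        exact Finset.mem_union_right _ (Finset.mem_sdiff.mpr ⟨(hf v hv).1, hk⟩)
      exact (hf v hv).2.mono h2
  have h2 := hI _ h1
  have h3 := Finset.card_union_le U (D0 \ K)
  have h4 : (D0 \ K).card = D0.card - K.card := Finset.card_sdiff_of_subset (Finset.filter_subset _ _)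
  have h5 : K.card ≤ D0.card := Finset.card_le_card (Finset.filter_subset _ _)
  omega

open Classical in
/-- Greedy choice: bad edges inside `S` can be isolated by few vertices. -/
lemma greedy (H : SimpleGraph β) (bad : β → β → Prop) (e : β → ℕ) (s : ℕ)
    (hbad : ∀ h h', H.Adj h h' → bad h h' → s ≤ e h + e h') :
    ∀ S : Finset β, ∃ P : Finset β,
      (∀ h ∈ S, ∀ h' ∈ S, H.Adj h h' → bad h h' → InNbhd H P h ∨ InNbhd H P h') ∧
      s * P.card ≤ ∑ h ∈ S, e h := by
  intro S
  induction S using Finset.strongInduction with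
  | _ S ih =>
  by_cases hex : ∃ h ∈ S, ∃ h' ∈ S, H.Adj h h' ∧ bad h h'
  · obtain ⟨h, hh, h', hh', hadj, hb⟩ := hex
    have hsub : ({h, h'} : Finset β) ⊆ S := by
      intro x hx
      rcases Finset.mem_insert.mp hx with e | e
      · rw [e]; exact hh
      · rw [Finset.mem_singleton.mp e]; exact hh'
    have hss : S \ {h, h'} ⊂ S := Finset.sdiff_ssubset hsub ⟨h, by simp⟩
    obtain ⟨P, hP, hc⟩ := ih _ hss
    refine ⟨insert h P, ?_, ?_⟩
    · have hin : ∀ x ∈ ({h, h'} : Finset β), InNbhd H (insert h P) x := by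
        intro x hx
        rcases Finset.mem_insert.mp hx with e | e
        · rw [e]; exact Or.inl (Finset.mem_insert_self _ _)
        · rw [Finset.mem_singleton.mp e]
          exact Or.inr ⟨h, Finset.mem_insert_self _ _, hadj⟩
      intro a ha b hb' hab hbd
      by_cases h1 : a ∈ ({h, h'} : Finset β)
      · exact Or.inl (hin a h1)
      · by_cases h2 : b ∈ ({h, h'} : Finset β)
        · exact Or.inr (hin b h2)
        · rcases hP a (Finset.mem_sdiff.mpr ⟨ha, h1⟩) b (Finset.mem_sdiff.mpr ⟨hb', h2⟩) hab hbd with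
            h3 | h3
          · exact Or.inl (h3.mono (Finset.subset_insert _ _))
          · exact Or.inr (h3.mono (Finset.subset_insert _ _))
    · have h1 : (insert h P).card ≤ P.card + 1 := Finset.card_insert_le _ _
      have h2 : ∑ x ∈ S \ {h, h'}, e x + ∑ x ∈ ({h, h'} : Finset β), e x = ∑ x ∈ S, e x :=
        Finset.sum_sdiff hsub
      rw [Finset.sum_pair hadj.ne] at h2
      have h3 := hbad h h' hadj hb
      calc s * (insert h P).card ≤ s * (P.card + 1) := Nat.mul_le_mul_left _ h1
        _ = s * P.card + s := by ring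
        _ ≤ _ := by omega
  · push Not at hex
    refine ⟨∅, fun h hh h' hh' hadj hb => absurd hb (hex h hh h' hh' hadj), by simp⟩

open Classical in
/-- `A` isolates the vertex subset `S`. -/
def IsolatesOn (H : SimpleGraph β) (S A : Finset β) : Prop :=
  ∀ h ∈ S, ∀ h' ∈ S, H.Adj h h' → InNbhd H A h ∨ InNbhd H A h'

open Classical in
lemma key [Fintype β] (G : SimpleGraph α) (H : SimpleGraph β) (I D0 : Finset α) (f : α → α)
    (m s : ℕ) (hm : 1 ≤ m) (hs : 1 ≤ s) (hsm : s * m ≤ D0.card)
    (hbin : (m - 1).choose s ≤ s * (D0.card - 1).choose (s - 1))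
    (hI : ∀ D : Finset α, (∀ v ∈ I, InNbhd G D v) → D0.card ≤ D.card)
    (hf : ∀ v ∈ I, f v ∈ D0 ∧ InNbhd G {f v} v)
    (W : α → Finset β) (E : β → Finset α) :
    ∀ S : Finset β,
      (∀ h ∈ S, ∀ h' ∈ S, H.Adj h h' → ∀ g ∈ I,
        InNbhd H (W g) h ∨ InNbhd H (W g) h' ∨ InNbhd G (E h) g ∨ InNbhd G (E h') g) →
      ∃ A : Finset β, (∀ h ∈ S, ∀ h' ∈ S, H.Adj h h' → InNbhd H A h ∨ InNbhd H A h') ∧
        m * A.card ≤ ∑ g ∈ I, (W g).card + ∑ h ∈ S, (E h).card := by
  intro S
  induction S using Finset.strongInduction with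
  | _ S ih =>
  intro hS
  by_cases hx : ∃ x : β, m ≤ ∑ t ∈ S.filter (fun t => t = x ∨ H.Adj x t), (E t).card
  · obtain ⟨x, hx⟩ := hx
    set T := S.filter (fun t => t = x ∨ H.Adj x t) with hT
    have hTne : T.Nonempty := by
      rw [Finset.nonempty_iff_ne_empty]
      intro h
      rw [h] at hx
      simp at hx
      omega
    have hss : S \ T ⊂ S := Finset.sdiff_ssubset (Finset.filter_subset _ _) hTne
    obtain ⟨A, hA, hc⟩ := ih (S \ T) hss (fun h hh h' hh' =>
      hS h (Finset.sdiff_subset hh) h' (Finset.sdiff_subset hh'))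
    refine ⟨insert x A, ?_, ?_⟩
    · intro h hh h' hh' hadj
      by_cases h1 : h ∈ T
      · left
        rcases (Finset.mem_filter.mp h1).2 with e | e
        · exact Or.inl (by rw [e]; exact Finset.mem_insert_self _ _)
        · exact Or.inr ⟨x, Finset.mem_insert_self _ _, e⟩
      · by_cases h2 : h' ∈ T
        · right
          rcases (Finset.mem_filter.mp h2).2 with e | e
          · exact Or.inl (by rw [e]; exact Finset.mem_insert_self _ _)
          · exact Or.inr ⟨x, Finset.mem_insert_self _ _, e⟩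
        · rcases hA h (Finset.mem_sdiff.mpr ⟨hh, h1⟩) h' (Finset.mem_sdiff.mpr ⟨hh', h2⟩) hadj with
            h | h
          · exact Or.inl (h.mono (Finset.subset_insert _ _))
          · exact Or.inr (h.mono (Finset.subset_insert _ _))
    · have h1 : (insert x A).card ≤ A.card + 1 := Finset.card_insert_le _ _
      have h2 : ∑ t ∈ S \ T, (E t).card + ∑ t ∈ T, (E t).card = ∑ t ∈ S, (E t).card :=
        Finset.sum_sdiff (Finset.filter_subset _ _)
      calc m * (insert x A).card ≤ m * (A.card + 1) := Nat.mul_le_mul_left _ h1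
        _ = m * A.card + m := by ring
        _ ≤ _ := by omega
  · push Not at hx
    -- a smallest isolating set of `S`
    obtain ⟨A0, hA0, hmin⟩ := Finset.exists_min_image
      (univ.filter (fun A : Finset β => IsolatesOn H S A)) (fun A => A.card)
      ⟨S, Finset.mem_filter.mpr ⟨Finset.mem_univ _, fun h hh h' _ _ => Or.inl (Or.inl hh)⟩⟩
    have hA0' : IsolatesOn H S A0 := (Finset.mem_filter.mp hA0).2
    have hmin' : ∀ A, IsolatesOn H S A → A0.card ≤ A.card := fun A hA =>
      hmin A (Finset.mem_filter.mpr ⟨Finset.mem_univ _, hA⟩)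
    let U : β → Finset α := fun h => (S.filter (fun t => t = h ∨ H.Adj h t)).biUnion E
    let K : Finset α → Finset α := fun V => D0.filter (fun d => ∀ g ∈ I, f g = d → InNbhd G V g)
    have hK : ∀ V, (K V).card ≤ V.card := fun V => cells_le G I D0 f hI hf V
    have hKmono : ∀ V V', V ⊆ V' → K V ⊆ K V' := by
      intro V V' hV d hd
      obtain ⟨h1, h2⟩ := Finset.mem_filter.mp hd
      exact Finset.mem_filter.mpr ⟨h1, fun g hg e => (h2 g hg e).mono hV⟩
    have hU : ∀ h, (U h).card ≤ m - 1 := by
      intro h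
      have h1 : (U h).card ≤ ∑ t ∈ S.filter (fun t => t = h ∨ H.Adj h t), (E t).card :=
        Finset.card_biUnion_le
      have h2 := hx h
      omega
    let WT : Finset α → Finset β := fun T => (I.filter (fun g => f g ∈ T)).biUnion W
    -- the basic inequality for a set `T` of `s` cells
    have hT : ∀ T ∈ D0.powersetCard s, s * A0.card ≤ s * (WT T).card +
        ∑ h ∈ S.filter (fun h => T ⊆ K (U h)), (E h).card := by
      intro T hT
      obtain ⟨hTD, hTs⟩ := Finset.mem_powersetCard.mp hT
      let bad : β → β → Prop := fun h h' => T ⊆ K (E h ∪ E h')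
      obtain ⟨P, hP, hPc⟩ := greedy H bad (fun h => (E h).card) s (by
        intro h h' _ hb
        have h1 := (Finset.card_le_card hb).trans (hK _)
        rw [hTs] at h1
        exact h1.trans (Finset.card_union_le _ _)) (S.filter (fun h => T ⊆ K (U h)))
      have hiso : IsolatesOn H S (WT T ∪ P) := by
        intro h hh h' hh' hadj
        by_contra hcon
        push Not at hcon
        have hcov : ∀ g ∈ I, f g ∈ T → InNbhd G (E h ∪ E h') g := by
          intro g hg hgT
          have hsub : W g ⊆ WT T ∪ P := fun x hx => Finset.mem_union_left _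
            (Finset.mem_biUnion.mpr ⟨g, Finset.mem_filter.mpr ⟨hg, hgT⟩, hx⟩)
          rcases hS h hh h' hh' hadj g hg with h1 | h1 | h1 | h1
          · exact absurd (h1.mono hsub) hcon.1
          · exact absurd (h1.mono hsub) hcon.2
          · exact h1.mono Finset.subset_union_left
          · exact h1.mono Finset.subset_union_right
        have hb : bad h h' := by
          intro d hd
          exact Finset.mem_filter.mpr ⟨hTD hd, fun g hg e => hcov g hg (by rw [e]; exact hd)⟩
        have hsubU : ∀ x y, x ∈ S → y ∈ S → H.Adj x y → E x ∪ E y ⊆ U x := by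
          intro x y hx' hy' hxy
          refine Finset.union_subset ?_ ?_
          · exact Finset.subset_biUnion_of_mem E (Finset.mem_filter.mpr ⟨hx', Or.inl rfl⟩)
          · exact Finset.subset_biUnion_of_mem E (Finset.mem_filter.mpr ⟨hy', Or.inr hxy⟩)
        have hm1 : h ∈ S.filter (fun h => T ⊆ K (U h)) :=
          Finset.mem_filter.mpr ⟨hh, hb.trans (hKmono _ _ (hsubU h h' hh hh' hadj))⟩
        have hm2 : h' ∈ S.filter (fun h => T ⊆ K (U h)) := by
          refine Finset.mem_filter.mpr ⟨hh', hb.trans (hKmono _ _ ?_)⟩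
          rw [Finset.union_comm]
          exact hsubU h' h hh' hh hadj.symm
        rcases hP h hm1 h' hm2 hadj hb with h3 | h3
        · exact hcon.1 (h3.mono Finset.subset_union_right)
        · exact hcon.2 (h3.mono Finset.subset_union_right)
      calc s * A0.card ≤ s * (WT T ∪ P).card := Nat.mul_le_mul_left _ (hmin' _ hiso)
        _ ≤ s * ((WT T).card + P.card) := Nat.mul_le_mul_left _ (Finset.card_union_le _ _)
        _ = s * (WT T).card + s * P.card := by ring
        _ ≤ _ := Nat.add_le_add_left hPc _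
    -- summing over all `T`
    have hsum := Finset.sum_le_sum hT
    rw [Finset.sum_const, Finset.card_powersetCard, smul_eq_mul, Finset.sum_add_distrib,
      ← Finset.mul_sum] at hsum
    have hWsum : ∑ T ∈ D0.powersetCard s, (WT T).card ≤
        (D0.card - 1).choose (s - 1) * ∑ g ∈ I, (W g).card := by
      calc ∑ T ∈ D0.powersetCard s, (WT T).card
          ≤ ∑ T ∈ D0.powersetCard s, ∑ g ∈ I, (if f g ∈ T then (W g).card else 0) := by
            refine Finset.sum_le_sum (fun T _ => ?_)
            refine Finset.card_biUnion_le.trans ?_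
            rw [Finset.sum_filter]
        _ = ∑ g ∈ I, ∑ T ∈ D0.powersetCard s, (if f g ∈ T then (W g).card else 0) :=
            Finset.sum_comm
        _ ≤ ∑ g ∈ I, (D0.card - 1).choose (s - 1) * (W g).card := by
            refine Finset.sum_le_sum (fun g hg => ?_)
            rw [← Finset.sum_filter, Finset.sum_const, smul_eq_mul]
            refine Nat.mul_le_mul_right _ ?_
            have hfg := (hf g hg).1
            have hcard : ((D0.powersetCard s).filter (fun T => f g ∈ T)).card ≤
                ((D0.erase (f g)).powersetCard (s - 1)).card := by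
              refine Finset.card_le_card_of_injOn (fun T => T.erase (f g)) ?_ ?_
              · intro T hT'
                obtain ⟨h1, h2⟩ := Finset.mem_filter.mp (Finset.mem_coe.mp hT')
                obtain ⟨h3, h4⟩ := Finset.mem_powersetCard.mp h1
                refine Finset.mem_coe.mpr (Finset.mem_powersetCard.mpr
                  ⟨Finset.erase_subset_erase _ h3, ?_⟩)
                rw [Finset.card_erase_of_mem h2, h4]
              · intro T hT' T' hT'' e
                have h2 := (Finset.mem_filter.mp (Finset.mem_coe.mp hT')).2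
                have h2' := (Finset.mem_filter.mp (Finset.mem_coe.mp hT'')).2
                rw [← Finset.insert_erase h2, ← Finset.insert_erase h2']
                exact congrArg (insert (f g)) e
            rw [Finset.card_powersetCard, Finset.card_erase_of_mem hfg] at hcard
            exact hcard
        _ = _ := by rw [Finset.mul_sum]
    have hEsum : ∑ T ∈ D0.powersetCard s, ∑ h ∈ S.filter (fun h => T ⊆ K (U h)), (E h).card ≤
        (m - 1).choose s * ∑ h ∈ S, (E h).card := by
      calc ∑ T ∈ D0.powersetCard s, ∑ h ∈ S.filter (fun h => T ⊆ K (U h)), (E h).card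
          = ∑ T ∈ D0.powersetCard s, ∑ h ∈ S, (if T ⊆ K (U h) then (E h).card else 0) := by
            refine Finset.sum_congr rfl (fun T _ => ?_)
            rw [Finset.sum_filter]
        _ = ∑ h ∈ S, ∑ T ∈ D0.powersetCard s, (if T ⊆ K (U h) then (E h).card else 0) :=
            Finset.sum_comm
        _ ≤ ∑ h ∈ S, (m - 1).choose s * (E h).card := by
            refine Finset.sum_le_sum (fun h _ => ?_)
            rw [← Finset.sum_filter, Finset.sum_const, smul_eq_mul]
            refine Nat.mul_le_mul_right _ ?_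
            have hsub : (D0.powersetCard s).filter (fun T => T ⊆ K (U h)) ⊆
                (K (U h)).powersetCard s := by
              intro T hT'
              obtain ⟨h1, h2⟩ := Finset.mem_filter.mp hT'
              exact Finset.mem_powersetCard.mpr ⟨h2, (Finset.mem_powersetCard.mp h1).2⟩
            have h1 := Finset.card_le_card hsub
            rw [Finset.card_powersetCard] at h1
            exact h1.trans (Nat.choose_le_choose s ((hK _).trans (hU h)))
        _ = _ := by rw [Finset.mul_sum]
    refine ⟨A0, hA0', ?_⟩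
    set w := ∑ g ∈ I, (W g).card with hw
    set c := ∑ h ∈ S, (E h).card with hc
    set B := (D0.card - 1).choose (s - 1) with hB
    have hD0 : 1 ≤ D0.card := le_trans (Nat.mul_pos hs hm) hsm
    have hsD : s ≤ D0.card := le_trans (Nat.le_mul_of_pos_right s hm) hsm
    have hBpos : 0 < B := Nat.choose_pos (by omega)
    have hid : D0.card.choose s * s = D0.card * B := by
      obtain ⟨n, hn⟩ : ∃ n, D0.card = n + 1 := ⟨D0.card - 1, by omega⟩
      obtain ⟨k, hk⟩ : ∃ k, s = k + 1 := ⟨s - 1, by omega⟩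
      rw [hB, hn, hk]
      simp only [Nat.add_sub_cancel]
      exact (Nat.add_one_mul_choose_eq n k).symm
    have h1 : D0.card * B * A0.card ≤ s * B * (w + c) := by
      calc D0.card * B * A0.card = D0.card.choose s * (s * A0.card) := by rw [← hid]; ring
        _ ≤ _ := hsum
        _ ≤ s * (B * w) + (m - 1).choose s * c :=
            Nat.add_le_add (Nat.mul_le_mul_left _ hWsum) hEsum
        _ ≤ s * (B * w) + (s * B) * c := Nat.add_le_add_left (Nat.mul_le_mul_right _ hbin) _
        _ = _ := by ring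
    have h2 : s * B * (m * A0.card) ≤ s * B * (w + c) := by
      calc s * B * (m * A0.card) = (s * m) * B * A0.card := by ring
        _ ≤ D0.card * B * A0.card :=
            Nat.mul_le_mul_right _ (Nat.mul_le_mul_right _ hsm)
        _ ≤ _ := h1
    exact Nat.le_of_mul_le_mul_left h2 (Nat.mul_pos hs hBpos)

open Classical in
lemma product_bound [Fintype α] [Fintype β] (G : SimpleGraph α) (H : SimpleGraph β)
    (I D0 : Finset α) (f : α → α)
    (m s : ℕ) (hm : 1 ≤ m) (hs : 1 ≤ s) (hsm : s * m ≤ D0.card)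
    (hbin : (m - 1).choose s ≤ s * (D0.card - 1).choose (s - 1))
    (hind : ∀ u ∈ I, ∀ v ∈ I, ¬ G.Adj u v)
    (hI : ∀ D : Finset α, (∀ v ∈ I, InNbhd G D v) → D0.card ≤ D.card)
    (hf : ∀ v ∈ I, f v ∈ D0 ∧ InNbhd G {f v} v)
    (D : Finset (α × β)) (hD : IsIsolating (G.boxProd H) D) :
    ∃ A : Finset β, IsIsolating H A ∧ m * A.card ≤ D.card := by
  let W : α → Finset β := fun g => univ.filter (fun h => (g, h) ∈ D)
  let E : β → Finset α := fun h => univ.filter (fun d => (d, h) ∈ D ∧ d ∉ I)
  have hloc : ∀ g ∈ I, ∀ h : β, InNbhd (G.boxProd H) D (g, h) →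
      InNbhd H (W g) h ∨ InNbhd G (E h) g := by
    intro g hg h hin
    rcases hin with h1 | ⟨⟨a, b⟩, hab, hadj⟩
    · exact Or.inl (Or.inl (Finset.mem_filter.mpr ⟨Finset.mem_univ _, h1⟩))
    · rw [SimpleGraph.boxProd_adj] at hadj
      rcases hadj with ⟨h1, h2⟩ | ⟨h1, h2⟩
      · simp only at h1 h2
        subst h2
        refine Or.inr (Or.inr ⟨a, Finset.mem_filter.mpr ⟨Finset.mem_univ _, hab, ?_⟩, h1⟩)
        intro ha
        exact hind a ha g hg h1
      · simp only at h1 h2
        subst h2
        exact Or.inl (Or.inr ⟨b, Finset.mem_filter.mpr ⟨Finset.mem_univ _, hab⟩, h1⟩)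
  obtain ⟨A, hA, hc⟩ := key G H I D0 f m s hm hs hsm hbin hI hf W E univ (by
    intro h _ h' _ hadj g hg
    have hadj' : (G.boxProd H).Adj (g, h) (g, h') := by
      rw [SimpleGraph.boxProd_adj]
      exact Or.inr ⟨hadj, rfl⟩
    rcases hD _ _ hadj' with h1 | h1
    · rcases hloc g hg h h1 with h2 | h2
      · exact Or.inl h2
      · exact Or.inr (Or.inr (Or.inl h2))
    · rcases hloc g hg h' h1 with h2 | h2
      · exact Or.inr (Or.inl h2)
      · exact Or.inr (Or.inr (Or.inr h2)))
  refine ⟨A, fun u v huv => hA u (Finset.mem_univ _) v (Finset.mem_univ _) huv, hc.trans ?_⟩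
  have e1 : ∑ g ∈ I, (W g).card = (D.filter (fun x => x.1 ∈ I)).card := by
    have hmaps : Set.MapsTo Prod.fst (↑(D.filter (fun x : α × β => x.1 ∈ I)) : Set (α × β))
        (↑I : Set α) := fun x hx => (Finset.mem_filter.mp (Finset.mem_coe.mp hx)).2
    rw [Finset.card_eq_sum_card_fiberwise hmaps]
    refine Finset.sum_congr rfl (fun g hg => ?_)
    refine Finset.card_bij (fun h _ => (g, h)) ?_ ?_ ?_
    · intro h hh
      exact Finset.mem_filter.mpr ⟨Finset.mem_filter.mpr ⟨(Finset.mem_filter.mp hh).2, hg⟩, rfl⟩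
    · intro a _ b _ e
      exact (Prod.mk.inj e).2
    · rintro ⟨a, b⟩ hb
      obtain ⟨h1, h2⟩ := Finset.mem_filter.mp hb
      simp only at h2
      subst h2
      exact ⟨b, Finset.mem_filter.mpr ⟨Finset.mem_univ _, (Finset.mem_filter.mp h1).1⟩, rfl⟩
  have e2 : ∑ h : β, (E h).card = (D.filter (fun x => x.1 ∉ I)).card := by
    have hmaps : Set.MapsTo Prod.snd (↑(D.filter (fun x : α × β => x.1 ∉ I)) : Set (α × β))
        (↑(univ : Finset β) : Set β) := fun x _ => Finset.mem_coe.mpr (Finset.mem_univ _)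
    rw [Finset.card_eq_sum_card_fiberwise hmaps]
    refine Finset.sum_congr rfl (fun h _ => ?_)
    refine Finset.card_bij (fun d _ => (d, h)) ?_ ?_ ?_
    · intro d hd
      obtain ⟨-, h1, h2⟩ := Finset.mem_filter.mp hd
      exact Finset.mem_filter.mpr ⟨Finset.mem_filter.mpr ⟨h1, h2⟩, rfl⟩
    · intro a _ b _ e
      exact (Prod.mk.inj e).1
    · rintro ⟨a, b⟩ hb
      obtain ⟨h1, h2⟩ := Finset.mem_filter.mp hb
      simp only at h2
      subst h2
      exact ⟨a, Finset.mem_filter.mpr ⟨Finset.mem_univ _, (Finset.mem_filter.mp h1).1,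
        (Finset.mem_filter.mp h1).2⟩, rfl⟩
  rw [e1, e2]
  exact (Finset.card_filter_add_card_filter_not (fun x : α × β => x.1 ∈ I)).le

lemma domNumberOf_le {V : Type*} (G : SimpleGraph V) (I D : Finset V)
    (h : ∀ v ∈ I, InNbhd G D v) : domNumberOf G I ≤ D.card :=
  Nat.sInf_le ⟨D, h, rfl⟩

lemma domNumberOf_le_card {V : Type*} (G : SimpleGraph V) (I : Finset V) :
    domNumberOf G I ≤ I.card :=
  domNumberOf_le G I I (fun _ hv => Or.inl hv)

open Classical in
/-- An independent set attaining `γ^i`. -/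
lemma exists_indep [Fintype α] (G : SimpleGraph α) :
    ∃ I : Finset α, (∀ u ∈ I, ∀ v ∈ I, ¬ G.Adj u v) ∧ domNumberOf G I = indepDomNumber G := by
  have hne : {k | ∃ I : Finset α, (∀ u ∈ I, ∀ v ∈ I, ¬ G.Adj u v) ∧ domNumberOf G I = k}.Nonempty :=
    ⟨_, ∅, by simp, rfl⟩
  have hb : BddAbove {k | ∃ I : Finset α, (∀ u ∈ I, ∀ v ∈ I, ¬ G.Adj u v) ∧
      domNumberOf G I = k} := by
    refine ⟨Fintype.card α, ?_⟩
    rintro k ⟨I, -, rfl⟩
    exact (domNumberOf_le_card G I).trans (Finset.card_le_univ I)
  exact Nat.sSup_mem hne hb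

open Classical in
/-- Below any dominating requirement there is an independent set needing exactly `m` vertices. -/
lemma exists_exact (G : SimpleGraph α) (m : ℕ) (hm : 1 ≤ m) :
    ∀ I : Finset α, (∀ u ∈ I, ∀ v ∈ I, ¬ G.Adj u v) → m ≤ domNumberOf G I →
      ∃ J D0 : Finset α, (∀ u ∈ J, ∀ v ∈ J, ¬ G.Adj u v) ∧ D0.card = m ∧
        (∀ D : Finset α, (∀ v ∈ J, InNbhd G D v) → m ≤ D.card) ∧ ∀ v ∈ J, InNbhd G D0 v := by
  intro I
  induction I using Finset.strongInduction with
  | _ I ih =>
  intro hind hmI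
  have hlow : ∀ D : Finset α, (∀ v ∈ I, InNbhd G D v) → m ≤ D.card :=
    fun D hD => hmI.trans (domNumberOf_le G I D hD)
  have hIne : I.Nonempty := by
    rw [Finset.nonempty_iff_ne_empty]
    rintro rfl
    have := domNumberOf_le_card G (∅ : Finset α)
    simp at this
    omega
  obtain ⟨g, hg⟩ := hIne
  by_cases hcase : m ≤ domNumberOf G (I.erase g)
  · exact ih (I.erase g) (Finset.erase_ssubset hg)
      (fun u hu v hv => hind u (Finset.mem_of_mem_erase hu) v (Finset.mem_of_mem_erase hv)) hcase
  · have hmem : domNumberOf G (I.erase g) ∈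
        {k | ∃ D : Finset α, (∀ v ∈ I.erase g, InNbhd G D v) ∧ D.card = k} :=
      Nat.sInf_mem ⟨_, I.erase g, fun v hv => Or.inl hv, rfl⟩
    obtain ⟨D, hD, hDc⟩ := hmem
    have hdom : ∀ v ∈ I, InNbhd G (insert g D) v := by
      intro v hv
      by_cases e : v = g
      · exact Or.inl (by rw [e]; exact Finset.mem_insert_self _ _)
      · exact (hD v (Finset.mem_erase.mpr ⟨e, hv⟩)).mono (Finset.subset_insert _ _)
    have h1 := hlow _ hdom
    have h2 : (insert g D).card ≤ D.card + 1 := Finset.card_insert_le _ _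
    refine ⟨I, insert g D, hind, ?_, hlow, hdom⟩
    omega

end

/-- The binomial condition. -/
lemma binom_cond (m s M : ℕ) (hm : 1 ≤ m) (hs : 1 ≤ s) (hsm : s * m ≤ M)
    (hlog : m - 1 ≤ s ^ (s + 1)) : (m - 1).choose s ≤ s * (M - 1).choose (s - 1) := by
  obtain ⟨a, rfl⟩ : ∃ a, m = a + 1 := ⟨m - 1, by omega⟩
  obtain ⟨k, rfl⟩ : ∃ k, s = k + 1 := ⟨s - 1, by omega⟩
  simp only [Nat.add_sub_cancel] at *
  have h1 : a.choose (k + 1) * (k + 1).factorial ≤ a ^ (k + 1) := by
    rw [mul_comm, ← Nat.descFactorial_eq_factorial_mul_choose]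
    exact Nat.descFactorial_le_pow a (k + 1)
  have h2 : ((k + 1) * a) ^ k ≤ (M - 1).choose k * k.factorial := by
    rw [mul_comm ((M - 1).choose k), ← Nat.descFactorial_eq_factorial_mul_choose]
    refine le_trans (Nat.pow_le_pow_left ?_ k) (Nat.pow_sub_le_descFactorial (M - 1) k)
    have : (k + 1) * (a + 1) = (k + 1) * a + (k + 1) := by ring
    omega
  have h3 : a.choose (k + 1) * (k + 1).factorial ≤
      ((k + 1) * (M - 1).choose k) * (k + 1).factorial := by
    calc a.choose (k + 1) * (k + 1).factorial ≤ a ^ (k + 1) := h1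
      _ = a * a ^ k := by ring
      _ ≤ (k + 1) ^ (k + 1 + 1) * a ^ k := Nat.mul_le_mul_right _ hlog
      _ = (k + 1) * (k + 1) * ((k + 1) * a) ^ k := by rw [mul_pow]; ring
      _ ≤ (k + 1) * (k + 1) * ((M - 1).choose k * k.factorial) := Nat.mul_le_mul_left _ h2
      _ = _ := by rw [Nat.factorial_succ]; ring
  exact Nat.le_of_mul_le_mul_right h3 (Nat.factorial_pos _)

/-- **Partial answer.**  For all finite graphs `G`, `H` and every `s ≥ 1` with
`γ^i(G) ≤ s ^ (s + 2)`: `ι(G □ H) ≥ ⌊γ^i(G) / s⌋ * ι(H)`. -/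
theorem result {α β : Type*} [Finite α] [Finite β] (G : SimpleGraph α) (H : SimpleGraph β)
    (s : ℕ) (hs : 1 ≤ s) (hG : indepDomNumber G ≤ s ^ (s + 2)) :
    (indepDomNumber G / s) * isolationNumber H ≤ isolationNumber (G.boxProd H) := by
  classical
  have := Fintype.ofFinite α
  have := Fintype.ofFinite β
  set M := indepDomNumber G with hM
  rcases Nat.eq_zero_or_pos (M / s) with h0 | h0
  · rw [h0]; simp
  have hMpos : 1 ≤ M := by
    by_contra h
    have : M = 0 := by omega
    rw [this] at h0
    simp at h0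
  obtain ⟨I, hind, hI⟩ := exists_indep G
  obtain ⟨J, D0, hJind, hD0, hlow, hdom⟩ := exists_exact G M hMpos I hind (by rw [hI])
  have hch : ∀ v : α, ∃ d : α, v ∈ J → d ∈ D0 ∧ InNbhd G {d} v := by
    intro v
    by_cases hv : v ∈ J
    · rcases hdom v hv with h1 | ⟨a, ha, hav⟩
      · exact ⟨v, fun _ => ⟨h1, Or.inl (Finset.mem_singleton_self v)⟩⟩
      · exact ⟨a, fun _ => ⟨ha, Or.inr ⟨a, Finset.mem_singleton_self a, hav⟩⟩⟩
    · exact ⟨v, fun h => absurd h hv⟩
  choose f hf using hch
  have hmem : isolationNumber (G.boxProd H) ∈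
      {k | ∃ A : Finset (α × β), IsIsolating (G.boxProd H) A ∧ A.card = k} :=
    Nat.sInf_mem ⟨_, univ, fun u _ _ => Or.inl (Or.inl (Finset.mem_univ u)), rfl⟩
  obtain ⟨D, hD, hDc⟩ := hmem
  have hsm : s * (M / s) ≤ M := Nat.mul_div_le M s
  have hlog : M / s - 1 ≤ s ^ (s + 1) := by
    have h1 : M / s ≤ s ^ (s + 2) / s := Nat.div_le_div_right hG
    have h2 : s ^ (s + 2) / s = s ^ (s + 1) := by
      rw [show s + 2 = (s + 1) + 1 by ring, pow_succ]
      exact Nat.mul_div_cancel _ hs
    omega
  obtain ⟨A, hA, hAc⟩ := product_bound G H J D0 f (M / s) s h0 hs (by rw [hD0]; exact hsm)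
    (by rw [hD0]; exact binom_cond (M / s) s M h0 hs hsm hlog) hJind
    (fun D hD => by rw [hD0]; exact hlow D hD) (fun v hv => hf v hv) D hD
  rw [← hDc]
  refine le_trans (Nat.mul_le_mul_left _ ?_) hAc
  exact Nat.sInf_le ⟨A, hA, rfl⟩

end Pool.Agent.Results.MP_33f02b_co.NearLinear
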