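import Mathlib

/-!
# Isolation number of Cartesian products: the factor `min (γ^i(G), 3)`

We prove `ι(G □ H) ≥ min (γ^i(G), 3) * ι(H)` for all finite graphs `G`, `H`, so the inequality of
the problem holds for every `H` as soon as `γ^i(G) ≤ 3`.
-/

set_option autoImplicit false

namespace Pool.Agent.Results.MP_33f02b_co.UpToThree

open Finset

/-- `v` lies in the closed neighbourhood `N[A]`: it is in `A` or has a neighbour in `A`. -/
def InNbhd {V : Type*} (G : SimpleGraph V) (A : Finset V) (v : V) : Prop :=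
  v ∈ A ∨ ∃ a ∈ A, G.Adj a v

/-- `A` is isolating: no edge of `G` has both ends outside `N[A]`. -/
def IsIsolating {V : Type*} (G : SimpleGraph V) (A : Finset V) : Prop :=
  ∀ u v, G.Adj u v → InNbhd G A u ∨ InNbhd G A v

/-- The isolation number `ι(G)`: the least cardinality of an isolating set. -/
noncomputable def isolationNumber {V : Type*} (G : SimpleGraph V) : ℕ :=
  sInf {k | ∃ A : Finset V, IsIsolating G A ∧ A.card = k}

/-- The least number of vertices of `G` dominating all of `I`. -/
noncomputable def domNumberOf {V : Type*} (G : SimpleGraph V) (I : Finset V) : ℕ :=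
  sInf {k | ∃ D : Finset V, (∀ v ∈ I, InNbhd G D v) ∧ D.card = k}

/-- The independence-domination number `γ^i(G)`: the largest value of `domNumberOf G I` over the
independent sets `I` of `G`. -/
noncomputable def indepDomNumber {V : Type*} (G : SimpleGraph V) : ℕ :=
  sSup {k | ∃ I : Finset V, (∀ u ∈ I, ∀ v ∈ I, ¬ G.Adj u v) ∧ domNumberOf G I = k}

section
variable {α β : Type*}

lemma InNbhd.mono {V : Type*} {G : SimpleGraph V} {A B : Finset V} (h : A ⊆ B) {v : V}
    (hv : InNbhd G A v) : InNbhd G B v := by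
  rcases hv with hv | ⟨a, ha, hav⟩
  · exact Or.inl (h hv)
  · exact Or.inr ⟨a, h ha, hav⟩

open Classical in
/-- A set `U` dominates at most `|U|` whole cells. -/
lemma cells_le (G : SimpleGraph α) (I D0 : Finset α) (f : α → α)
    (hI : ∀ D : Finset α, (∀ v ∈ I, InNbhd G D v) → D0.card ≤ D.card)
    (hf : ∀ v ∈ I, f v ∈ D0 ∧ InNbhd G {f v} v) (U : Finset α) :
    (D0.filter (fun d => ∀ g ∈ I, f g = d → InNbhd G U g)).card ≤ U.card := by
  set K := D0.filter (fun d => ∀ g ∈ I, f g = d → InNbhd G U g) with hK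
  have h1 : ∀ v ∈ I, InNbhd G (U ∪ (D0 \ K)) v := by
    intro v hv
    by_cases hk : f v ∈ K
    · have := (Finset.mem_filter.mp hk).2 v hv rfl
      exact this.mono Finset.subset_union_left
    · have h2 : ({f v} : Finset α) ⊆ U ∪ (D0 \ K) := by
        intro x hx
        rw [Finset.mem_singleton] at hx
        subst hx
        exact Finset.mem_union_right _ (Finset.mem_sdiff.mpr ⟨(hf v hv).1, hk⟩)
      exact (hf v hv).2.mono h2
  have h2 := hI _ h1
  have h3 := Finset.card_union_le U (D0 \ K)
  have h4 : (D0 \ K).card = D0.card - K.card := Finset.card_sdiff_of_subset (Finset.filter_subset _ _)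
  have h5 : K.card ≤ D0.card := Finset.card_le_card (Finset.filter_subset _ _)
  omega

open Classical in
lemma key [Fintype β] (G : SimpleGraph α) (H : SimpleGraph β) (I D0 : Finset α) (f : α → α)
    (h0 : 1 ≤ D0.card) (h3 : D0.card ≤ 3)
    (hI : ∀ D : Finset α, (∀ v ∈ I, InNbhd G D v) → D0.card ≤ D.card)
    (hf : ∀ v ∈ I, f v ∈ D0 ∧ InNbhd G {f v} v)
    (W : α → Finset β) (E : β → Finset α) :
    ∀ S : Finset β,
      (∀ h ∈ S, ∀ h' ∈ S, H.Adj h h' → ∀ g ∈ I,
        InNbhd H (W g) h ∨ InNbhd H (W g) h' ∨ InNbhd G (E h) g ∨ InNbhd G (E h') g) →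
      ∃ A : Finset β, (∀ h ∈ S, ∀ h' ∈ S, H.Adj h h' → InNbhd H A h ∨ InNbhd H A h') ∧
        D0.card * A.card ≤ ∑ g ∈ I, (W g).card + ∑ h ∈ S, (E h).card := by
  intro S
  induction S using Finset.strongInduction with
  | _ S ih =>
  intro hS
  by_cases hx : ∃ x : β, D0.card ≤ ∑ t ∈ S.filter (fun t => t = x ∨ H.Adj x t), (E t).card
  · obtain ⟨x, hx⟩ := hx
    set T := S.filter (fun t => t = x ∨ H.Adj x t) with hT
    have hTne : T.Nonempty := by
      rw [Finset.nonempty_iff_ne_empty]
      intro h
      rw [h] at hx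
      simp at hx
      simp [hx] at h0
    have hss : S \ T ⊂ S := by
      refine Finset.sdiff_ssubset (Finset.filter_subset _ _) hTne
    obtain ⟨A, hA, hc⟩ := ih (S \ T) hss (fun h hh h' hh' =>
      hS h (Finset.sdiff_subset hh) h' (Finset.sdiff_subset hh'))
    refine ⟨insert x A, ?_, ?_⟩
    · intro h hh h' hh' hadj
      by_cases h1 : h ∈ T
      · left
        rcases (Finset.mem_filter.mp h1).2 with e | e
        · exact Or.inl (by rw [e]; exact Finset.mem_insert_self _ _)
        · exact Or.inr ⟨x, Finset.mem_insert_self _ _, e⟩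
      · by_cases h2 : h' ∈ T
        · right
          rcases (Finset.mem_filter.mp h2).2 with e | e
          · exact Or.inl (by rw [e]; exact Finset.mem_insert_self _ _)
          · exact Or.inr ⟨x, Finset.mem_insert_self _ _, e⟩
        · rcases hA h (Finset.mem_sdiff.mpr ⟨hh, h1⟩) h' (Finset.mem_sdiff.mpr ⟨hh', h2⟩) hadj with
            h | h
          · exact Or.inl (h.mono (Finset.subset_insert _ _))
          · exact Or.inr (h.mono (Finset.subset_insert _ _))
    · have h1 : (insert x A).card ≤ A.card + 1 := Finset.card_insert_le _ _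
      have h2 : ∑ t ∈ S \ T, (E t).card + ∑ t ∈ T, (E t).card = ∑ t ∈ S, (E t).card :=
        Finset.sum_sdiff (Finset.filter_subset _ _)
      calc D0.card * (insert x A).card ≤ D0.card * (A.card + 1) := Nat.mul_le_mul_left _ h1
        _ = D0.card * A.card + D0.card := by ring
        _ ≤ _ := by omega
  · push Not at hx
    -- positive vertices
    set P := S.filter (fun t => 1 ≤ (E t).card) with hP
    have hPS : ∀ {t}, t ∈ P → t ∈ S := fun h => (Finset.mem_filter.mp h).1
    -- at most one positive neighbour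
    have huniq : ∀ h ∈ P, ∀ t ∈ P, ∀ t' ∈ P, H.Adj h t → H.Adj h t' → t = t' := by
      intro h hh t ht t' ht' hadj hadj'
      by_contra hne
      have hsub : ({h, t, t'} : Finset β) ⊆ S.filter (fun s => s = h ∨ H.Adj h s) := by
        intro s hs
        simp only [Finset.mem_insert, Finset.mem_singleton] at hs
        rcases hs with e | e | e
        · subst e; exact Finset.mem_filter.mpr ⟨hPS hh, Or.inl rfl⟩
        · subst e; exact Finset.mem_filter.mpr ⟨hPS ht, Or.inr hadj⟩
        · subst e; exact Finset.mem_filter.mpr ⟨hPS ht', Or.inr hadj'⟩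
      have h1 : ∑ s ∈ ({h, t, t'} : Finset β), (E s).card ≤
          ∑ s ∈ S.filter (fun s => s = h ∨ H.Adj h s), (E s).card :=
        Finset.sum_le_sum_of_subset hsub
      have h2 := hx h
      have e1 : h ≠ t := hadj.ne
      have e2 : h ≠ t' := hadj'.ne
      rw [Finset.sum_insert (by simp [e1, e2]), Finset.sum_insert (by simp [hne]),
        Finset.sum_singleton] at h1
      have := (Finset.mem_filter.mp hh).2
      have := (Finset.mem_filter.mp ht).2
      have := (Finset.mem_filter.mp ht').2
      omega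
    -- a linear order on `β`
    let φ : β ≃ Fin (Fintype.card β) := Fintype.equivFin β
    set R := P.filter (fun h => ∀ t ∈ P, H.Adj h t → φ h < φ t) with hR
    let U : β → Finset α := fun h => (S.filter (fun t => t = h ∨ H.Adj h t)).biUnion E
    let F : α → Finset β := fun d => R.filter (fun h => ∀ g ∈ I, f g = d → InNbhd G (U h) g)
    let X : α → Finset β := fun d => ((I.filter (fun g => f g = d)).biUnion W) ∪ F d
    -- every cell is nonempty
    have hne : ∀ d ∈ D0, ∃ g ∈ I, f g = d := by
      intro d hd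
      by_contra hcon
      push Not at hcon
      have h1 := cells_le G I D0 f hI hf ∅
      rw [Finset.card_empty, Nat.le_zero, Finset.card_eq_zero] at h1
      have : d ∈ D0.filter (fun d => ∀ g ∈ I, f g = d → InNbhd G ∅ g) :=
        Finset.mem_filter.mpr ⟨hd, fun g hg e => absurd e (hcon g hg)⟩
      rw [h1] at this
      simp at this
    have hEU : ∀ h t, t ∈ S → (t = h ∨ H.Adj h t) → E t ⊆ U h := by
      intro h t ht hor
      exact Finset.subset_biUnion_of_mem E (Finset.mem_filter.mpr ⟨ht, hor⟩)
    -- main local claim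
    have hloc : ∀ d ∈ D0, ∀ h ∈ S, ∀ h' ∈ S, H.Adj h h' → h ∈ P →
        (∀ g ∈ I, f g = d → InNbhd G (E h) g ∨ InNbhd G (E h') g) → InNbhd H (F d) h := by
      intro d hd h hh h' hh' hadj hp hg
      by_cases hr : h ∈ R
      · refine Or.inl (Finset.mem_filter.mpr ⟨hr, fun g hgI e => ?_⟩)
        rcases hg g hgI e with h1 | h1
        · exact h1.mono (hEU h h hh (Or.inl rfl))
        · exact h1.mono (hEU h h' hh' (Or.inr hadj))
      · have : ∃ t ∈ P, H.Adj h t ∧ ¬ φ h < φ t := by
          by_contra hcon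
          push Not at hcon
          exact hr (Finset.mem_filter.mpr ⟨hp, fun t ht ha => hcon t ht ha⟩)
        obtain ⟨t, ht, hta, htl⟩ := this
        have hlt : φ t < φ h := by
          rcases lt_or_eq_of_le (not_lt.mp htl) with h1 | h1
          · exact h1
          · exact absurd (φ.injective h1) hta.ne'
        refine Or.inr ⟨t, Finset.mem_filter.mpr ⟨Finset.mem_filter.mpr ⟨ht, ?_⟩, ?_⟩, hta.symm⟩
        · intro s hs hsa
          have := huniq t ht s hs h hp hsa hta.symm
          rw [this]; exact hlt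
        · intro g hgI e
          rcases hg g hgI e with h1 | h1
          · exact h1.mono (hEU t h hh (Or.inr hta.symm))
          · by_cases hp' : h' ∈ P
            · have := huniq h hp h' hp' t ht hadj hta
              rw [this] at h1
              exact h1.mono (hEU t t (hPS ht) (Or.inl rfl))
            · have hz : E h' = ∅ := by
                by_contra hcon
                exact hp' (Finset.mem_filter.mpr ⟨hh', Finset.card_pos.mpr
                  (Finset.nonempty_iff_ne_empty.mpr hcon)⟩)
              rw [hz] at h1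
              rcases h1 with h1 | ⟨a, ha, -⟩
              · simp at h1
              · simp at ha
    have hiso : ∀ d ∈ D0, ∀ h ∈ S, ∀ h' ∈ S, H.Adj h h' → InNbhd H (X d) h ∨ InNbhd H (X d) h' := by
      intro d hd h hh h' hh' hadj
      by_contra hcon
      push Not at hcon
      have hW : ∀ g ∈ I, f g = d → InNbhd G (E h) g ∨ InNbhd G (E h') g := by
        intro g hg e
        have hsub : W g ⊆ X d := fun s hs => Finset.mem_union_left _
          (Finset.mem_biUnion.mpr ⟨g, Finset.mem_filter.mpr ⟨hg, e⟩, hs⟩)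
        rcases hS h hh h' hh' hadj g hg with h1 | h1 | h1 | h1
        · exact absurd (h1.mono hsub) hcon.1
        · exact absurd (h1.mono hsub) hcon.2
        · exact Or.inl h1
        · exact Or.inr h1
      obtain ⟨g, hg, hgd⟩ := hne d hd
      have hpos : ∀ s ∈ S, InNbhd G (E s) g → s ∈ P := by
        intro s hs hin
        refine Finset.mem_filter.mpr ⟨hs, Finset.card_pos.mpr ?_⟩
        rcases hin with h1 | ⟨a, ha, -⟩
        · exact ⟨g, h1⟩
        · exact ⟨a, ha⟩
      have hsubF : F d ⊆ X d := Finset.subset_union_right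
      rcases hW g hg hgd with h1 | h1
      · exact hcon.1 ((hloc d hd h hh h' hh' hadj (hpos h hh h1) hW).mono hsubF)
      · exact hcon.2 ((hloc d hd h' hh' h hh hadj.symm (hpos h' hh' h1)
          (fun g hg e => (hW g hg e).symm)).mono hsubF)
    -- counting
    have hcount1 : ∑ d ∈ D0, (F d).card ≤ ∑ t ∈ S, (E t).card := by
      have s1 : ∑ d ∈ D0, (F d).card = ∑ h ∈ R,
          (D0.filter (fun d => ∀ g ∈ I, f g = d → InNbhd G (U h) g)).card := by
        simp only [F, Finset.card_filter]
        exact Finset.sum_comm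
      have s2 : ∀ h ∈ R, (D0.filter (fun d => ∀ g ∈ I, f g = d → InNbhd G (U h) g)).card ≤
          ∑ t ∈ S, if (t = h ∨ H.Adj h t) then (E t).card else 0 := by
        intro h hh
        refine (cells_le G I D0 f hI hf (U h)).trans ?_
        refine Finset.card_biUnion_le.trans ?_
        rw [Finset.sum_filter]
      rw [s1]
      refine (Finset.sum_le_sum s2).trans ?_
      rw [Finset.sum_comm]
      refine Finset.sum_le_sum (fun t ht => ?_)
      rw [← Finset.sum_filter, Finset.sum_const, smul_eq_mul]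
      by_cases hz : (E t).card = 0
      · rw [hz]; simp
      · have htP : t ∈ P := Finset.mem_filter.mpr ⟨ht, by omega⟩
        have hone : (R.filter (fun h => t = h ∨ H.Adj h t)).card ≤ 1 := by
          rw [Finset.card_le_one]
          intro a ha b hb
          obtain ⟨haR, ha'⟩ := Finset.mem_filter.mp ha
          obtain ⟨hbR, hb'⟩ := Finset.mem_filter.mp hb
          obtain ⟨haP, haR'⟩ := Finset.mem_filter.mp haR
          obtain ⟨hbP, hbR'⟩ := Finset.mem_filter.mp hbR
          rcases ha' with e | e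
          · rcases hb' with e' | e'
            · rw [← e, ← e']
            · subst e
              have h1 := hbR' t haP e'
              have h2 := haR' b hbP e'.symm
              exact absurd h1 (not_lt.mpr h2.le)
          · rcases hb' with e' | e'
            · subst e'
              have h1 := haR' t hbP e
              have h2 := hbR' a haP e.symm
              exact absurd h1 (not_lt.mpr h2.le)
            · exact huniq t htP a haP b hbP e.symm e'.symm
        calc _ ≤ 1 * (E t).card := Nat.mul_le_mul_right _ hone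
          _ = _ := one_mul _
    have hcount2 : ∑ d ∈ D0, ((I.filter (fun g => f g = d)).biUnion W).card ≤
        ∑ g ∈ I, (W g).card := by
      calc ∑ d ∈ D0, ((I.filter (fun g => f g = d)).biUnion W).card
          ≤ ∑ d ∈ D0, ∑ g ∈ I.filter (fun g => f g = d), (W g).card :=
            Finset.sum_le_sum (fun d _ => Finset.card_biUnion_le)
        _ = ∑ g ∈ I, (W g).card :=
            Finset.sum_fiberwise_of_maps_to (fun g hg => (hf g hg).1) _
    have hD0ne : D0.Nonempty := Finset.card_pos.mp h0
    obtain ⟨d, hd, hmin⟩ := Finset.exists_min_image D0 (fun d => (X d).card) hD0ne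
    refine ⟨X d, hiso d hd, ?_⟩
    calc D0.card * (X d).card = ∑ _e ∈ D0, (X d).card := by simp
      _ ≤ ∑ e ∈ D0, (X e).card := Finset.sum_le_sum (fun e he => hmin e he)
      _ ≤ ∑ e ∈ D0, (((I.filter (fun g => f g = e)).biUnion W).card + (F e).card) :=
          Finset.sum_le_sum (fun e _ => Finset.card_union_le _ _)
      _ = ∑ e ∈ D0, ((I.filter (fun g => f g = e)).biUnion W).card + ∑ e ∈ D0, (F e).card :=
          Finset.sum_add_distrib
      _ ≤ _ := Nat.add_le_add hcount2 hcount1


open Classical in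
lemma product_bound [Fintype α] [Fintype β] (G : SimpleGraph α) (H : SimpleGraph β)
    (I D0 : Finset α) (f : α → α)
    (h0 : 1 ≤ D0.card) (h3 : D0.card ≤ 3)
    (hind : ∀ u ∈ I, ∀ v ∈ I, ¬ G.Adj u v)
    (hI : ∀ D : Finset α, (∀ v ∈ I, InNbhd G D v) → D0.card ≤ D.card)
    (hf : ∀ v ∈ I, f v ∈ D0 ∧ InNbhd G {f v} v)
    (D : Finset (α × β)) (hD : IsIsolating (G.boxProd H) D) :
    ∃ A : Finset β, IsIsolating H A ∧ D0.card * A.card ≤ D.card := by
  let W : α → Finset β := fun g => univ.filter (fun h => (g, h) ∈ D)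
  let E : β → Finset α := fun h => univ.filter (fun d => (d, h) ∈ D ∧ d ∉ I)
  have hloc : ∀ g ∈ I, ∀ h : β, InNbhd (G.boxProd H) D (g, h) →
      InNbhd H (W g) h ∨ InNbhd G (E h) g := by
    intro g hg h hin
    rcases hin with h1 | ⟨⟨a, b⟩, hab, hadj⟩
    · exact Or.inl (Or.inl (Finset.mem_filter.mpr ⟨Finset.mem_univ _, h1⟩))
    · rw [SimpleGraph.boxProd_adj] at hadj
      rcases hadj with ⟨h1, h2⟩ | ⟨h1, h2⟩
      · simp only at h1 h2
        subst h2
        refine Or.inr (Or.inr ⟨a, Finset.mem_filter.mpr ⟨Finset.mem_univ _, hab, ?_⟩, h1⟩)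
        intro ha
        exact hind a ha g hg h1
      · simp only at h1 h2
        subst h2
        exact Or.inl (Or.inr ⟨b, Finset.mem_filter.mpr ⟨Finset.mem_univ _, hab⟩, h1⟩)
  obtain ⟨A, hA, hc⟩ := key G H I D0 f h0 h3 hI hf W E univ (by
    intro h _ h' _ hadj g hg
    have hadj' : (G.boxProd H).Adj (g, h) (g, h') := by
      rw [SimpleGraph.boxProd_adj]
      exact Or.inr ⟨hadj, rfl⟩
    rcases hD _ _ hadj' with h1 | h1
    · rcases hloc g hg h h1 with h2 | h2
      · exact Or.inl h2
      · exact Or.inr (Or.inr (Or.inl h2))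
    · rcases hloc g hg h' h1 with h2 | h2
      · exact Or.inr (Or.inl h2)
      · exact Or.inr (Or.inr (Or.inr h2)))
  refine ⟨A, fun u v huv => hA u (Finset.mem_univ _) v (Finset.mem_univ _) huv, hc.trans ?_⟩
  have e1 : ∑ g ∈ I, (W g).card = (D.filter (fun x => x.1 ∈ I)).card := by
    have hmaps : Set.MapsTo Prod.fst (↑(D.filter (fun x : α × β => x.1 ∈ I)) : Set (α × β))
        (↑I : Set α) := fun x hx => (Finset.mem_filter.mp (Finset.mem_coe.mp hx)).2
    rw [Finset.card_eq_sum_card_fiberwise hmaps]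
    refine Finset.sum_congr rfl (fun g hg => ?_)
    refine Finset.card_bij (fun h _ => (g, h)) ?_ ?_ ?_
    · intro h hh
      exact Finset.mem_filter.mpr ⟨Finset.mem_filter.mpr ⟨(Finset.mem_filter.mp hh).2, hg⟩, rfl⟩
    · intro a _ b _ e
      exact (Prod.mk.inj e).2
    · rintro ⟨a, b⟩ hb
      obtain ⟨h1, h2⟩ := Finset.mem_filter.mp hb
      simp only at h2
      subst h2
      exact ⟨b, Finset.mem_filter.mpr ⟨Finset.mem_univ _, (Finset.mem_filter.mp h1).1⟩, rfl⟩
  have e2 : ∑ h : β, (E h).card = (D.filter (fun x => x.1 ∉ I)).card := by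
    have hmaps : Set.MapsTo Prod.snd (↑(D.filter (fun x : α × β => x.1 ∉ I)) : Set (α × β))
        (↑(univ : Finset β) : Set β) := fun x _ => Finset.mem_coe.mpr (Finset.mem_univ _)
    rw [Finset.card_eq_sum_card_fiberwise hmaps]
    refine Finset.sum_congr rfl (fun h _ => ?_)
    refine Finset.card_bij (fun d _ => (d, h)) ?_ ?_ ?_
    · intro d hd
      obtain ⟨-, h1, h2⟩ := Finset.mem_filter.mp hd
      exact Finset.mem_filter.mpr ⟨Finset.mem_filter.mpr ⟨h1, h2⟩, rfl⟩
    · intro a _ b _ e
      exact (Prod.mk.inj e).1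
    · rintro ⟨a, b⟩ hb
      obtain ⟨h1, h2⟩ := Finset.mem_filter.mp hb
      simp only at h2
      subst h2
      exact ⟨a, Finset.mem_filter.mpr ⟨Finset.mem_univ _, (Finset.mem_filter.mp h1).1,
        (Finset.mem_filter.mp h1).2⟩, rfl⟩
  rw [e1, e2]
  exact (Finset.card_filter_add_card_filter_not (fun x : α × β => x.1 ∈ I)).le

lemma domNumberOf_le {V : Type*} (G : SimpleGraph V) (I D : Finset V)
    (h : ∀ v ∈ I, InNbhd G D v) : domNumberOf G I ≤ D.card :=
  Nat.sInf_le ⟨D, h, rfl⟩

lemma domNumberOf_le_card {V : Type*} (G : SimpleGraph V) (I : Finset V) :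
    domNumberOf G I ≤ I.card :=
  domNumberOf_le G I I (fun _ hv => Or.inl hv)

open Classical in
/-- An independent set attaining `γ^i`. -/
lemma exists_indep [Fintype α] (G : SimpleGraph α) :
    ∃ I : Finset α, (∀ u ∈ I, ∀ v ∈ I, ¬ G.Adj u v) ∧ domNumberOf G I = indepDomNumber G := by
  have hne : {k | ∃ I : Finset α, (∀ u ∈ I, ∀ v ∈ I, ¬ G.Adj u v) ∧ domNumberOf G I = k}.Nonempty :=
    ⟨_, ∅, by simp, rfl⟩
  have hb : BddAbove {k | ∃ I : Finset α, (∀ u ∈ I, ∀ v ∈ I, ¬ G.Adj u v) ∧
      domNumberOf G I = k} := by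
    refine ⟨Fintype.card α, ?_⟩
    rintro k ⟨I, -, rfl⟩
    exact (domNumberOf_le_card G I).trans (Finset.card_le_univ I)
  exact Nat.sSup_mem hne hb

open Classical in
/-- Below any dominating requirement there is an independent set needing exactly `m` vertices. -/
lemma exists_exact (G : SimpleGraph α) (m : ℕ) (hm : 1 ≤ m) :
    ∀ I : Finset α, (∀ u ∈ I, ∀ v ∈ I, ¬ G.Adj u v) → m ≤ domNumberOf G I →
      ∃ J D0 : Finset α, (∀ u ∈ J, ∀ v ∈ J, ¬ G.Adj u v) ∧ D0.card = m ∧
        (∀ D : Finset α, (∀ v ∈ J, InNbhd G D v) → m ≤ D.card) ∧ ∀ v ∈ J, InNbhd G D0 v := by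
  intro I
  induction I using Finset.strongInduction with
  | _ I ih =>
  intro hind hmI
  have hlow : ∀ D : Finset α, (∀ v ∈ I, InNbhd G D v) → m ≤ D.card :=
    fun D hD => hmI.trans (domNumberOf_le G I D hD)
  have hIne : I.Nonempty := by
    rw [Finset.nonempty_iff_ne_empty]
    rintro rfl
    have := domNumberOf_le_card G (∅ : Finset α)
    simp at this
    omega
  obtain ⟨g, hg⟩ := hIne
  by_cases hcase : m ≤ domNumberOf G (I.erase g)
  · exact ih (I.erase g) (Finset.erase_ssubset hg)
      (fun u hu v hv => hind u (Finset.mem_of_mem_erase hu) v (Finset.mem_of_mem_erase hv)) hcase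
  · have hmem : domNumberOf G (I.erase g) ∈
        {k | ∃ D : Finset α, (∀ v ∈ I.erase g, InNbhd G D v) ∧ D.card = k} :=
      Nat.sInf_mem ⟨_, I.erase g, fun v hv => Or.inl hv, rfl⟩
    obtain ⟨D, hD, hDc⟩ := hmem
    have hdom : ∀ v ∈ I, InNbhd G (insert g D) v := by
      intro v hv
      by_cases e : v = g
      · exact Or.inl (by rw [e]; exact Finset.mem_insert_self _ _)
      · exact (hD v (Finset.mem_erase.mpr ⟨e, hv⟩)).mono (Finset.subset_insert _ _)
    have h1 := hlow _ hdom
    have h2 : (insert g D).card ≤ D.card + 1 := Finset.card_insert_le _ _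
    refine ⟨I, insert g D, hind, ?_, hlow, hdom⟩
    omega

end

/-- **Partial answer.**  For all finite graphs `G`, `H`:
`ι(G □ H) ≥ min (γ^i(G), 3) * ι(H)`. -/
theorem result {α β : Type*} [Finite α] [Finite β] (G : SimpleGraph α) (H : SimpleGraph β) :
    min (indepDomNumber G) 3 * isolationNumber H ≤ isolationNumber (G.boxProd H) := by
  classical
  have := Fintype.ofFinite α
  have := Fintype.ofFinite β
  set m := min (indepDomNumber G) 3 with hm
  rcases Nat.eq_zero_or_pos m with h0 | h0
  · rw [h0]; simp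
  obtain ⟨I, hind, hI⟩ := exists_indep G
  obtain ⟨J, D0, hJind, hD0, hlow, hdom⟩ := exists_exact G m h0 I hind
    (by rw [hI]; exact min_le_left _ _)
  have hch : ∀ v : α, ∃ d : α, v ∈ J → d ∈ D0 ∧ InNbhd G {d} v := by
    intro v
    by_cases hv : v ∈ J
    · rcases hdom v hv with h1 | ⟨a, ha, hav⟩
      · exact ⟨v, fun _ => ⟨h1, Or.inl (Finset.mem_singleton_self v)⟩⟩
      · exact ⟨a, fun _ => ⟨ha, Or.inr ⟨a, Finset.mem_singleton_self a, hav⟩⟩⟩
    · exact ⟨v, fun h => absurd h hv⟩
  choose f hf using hch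
  have hmem : isolationNumber (G.boxProd H) ∈
      {k | ∃ A : Finset (α × β), IsIsolating (G.boxProd H) A ∧ A.card = k} :=
    Nat.sInf_mem ⟨_, univ, fun u _ _ => Or.inl (Or.inl (Finset.mem_univ u)), rfl⟩
  obtain ⟨D, hD, hDc⟩ := hmem
  obtain ⟨A, hA, hAc⟩ := product_bound G H J D0 f (by omega) (by omega) hJind
    (fun D hD => by rw [hD0]; exact hlow D hD) (fun v hv => hf v hv) D hD
  rw [hD0] at hAc
  rw [← hDc]
  refine le_trans (Nat.mul_le_mul_left _ ?_) hAc
  exact Nat.sInf_le ⟨A, hA, rfl⟩

end Pool.Agent.Results.MP_33f02b_co.UpToThree
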